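import Mathlib
import Pool.Agent.Lib.MP_455133_co.BO.Cfg

/-!
Configurations with a general excess `ε`: a family `H` of `(n+1)`-sets on a finite set `V`,
positive weights `ξ` of total more than `k` with small links, and a fractional cover of `V` by
independent sets of total weight less than `k + ε`, where `n ε ≤ 1 / 4`.
-/

namespace Pool.Agent.Lib.MP_455133_co.BT

open Finset
open Pool.Agent.Lib.MP_455133_co.BO (wt lnk)

/-- A configuration. -/
structure Cfg (V Y : Type) [Fintype V] [DecidableEq V] [Fintype Y] (n k : ℕ) where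
  H : Finset (Finset V)
  ξ : V → ℝ
  μ : Y → ℝ
  I : Y → Finset V
  ε : ℝ
  hn : 2 ≤ n
  hk : 1 ≤ k
  hε0 : 0 < ε
  hε : n * ε ≤ 1 / 4
  hH : ∀ e ∈ H, e.card = n + 1
  hξ : ∀ v, 0 < ξ v
  hL : (k : ℝ) < ∑ v, ξ v
  hlink : ∀ v, ∑ w ∈ lnk H n v, ∏ i, ξ (w i) ≤ 1
  hμ : ∀ y, 0 ≤ μ y
  hI : ∀ y, ∀ e ∈ H, ¬ e ⊆ I y
  hz : ∑ y, μ y < (k : ℝ) + ε
  hcov : ∀ v, 1 ≤ ∑ y ∈ univ.filter (fun y => v ∈ I y), μ y

variable {V Y : Type} [Fintype V] [DecidableEq V] [Fintype Y] {n k : ℕ}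

/-- The weight of the independent set `I y`. -/
noncomputable def Cfg.a (c : Cfg V Y n k) (y : Y) : ℝ := wt c.ξ (c.I y)

/-- Classes of vertices, with a top point `p v` for every vertex. -/
structure Cls (c : Cfg V Y n k) (m : ℕ) where
  π : V → Fin m
  p : V → Y
  hsurj : Function.Surjective π
  hp : ∀ v, v ∈ c.I (p v)
  htop : ∀ v, 1 - c.ε < c.a (p v)
  P1 : ∀ u v, v ∈ c.I (p u) → π v = π u
  P2 : ∀ u v, π u = π v → (c.I (p u) ∩ c.I (p v)).Nonempty

/-- The point `y` lies in sets of at least two classes. -/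
def Cls.Multi {c : Cfg V Y n k} {m : ℕ} (d : Cls c m) (y : Y) : Prop :=
  ∃ u ∈ c.I y, ∃ v ∈ c.I y, d.π u ≠ d.π v

/-- The weight of a class. -/
noncomputable def Cls.cw {c : Cfg V Y n k} {m : ℕ} (d : Cls c m) (q : Fin m) : ℝ :=
  ∑ v ∈ univ.filter (fun v => d.π v = q), c.ξ v

/-- The weight of the part of `I y` in a class. -/
noncomputable def Cls.tw {c : Cfg V Y n k} {m : ℕ} (d : Cls c m) (q : Fin m) (y : Y) : ℝ :=
  ∑ v ∈ (c.I y).filter (fun v => d.π v = q), c.ξ v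

end Pool.Agent.Lib.MP_455133_co.BT
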