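import Mathlib
import Pool.Agent.Lib.MP_455133_co.BT.Cfg

/-!
Lower bounds for links by boxes.
-/

namespace Pool.Agent.Lib.MP_455133_co.BT

open Finset
open Pool.Agent.Lib.MP_455133_co.BO (wt lnk)

variable {V Y : Type} [Fintype V] [DecidableEq V] [Fintype Y] {n k : ℕ}

/-- Proof: `Finset.prod_univ_sum` (product of sums = sum over `Fintype.piFinset`). -/
theorem sum_box (ξ : V → ℝ) (n : ℕ) (S : Finset V) :
    ∑ w ∈ Fintype.piFinset (fun _ : Fin n => S), ∏ i, ξ (w i) = wt ξ S ^ n := by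
  rw [← Finset.prod_univ_sum (fun _ : Fin n => S) (fun _ x => ξ x), Finset.prod_const,
    Finset.card_univ, Fintype.card_fin]
  rfl

/-- all entries in an independent set containing `v` -/
theorem Box_mem (c : Cfg V Y n k) {v : V} {y : Y} (h : v ∈ c.I y) {w : Fin n → V}
    (hw : ∀ i, w i ∈ c.I y) : w ∈ lnk c.H n v := by
  unfold lnk
  rw [Finset.mem_filter]
  refine ⟨Finset.mem_univ _, fun hH => c.hI y _ hH ?_⟩
  intro x hx
  rw [Finset.mem_insert, Finset.mem_image] at hx
  rcases hx with rfl | ⟨i, -, rfl⟩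
  · exact h
  · exact hw i

theorem Box_nonneg (c : Cfg V Y n k) (w : Fin n → V) : 0 ≤ ∏ i, c.ξ (w i) :=
  Finset.prod_nonneg fun i _ => (c.hξ (w i)).le

/-- If `v ∈ I y` then all tuples with entries in `I y` are in the link of `v` (as `I y` contains
no member of `H`), so `a y ^ n ≤ 1` by `sum_box` and `hlink`. -/
theorem box_le (c : Cfg V Y n k) {v : V} {y : Y} (h : v ∈ c.I y) : c.a y ^ n ≤ 1 := by
  unfold Cfg.a
  rw [← sum_box]
  refine le_trans ?_ (c.hlink v)
  apply Finset.sum_le_sum_of_subset_of_nonneg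
  · intro w hw
    rw [Fintype.mem_piFinset] at hw
    exact Box_mem c h hw
  · intro w _ _
    exact Box_nonneg c w

/-- Inclusion-exclusion for the two boxes `(I y)^n`, `(I y')^n`, whose intersection is
`(I y ∩ I y')^n`; both lie in the link of `v`. -/
theorem two_box (c : Cfg V Y n k) {v : V} {y y' : Y} (h : v ∈ c.I y) (h' : v ∈ c.I y') :
    c.a y ^ n + c.a y' ^ n ≤ 1 + wt c.ξ (c.I y ∩ c.I y') ^ n := by
  unfold Cfg.a
  rw [← sum_box, ← sum_box, ← sum_box]
  have hi : Fintype.piFinset (fun _ : Fin n => c.I y ∩ c.I y') =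
      Fintype.piFinset (fun _ : Fin n => c.I y) ∩ Fintype.piFinset (fun _ : Fin n => c.I y') := by
    ext w
    simp only [Fintype.mem_piFinset, Finset.mem_inter]
    exact forall_and
  rw [hi, ← Finset.sum_union_inter]
  have hu : ∑ w ∈ Fintype.piFinset (fun _ : Fin n => c.I y) ∪
      Fintype.piFinset (fun _ : Fin n => c.I y'), ∏ i, c.ξ (w i) ≤ 1 := by
    refine le_trans ?_ (c.hlink v)
    apply Finset.sum_le_sum_of_subset_of_nonneg
    · intro w hw
      rw [Finset.mem_union, Fintype.mem_piFinset, Fintype.mem_piFinset] at hw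
      rcases hw with hw | hw
      · exact Box_mem c h hw
      · exact Box_mem c h' hw
    · intro w _ _
      exact Box_nonneg c w
  linarith

/-- the tuples with `w j = v` and all other entries in `S` -/
def Box_T (n : ℕ) (S : V → Finset V) (p : V × Fin n) : Finset (Fin n → V) :=
  Fintype.piFinset fun i => if i = p.2 then {p.1} else S p.1

theorem Box_T_mem (n : ℕ) (S : V → Finset V) (p : V × Fin n) (w : Fin n → V) :
    w ∈ Box_T n S p ↔ w p.2 = p.1 ∧ ∀ i, i ≠ p.2 → w i ∈ S p.1 := by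
  unfold Box_T
  rw [Fintype.mem_piFinset]
  constructor
  · intro h
    refine ⟨?_, ?_⟩
    · have h1 := h p.2
      rw [if_pos rfl] at h1
      exact Finset.mem_singleton.1 h1
    · intro i hi
      have h1 := h i
      rw [if_neg hi] at h1
      exact h1
  · rintro ⟨h1, h2⟩ i
    by_cases hi : i = p.2
    · rw [if_pos hi, hi]
      exact Finset.mem_singleton.2 h1
    · rw [if_neg hi]
      exact h2 i hi

theorem Box_T_sum (ξ : V → ℝ) (n : ℕ) (S : V → Finset V) (p : V × Fin n) :
    ∑ w ∈ Box_T n S p, ∏ i, ξ (w i) = ξ p.1 * wt ξ (S p.1) ^ (n - 1) := by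
  unfold Box_T
  rw [← Finset.prod_univ_sum (fun i : Fin n => if i = p.2 then {p.1} else S p.1) (fun _ x => ξ x),
    ← Finset.mul_prod_erase Finset.univ _ (Finset.mem_univ p.2)]
  congr 1
  · rw [if_pos rfl, Finset.sum_singleton]
  · have e : ∀ i ∈ Finset.univ.erase p.2,
        ∑ j ∈ (if i = p.2 then {p.1} else S p.1), ξ j = wt ξ (S p.1) := by
      intro i hi
      rw [if_neg (Finset.ne_of_mem_erase hi)]
      rfl
    rw [Finset.prod_congr rfl e, Finset.prod_const, Finset.card_erase_of_mem (Finset.mem_univ _),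
      Finset.card_univ, Fintype.card_fin]

/-- The box `(I y)^n` and, for every `v ∈ W` and every coordinate `j`, the tuples with `w j = v`
and all other entries in `I (q v) ∩ I y`; these sets of tuples are pairwise disjoint
(since `v ∉ I y`) and contained in the link of `u` (all entries and `u` lie in `I y`, resp. in
`I (q v)`). -/
theorem side_box (c : Cfg V Y n k) {u : V} {y : Y} (hu : u ∈ c.I y) (W : Finset V) (q : V → Y)
    (hW : ∀ v ∈ W, v ∉ c.I y ∧ v ∈ c.I (q v) ∧ u ∈ c.I (q v)) :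
    c.a y ^ n + n * ∑ v ∈ W, c.ξ v * wt c.ξ (c.I (q v) ∩ c.I y) ^ (n - 1) ≤ 1 := by
  have e1 : (n : ℝ) * ∑ v ∈ W, c.ξ v * wt c.ξ (c.I (q v) ∩ c.I y) ^ (n - 1) =
      ∑ p ∈ W ×ˢ (Finset.univ : Finset (Fin n)),
        ∑ w ∈ Box_T n (fun v => c.I (q v) ∩ c.I y) p, ∏ i, c.ξ (w i) := by
    rw [Finset.sum_product]
    simp only [Box_T_sum, Finset.sum_const, Finset.card_univ, Fintype.card_fin, nsmul_eq_mul]
    rw [Finset.mul_sum]
  have e2 : ∑ p ∈ W ×ˢ (Finset.univ : Finset (Fin n)),
      ∑ w ∈ Box_T n (fun v => c.I (q v) ∩ c.I y) p, ∏ i, c.ξ (w i) =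
      ∑ w ∈ (W ×ˢ (Finset.univ : Finset (Fin n))).biUnion
        (Box_T n fun v => c.I (q v) ∩ c.I y), ∏ i, c.ξ (w i) := by
    rw [Finset.sum_biUnion]
    intro p hp p' hp' hne
    rw [Function.onFun, Finset.disjoint_left]
    intro w hw hw'
    rw [Box_T_mem] at hw hw'
    apply hne
    have hpW := (Finset.mem_product.1 (Finset.mem_coe.1 hp)).1
    have hj : p.2 = p'.2 := by
      by_contra hj
      have h1 := hw'.2 p.2 hj
      rw [hw.1] at h1
      exact (hW p.1 hpW).1 (Finset.mem_inter.1 h1).2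
    have hv : p.1 = p'.1 := by
      rw [← hw.1, ← hw'.1, hj]
    exact Prod.ext hv hj
  have hdis : Disjoint (Fintype.piFinset (fun _ : Fin n => c.I y))
      ((W ×ˢ (Finset.univ : Finset (Fin n))).biUnion (Box_T n fun v => c.I (q v) ∩ c.I y)) := by
    rw [Finset.disjoint_left]
    intro w hw hw'
    rw [Fintype.mem_piFinset] at hw
    obtain ⟨p, hp, hw'⟩ := Finset.mem_biUnion.1 hw'
    rw [Box_T_mem] at hw'
    apply (hW p.1 (Finset.mem_product.1 hp).1).1
    rw [← hw'.1]
    exact hw _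
  unfold Cfg.a
  rw [← sum_box, e1, e2, ← Finset.sum_union hdis]
  refine le_trans ?_ (c.hlink u)
  apply Finset.sum_le_sum_of_subset_of_nonneg
  · intro w hw
    rw [Finset.mem_union, Fintype.mem_piFinset, Finset.mem_biUnion] at hw
    rcases hw with hw | ⟨p, hp, hw⟩
    · exact Box_mem c hu hw
    · rw [Box_T_mem] at hw
      obtain ⟨-, h2, h3⟩ := hW p.1 (Finset.mem_product.1 hp).1
      apply Box_mem c h3
      intro i
      by_cases hi : i = p.2
      · rw [hi, hw.1]
        exact h2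
      · exact (Finset.mem_inter.1 (hw.2 i hi)).1
  · intro w _ _
    exact Box_nonneg c w

end Pool.Agent.Lib.MP_455133_co.BT
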