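import Mathlib
import Pool.Agent.Lib.MP_455133_co.BT.Box

/-!
Elementary consequences: top points, overlaps, transitivity.
-/

namespace Pool.Agent.Lib.MP_455133_co.BT

open Finset
open Pool.Agent.Lib.MP_455133_co.BO (wt lnk)

variable {V Y : Type} [Fintype V] [DecidableEq V] [Fintype Y] {n k : ℕ}

private theorem Top_wt_nonneg (c : Cfg V Y n k) (S : Finset V) : 0 ≤ wt c.ξ S :=
  Finset.sum_nonneg fun v _ => (c.hξ v).le

private theorem Top_n_pos (c : Cfg V Y n k) : (2 : ℝ) ≤ n := by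
  exact_mod_cast c.hn

theorem a_nonneg (c : Cfg V Y n k) (y : Y) : 0 ≤ c.a y :=
  Top_wt_nonneg c _

/-- From `box_le` (if `I y` is empty then `a y = 0`). -/
theorem a_le_one (c : Cfg V Y n k) (y : Y) : c.a y ≤ 1 := by
  rcases (c.I y).eq_empty_or_nonempty with h | ⟨v, hv⟩
  · have : c.a y = 0 := by simp [Cfg.a, wt, h]
    rw [this]; exact zero_le_one
  · have h1 := box_le c hv
    have hn : n ≠ 0 := by have := c.hn; omega
    exact (pow_le_one_iff_of_nonneg (a_nonneg c y) hn).1 h1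

theorem eps_pos (c : Cfg V Y n k) : 0 < c.ε := c.hε0

theorem eps_le (c : Cfg V Y n k) : c.ε ≤ 1 / 8 := by
  have h := Top_n_pos c
  have h1 := c.hε
  have h2 := c.hε0
  nlinarith

/-- Bernoulli: `(1 - ε) ^ n ≥ 1 - n ε`. -/
theorem top_pow (c : Cfg V Y n k) {y : Y} (hy : 1 - c.ε < c.a y) :
    1 - n * c.ε ≤ c.a y ^ n := by
  have h1 := eps_le c
  have h2 := eps_pos c
  have h3 : 1 + (n : ℝ) * (-c.ε) ≤ (1 + (-c.ε)) ^ n :=
    one_add_mul_le_pow (by linarith) n
  have h4 : (1 + (-c.ε)) ^ n ≤ c.a y ^ n :=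
    pow_le_pow_left₀ (by linarith) (by linarith) n
  linarith

/-- `∑ μ y = z < k + ε`, `∑ μ y * a y = ∑ v, ξ v * μ(S_v) ≥ ∑ ξ v > k`. -/
theorem deficit (c : Cfg V Y n k) : ∑ y, c.μ y * (1 - c.a y) < c.ε := by
  have h1 : ∑ y, c.μ y * (1 - c.a y) = ∑ y, c.μ y - ∑ y, c.μ y * c.a y := by
    rw [← Finset.sum_sub_distrib]
    exact Finset.sum_congr rfl fun y _ => by ring
  have h2 : ∑ y, c.μ y * c.a y
      = ∑ v, c.ξ v * ∑ y ∈ univ.filter (fun y => v ∈ c.I y), c.μ y := by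
    have e1 : ∀ y, c.μ y * c.a y = ∑ v, if v ∈ c.I y then c.ξ v * c.μ y else 0 := by
      intro y
      rw [← Finset.sum_filter]
      have e2 : univ.filter (fun v => v ∈ c.I y) = c.I y := by ext; simp
      rw [e2, Cfg.a, wt, Finset.mul_sum]
      exact Finset.sum_congr rfl fun v _ => by ring
    have e3 : ∀ v, c.ξ v * ∑ y ∈ univ.filter (fun y => v ∈ c.I y), c.μ y
        = ∑ y, if v ∈ c.I y then c.ξ v * c.μ y else 0 := by
      intro v
      rw [Finset.mul_sum, Finset.sum_filter]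
    rw [Finset.sum_congr rfl fun y _ => e1 y, Finset.sum_congr rfl fun v _ => e3 v,
      Finset.sum_comm]
  have h3 : ∑ v, c.ξ v
      ≤ ∑ v, c.ξ v * ∑ y ∈ univ.filter (fun y => v ∈ c.I y), c.μ y := by
    apply Finset.sum_le_sum
    intro v _
    have := mul_le_mul_of_nonneg_left (c.hcov v) (c.hξ v).le
    linarith
  have h4 := c.hL
  have h5 := c.hz
  rw [h1, h2]
  linarith

/-- If all `y` with `v ∈ I y` had `1 - a y ≥ ε`, then `∑ μ y (1 - a y) ≥ ε` by `hcov` and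
`a ≤ 1`, against `deficit`. -/
theorem exists_top (c : Cfg V Y n k) (v : V) : ∃ y, v ∈ c.I y ∧ 1 - c.ε < c.a y := by
  by_contra hcon
  push Not at hcon
  have h1 := deficit c
  have h2 : ∑ y ∈ univ.filter (fun y => v ∈ c.I y), c.μ y * (1 - c.a y)
      ≤ ∑ y, c.μ y * (1 - c.a y) := by
    apply Finset.sum_le_sum_of_subset_of_nonneg (Finset.filter_subset _ _)
    intro y _ _
    exact mul_nonneg (c.hμ y) (by linarith [a_le_one c y])
  have h3 : ∑ y ∈ univ.filter (fun y => v ∈ c.I y), c.μ y * c.ε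
      ≤ ∑ y ∈ univ.filter (fun y => v ∈ c.I y), c.μ y * (1 - c.a y) := by
    apply Finset.sum_le_sum
    intro y hy
    have hy' : v ∈ c.I y := (Finset.mem_filter.1 hy).2
    have := hcon y hy'
    exact mul_le_mul_of_nonneg_left (by linarith) (c.hμ y)
  rw [← Finset.sum_mul] at h3
  have h4 := mul_le_mul_of_nonneg_right (c.hcov v) (eps_pos c).le
  linarith

/-- `two_box` and `top_pow`: the overlap to the power `n` is at least
`2 (1 - n ε) - 1 = 1 - 2 n ε ≥ 1 / 2`. -/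
theorem overlap_pow (c : Cfg V Y n k) {y y' : Y} (hy : 1 - c.ε < c.a y)
    (hy' : 1 - c.ε < c.a y') (hne : (c.I y ∩ c.I y').Nonempty) :
    1 / 2 ≤ wt c.ξ (c.I y ∩ c.I y') ^ n := by
  obtain ⟨v, hv⟩ := hne
  have hv' := Finset.mem_inter.1 hv
  have h1 := two_box c hv'.1 hv'.2
  have h2 := top_pow c hy
  have h3 := top_pow c hy'
  have h5 := c.hε
  linarith

/-- Otherwise the overlap to the power `n ≥ 2` would be at most `1 / 4`. -/
theorem overlap_gt (c : Cfg V Y n k) {y y' : Y} (hy : 1 - c.ε < c.a y)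
    (hy' : 1 - c.ε < c.a y') (hne : (c.I y ∩ c.I y').Nonempty) :
    1 / 2 < wt c.ξ (c.I y ∩ c.I y') := by
  by_contra hcon
  push Not at hcon
  have h1 := overlap_pow c hy hy' hne
  have h0 := Top_wt_nonneg c (c.I y ∩ c.I y')
  have h2 : wt c.ξ (c.I y ∩ c.I y') ^ n ≤ (1 / 2 : ℝ) ^ n := pow_le_pow_left₀ h0 hcon n
  have h3 : (1 / 2 : ℝ) ^ n ≤ (1 / 2 : ℝ) ^ 2 :=
    pow_le_pow_of_le_one (by norm_num) (by norm_num) c.hn
  norm_num at h3
  linarith

/-- Both overlaps exceed `1 / 2` and lie in `I y`, of weight at most `1`, so they intersect. -/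
theorem trans_top (c : Cfg V Y n k) {y y' y'' : Y} (hy : 1 - c.ε < c.a y)
    (hy' : 1 - c.ε < c.a y') (hy'' : 1 - c.ε < c.a y'') (h' : (c.I y' ∩ c.I y).Nonempty)
    (h'' : (c.I y ∩ c.I y'').Nonempty) : (c.I y' ∩ c.I y'').Nonempty := by
  by_contra hcon
  rw [Finset.not_nonempty_iff_eq_empty] at hcon
  have h1 := overlap_gt c hy' hy h'
  have h2 := overlap_gt c hy hy'' h''
  have hd : Disjoint (c.I y' ∩ c.I y) (c.I y ∩ c.I y'') := by
    rw [Finset.disjoint_left]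
    intro v hv1 hv2
    have hm : v ∈ c.I y' ∩ c.I y'' :=
      Finset.mem_inter.2 ⟨(Finset.mem_inter.1 hv1).1, (Finset.mem_inter.1 hv2).2⟩
    rw [hcon] at hm
    exact absurd hm (Finset.notMem_empty v)
  have h3 : wt c.ξ (c.I y' ∩ c.I y) + wt c.ξ (c.I y ∩ c.I y'') ≤ c.a y := by
    unfold Cfg.a wt
    rw [← Finset.sum_union hd]
    apply Finset.sum_le_sum_of_subset_of_nonneg
    · exact Finset.union_subset Finset.inter_subset_right Finset.inter_subset_left
    · intro v _ _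
      exact (c.hξ v).le
  have h4 := a_le_one c y
  linarith

end Pool.Agent.Lib.MP_455133_co.BT
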