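import Mathlib
import Pool.Agent.Lib.MP_455133_co.BT.Top

/-!
Existence of the classes.
-/

namespace Pool.Agent.Lib.MP_455133_co.BT

open Finset
open Pool.Agent.Lib.MP_455133_co.BO (wt lnk)

variable {V Y : Type} [Fintype V] [DecidableEq V] [Fintype Y] {n k : ℕ}

/-- The classes: choose `p v` by `exists_top`; the relation `(I (p u) ∩ I (p v)).Nonempty` is an
equivalence relation on `V` by `trans_top`; number its classes. For `P1`: if `v ∈ I (p u)` then
`v ∈ I (p u) ∩ I (p v)`. -/
theorem exists_cls (c : Cfg V Y n k) : ∃ m : ℕ, Nonempty (Cls c m) := by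
  classical
  choose p hp using fun v => exists_top c v
  let s : Setoid V :=
    { r := fun u v => (c.I (p u) ∩ c.I (p v)).Nonempty
      iseqv :=
        { refl := fun v => ⟨v, Finset.mem_inter.2 ⟨(hp v).1, (hp v).1⟩⟩
          symm := fun {u v} h => by
            rw [Finset.inter_comm]
            exact h
          trans := fun {u v w} h h' => trans_top c (hp v).2 (hp u).2 (hp w).2 h h' } }
  obtain ⟨m, ⟨e⟩⟩ := Finite.exists_equiv_fin (Quotient s)
  refine ⟨m, ⟨{ π := fun v => e (Quotient.mk s v)
                p := p
                hsurj := ?_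
                hp := fun v => (hp v).1
                htop := fun v => (hp v).2
                P1 := ?_
                P2 := ?_ }⟩⟩
  · exact e.surjective.comp Quotient.mk_surjective
  · intro u v hv
    have h : (c.I (p v) ∩ c.I (p u)).Nonempty := ⟨v, Finset.mem_inter.2 ⟨(hp v).1, hv⟩⟩
    have h2 : Quotient.mk s v = Quotient.mk s u := Quotient.sound h
    show e (Quotient.mk s v) = e (Quotient.mk s u)
    rw [h2]
  · intro u v huv
    have h2 : Quotient.mk s u = Quotient.mk s v := e.injective huv
    exact Quotient.exact h2

end Pool.Agent.Lib.MP_455133_co.BT
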