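import Mathlib
import Pool.Agent.Lib.MP_455133_co.BT.ClsE

/-!
Points in sets of several classes have smaller weight.
-/

namespace Pool.Agent.Lib.MP_455133_co.BT

open Finset
open Pool.Agent.Lib.MP_455133_co.BO (wt lnk)

variable {V Y : Type} [Fintype V] [DecidableEq V] [Fintype Y] {n k m : ℕ}

private theorem Multi_wt_nonneg (c : Cfg V Y n k) (S : Finset V) : 0 ≤ wt c.ξ S :=
  Finset.sum_nonneg fun v _ => (c.hξ v).le

private theorem Multi_aux (c : Cfg V Y n k) {o a b : ℝ} (ho : 0 ≤ o) (ha : 0 ≤ a)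
    (h1 : o ≤ a / 2) (h2 : a ^ n + b ≤ 1 + o ^ n) (h3 : 1 - n * c.ε ≤ b) :
    a ^ n ≤ 4 / 3 * (n * c.ε) := by
  have hn : (2 : ℕ) ≤ n := c.hn
  have hn0 : (0 : ℝ) < n := by
    have : (2 : ℝ) ≤ n := by exact_mod_cast hn
    linarith
  have h4 : o ^ n ≤ (a / 2) ^ n := pow_le_pow_left₀ ho h1 n
  have h5 : (a / 2) ^ n ≤ a ^ n / 4 := by
    rw [div_pow]
    have h6 : (4 : ℝ) ≤ 2 ^ n := by
      calc (4 : ℝ) = 2 ^ 2 := by norm_num
        _ ≤ 2 ^ n := pow_le_pow_right₀ (by norm_num) hn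
    exact div_le_div_of_nonneg_left (pow_nonneg ha n) (by norm_num) h6
  have h7 : a ^ n * (3 / 4) ≤ n * c.ε := by linarith
  linarith

/-- Let `u, v ∈ I y` have different classes. By `P1` the sets `I (p u)` and `I (p v)` are
disjoint, so the overlaps `o_u = wt (I y ∩ I (p u))`, `o_v = wt (I y ∩ I (p v))` satisfy
`o_u + o_v ≤ a y`; by `two_box` (with the vertex `u`, resp. `v`) and `top_pow`,
`o_u ^ n ≥ a y ^ n - n ε` and the same for `o_v`. The smaller of the two is at most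
`a y / 2`, hence `a y ^ n / 4 ≥ a y ^ n / 2 ^ n ≥ a y ^ n - n ε`. -/
theorem multi_pow {c : Cfg V Y n k} (d : Cls c m) {y : Y} (hy : d.Multi y) :
    c.a y ^ n ≤ 4 / 3 * (n * c.ε) := by
  obtain ⟨u, hu, v, hv, huv⟩ := hy
  have hdis : Disjoint (c.I y ∩ c.I (d.p u)) (c.I y ∩ c.I (d.p v)) := by
    rw [Finset.disjoint_left]
    intro w hw hw'
    have h1 := d.P1 u w (Finset.mem_inter.1 hw).2
    have h2 := d.P1 v w (Finset.mem_inter.1 hw').2
    exact huv (h1.symm.trans h2)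
  have hsum : wt c.ξ (c.I y ∩ c.I (d.p u)) + wt c.ξ (c.I y ∩ c.I (d.p v)) ≤ c.a y := by
    unfold Cfg.a wt
    rw [← Finset.sum_union hdis]
    apply Finset.sum_le_sum_of_subset_of_nonneg
    · intro w hw
      rcases Finset.mem_union.1 hw with h | h
      · exact (Finset.mem_inter.1 h).1
      · exact (Finset.mem_inter.1 h).1
    · intro w _ _
      exact (c.hξ w).le
  have hou := Multi_wt_nonneg c (c.I y ∩ c.I (d.p u))
  have hov := Multi_wt_nonneg c (c.I y ∩ c.I (d.p v))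
  have ha := a_nonneg c y
  have hbu := two_box c hu (d.hp u)
  have hbv := two_box c hv (d.hp v)
  have htu := top_pow c (d.htop u)
  have htv := top_pow c (d.htop v)
  rcases le_total (wt c.ξ (c.I y ∩ c.I (d.p u))) (c.a y / 2) with h | h
  · exact Multi_aux c hou ha h hbu htu
  · exact Multi_aux c hov ha (by linarith) hbv htv

/-- `(a (1 + 4 / (5 n))) ^ n ≤ (1 / 3) * exp (4 / 5) < 1`. -/
theorem multi_mul {c : Cfg V Y n k} (d : Cls c m) {y : Y} (hy : d.Multi y) :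
    c.a y * (1 + 4 / (5 * n)) ≤ 1 := by
  have hn : (2 : ℕ) ≤ n := c.hn
  have hn2 : (2 : ℝ) ≤ n := by exact_mod_cast hn
  have hn0 : (0 : ℝ) < n := by linarith
  have ha := a_nonneg c y
  have hp := multi_pow d hy
  by_contra hcon
  push Not at hcon
  have h1 : 1 < (c.a y * (1 + 4 / (5 * (n : ℝ)))) ^ n := one_lt_pow₀ hcon (by omega)
  rw [mul_pow] at h1
  have h2 : (1 + 4 / (5 * (n : ℝ))) ^ n ≤ Real.exp (4 / 5) := by
    have h3 : (1 + 4 / (5 * (n : ℝ))) ≤ Real.exp (4 / (5 * (n : ℝ))) := by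
      have := Real.add_one_le_exp (4 / (5 * (n : ℝ)))
      linarith
    have h4 : (0 : ℝ) ≤ 1 + 4 / (5 * (n : ℝ)) := by positivity
    calc (1 + 4 / (5 * (n : ℝ))) ^ n ≤ (Real.exp (4 / (5 * (n : ℝ)))) ^ n :=
          pow_le_pow_left₀ h4 h3 n
      _ = Real.exp (4 / 5) := by
          rw [← Real.exp_nat_mul]
          congr 1
          field_simp
  have h5 : Real.exp (4 / 5) < 3 := by
    have h6 : Real.exp (4 / 5) ≤ Real.exp 1 := Real.exp_le_exp.2 (by norm_num)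
    have h7 := Real.exp_one_lt_d9
    linarith
  have h8 : c.a y ^ n ≤ 1 / 3 := by
    have h81 := c.hε
    linarith
  have h9 : (0 : ℝ) ≤ c.a y ^ n := pow_nonneg ha n
  have h10 : c.a y ^ n * (1 + 4 / (5 * (n : ℝ))) ^ n ≤ 1 / 3 * 3 := by
    apply mul_le_mul h8 (h2.trans h5.le) (by positivity) (by norm_num)
  linarith

/-- Reformulation of `multi_mul`. -/
theorem multi_def {c : Cfg V Y n k} (d : Cls c m) {y : Y} (hy : d.Multi y) :
    4 / (5 * n + 4) ≤ 1 - c.a y := by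
  have hn : (2 : ℕ) ≤ n := c.hn
  have hn2 : (2 : ℝ) ≤ n := by exact_mod_cast hn
  have hn0 : (0 : ℝ) < n := by linarith
  have h := multi_mul d hy
  have h1 : c.a y * (1 + 4 / (5 * (n : ℝ))) = c.a y * (5 * n + 4) / (5 * n) := by
    field_simp
  rw [h1, div_le_one (by positivity)] at h
  rw [div_le_iff₀ (by positivity)]
  nlinarith

/-- `(1 - ε) ^ n ≥ 3 / 4 > 1 / 3 ≥ a ^ n`. -/
theorem multi_lt {c : Cfg V Y n k} (d : Cls c m) {y : Y} (hy : d.Multi y) :
    c.a y < 1 - c.ε := by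
  have hn : (2 : ℕ) ≤ n := c.hn
  have hn2 : (2 : ℝ) ≤ n := by exact_mod_cast hn
  have hn0 : (0 : ℝ) < n := by linarith
  have h := multi_def d hy
  have h1 : c.ε < 4 / (5 * n + 4) := by
    rw [lt_div_iff₀ (by positivity)]
    have h2 := c.hε
    have h3 := eps_le c
    nlinarith
  linarith

private theorem exp_seven_quarters : Real.exp (7 / 4) < 6 := by
  have h1 : Real.exp (7 / 4) = Real.exp (1 / 4) ^ 7 := by
    rw [← Real.exp_nat_mul]
    norm_num
  have h2 : Real.exp 1 = Real.exp (1 / 4) ^ 4 := by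
    rw [← Real.exp_nat_mul]
    norm_num
  have h3 := Real.exp_one_lt_d9
  rw [h2] at h3
  have h0 : 0 < Real.exp (1 / 4) := Real.exp_pos _
  have h4 : Real.exp (1 / 4) < 1.285 := by
    by_contra h
    push Not at h
    have h5 : (1.285 : ℝ) ^ 4 ≤ Real.exp (1 / 4) ^ 4 := pow_le_pow_left₀ (by norm_num) h 4
    norm_num at h5
    norm_num at h3
    linarith
  rw [h1]
  have h6 : Real.exp (1 / 4) ^ 7 ≤ (1.285 : ℝ) ^ 7 := pow_le_pow_left₀ h0.le h4.le 7
  refine lt_of_le_of_lt h6 ?_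
  norm_num

/-- If `n ε ≤ 1 / 8`: `(a (1 + 7 / (4 n))) ^ n ≤ (1 / 6) * exp (7 / 4) < 1`. -/
theorem multi_mul8 {c : Cfg V Y n k} (h8 : n * c.ε ≤ 1 / 8) (d : Cls c m) {y : Y}
    (hy : d.Multi y) : c.a y * (1 + 7 / (4 * n)) ≤ 1 := by
  have hn : (2 : ℕ) ≤ n := c.hn
  have hn2 : (2 : ℝ) ≤ n := by exact_mod_cast hn
  have hn0 : (0 : ℝ) < n := by linarith
  have ha := a_nonneg c y
  have hp := multi_pow d hy
  by_contra hcon
  push Not at hcon
  have h1 : 1 < (c.a y * (1 + 7 / (4 * (n : ℝ)))) ^ n := one_lt_pow₀ hcon (by omega)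
  rw [mul_pow] at h1
  have h2 : (1 + 7 / (4 * (n : ℝ))) ^ n ≤ Real.exp (7 / 4) := by
    have h3 : (1 + 7 / (4 * (n : ℝ))) ≤ Real.exp (7 / (4 * (n : ℝ))) := by
      have := Real.add_one_le_exp (7 / (4 * (n : ℝ)))
      linarith
    have h4 : (0 : ℝ) ≤ 1 + 7 / (4 * (n : ℝ)) := by positivity
    calc (1 + 7 / (4 * (n : ℝ))) ^ n ≤ (Real.exp (7 / (4 * (n : ℝ)))) ^ n :=
          pow_le_pow_left₀ h4 h3 n
      _ = Real.exp (7 / 4) := by
          rw [← Real.exp_nat_mul]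
          congr 1
          field_simp
  have h5 := exp_seven_quarters
  have h8' : c.a y ^ n ≤ 1 / 6 := by linarith
  have h10 : c.a y ^ n * (1 + 7 / (4 * (n : ℝ))) ^ n ≤ 1 / 6 * 6 := by
    apply mul_le_mul h8' (h2.trans h5.le) (by positivity) (by norm_num)
  linarith

/-- Reformulation of `multi_mul8`. -/
theorem multi_def8 {c : Cfg V Y n k} (h8 : n * c.ε ≤ 1 / 8) (d : Cls c m) {y : Y}
    (hy : d.Multi y) : 7 / (4 * n + 7) ≤ 1 - c.a y := by
  have hn : (2 : ℕ) ≤ n := c.hn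
  have hn2 : (2 : ℝ) ≤ n := by exact_mod_cast hn
  have hn0 : (0 : ℝ) < n := by linarith
  have h := multi_mul8 h8 d hy
  have h1 : c.a y * (1 + 7 / (4 * (n : ℝ))) = c.a y * (4 * n + 7) / (4 * n) := by
    field_simp
  rw [h1, div_le_one (by positivity)] at h
  rw [div_le_iff₀ (by positivity)]
  nlinarith

end Pool.Agent.Lib.MP_455133_co.BT
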