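import Mathlib
import Pool.Agent.Lib.MP_455133_co.BT.Multi

/-!
The number of classes is at most `k`.
-/

namespace Pool.Agent.Lib.MP_455133_co.BT

open Finset
open Pool.Agent.Lib.MP_455133_co.BO (wt lnk)

variable {V Y : Type} [Fintype V] [DecidableEq V] [Fintype Y] {n k m : ℕ}

theorem tw_nonneg {c : Cfg V Y n k} (d : Cls c m) (q : Fin m) (y : Y) : 0 ≤ d.tw q y := by
  unfold Cls.tw
  exact Finset.sum_nonneg fun v _ => (c.hξ v).le

theorem tw_le_cw {c : Cfg V Y n k} (d : Cls c m) (q : Fin m) (y : Y) : d.tw q y ≤ d.cw q := by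
  unfold Cls.tw Cls.cw
  refine Finset.sum_le_sum_of_subset_of_nonneg ?_ fun v _ _ => (c.hξ v).le
  exact Finset.filter_subset_filter _ (Finset.subset_univ _)

theorem sum_tw {c : Cfg V Y n k} (d : Cls c m) (y : Y) : ∑ q, d.tw q y = c.a y := by
  unfold Cls.tw Cfg.a wt
  exact Finset.sum_fiberwise (c.I y) d.π c.ξ

theorem sum_cw {c : Cfg V Y n k} (d : Cls c m) : ∑ q, d.cw q = ∑ v, c.ξ v := by
  unfold Cls.cw
  exact Finset.sum_fiberwise Finset.univ d.π c.ξ

/-- The class `q` contains some `u`, hence `I (p u)` by `P1`. -/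
theorem cw_gt {c : Cfg V Y n k} (d : Cls c m) (q : Fin m) : 1 - c.ε < d.cw q := by
  obtain ⟨u, hu⟩ := d.hsurj q
  refine lt_of_lt_of_le (d.htop u) ?_
  unfold Cls.cw Cfg.a wt
  refine Finset.sum_le_sum_of_subset_of_nonneg ?_ fun v _ _ => (c.hξ v).le
  intro v hv
  rw [Finset.mem_filter]
  exact ⟨Finset.mem_univ v, (d.P1 u v hv).trans hu⟩

private theorem count_eps (c : Cfg V Y n k) : 0 < c.ε ∧ c.ε ≤ 1 / 8 :=
  ⟨c.hε0, eps_le c⟩

private theorem count_pos {c : Cfg V Y n k} (d : Cls c m) (q : Fin m) : 0 < d.cw q := by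
  have h1 := cw_gt d q
  have h2 := count_eps c
  linarith [h2.2]

/-- If `y` is not `Multi`, at most one class meets `I y` and its term is at most `1`. -/
theorem tau_single {c : Cfg V Y n k} (d : Cls c m) {y : Y} (hy : ¬ d.Multi y) :
    ∑ q, d.tw q y / d.cw q ≤ 1 := by
  have hy' : ∀ u ∈ c.I y, ∀ v ∈ c.I y, d.π u = d.π v := by
    intro u hu v hv
    by_contra h
    exact hy ⟨u, hu, v, hv, h⟩
  rcases (c.I y).eq_empty_or_nonempty with he | ⟨u, hu⟩
  · have h0 : ∀ q, d.tw q y = 0 := by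
      intro q
      unfold Cls.tw
      rw [he]
      simp
    simp [h0]
  · have h0 : ∀ q, q ≠ d.π u → d.tw q y = 0 := by
      intro q hq
      unfold Cls.tw
      refine Finset.sum_eq_zero fun v hv => ?_
      rw [Finset.mem_filter] at hv
      exact absurd (hv.2.symm.trans (hy' v hv.1 u hu)) hq
    rw [Finset.sum_eq_single (d.π u)]
    · exact (div_le_one (count_pos d _)).2 (tw_le_cw d _ y)
    · intro q _ hq
      rw [h0 q hq, zero_div]
    · intro h
      exact absurd (Finset.mem_univ _) h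

/-- If `y` is `Multi`: every `cw q > 1 - ε > 0`, so the sum is at most `a y / (1 - ε)`. -/
theorem tau_multi {c : Cfg V Y n k} (d : Cls c m) (y : Y) :
    ∑ q, d.tw q y / d.cw q ≤ c.a y / (1 - c.ε) := by
  have h2 := count_eps c
  have hpos : 0 < 1 - c.ε := by linarith [h2.2]
  rw [← sum_tw d y, Finset.sum_div]
  refine Finset.sum_le_sum fun q _ => ?_
  exact div_le_div_of_nonneg_left (tw_nonneg d q y) hpos (cw_gt d q).le

/-- From `tau_single`, `tau_multi` and `multi_lt`. -/
theorem tau_le_one {c : Cfg V Y n k} (d : Cls c m) (y : Y) :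
    ∑ q, d.tw q y / d.cw q ≤ 1 := by
  by_cases hy : d.Multi y
  · have h2 := count_eps c
    have hpos : 0 < 1 - c.ε := by linarith [h2.2]
    refine (tau_multi d y).trans ?_
    exact (div_le_one hpos).2 (multi_lt d hy).le
  · exact tau_single d hy

/-- `∑ y, μ y * tw q y = ∑ v in class q, ξ v * μ(S_v) ≥ cw q` by `hcov`. -/
theorem class_cover {c : Cfg V Y n k} (d : Cls c m) (q : Fin m) :
    1 ≤ ∑ y, c.μ y * (d.tw q y / d.cw q) := by
  have hpos := count_pos d q
  have h1 : ∑ y, c.μ y * (d.tw q y / d.cw q) = (∑ y, c.μ y * d.tw q y) / d.cw q := by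
    rw [Finset.sum_div]
    exact Finset.sum_congr rfl fun y _ => by ring
  rw [h1, le_div_iff₀ hpos, one_mul]
  have h2 : ∑ y, c.μ y * d.tw q y
      = ∑ v ∈ univ.filter (fun v => d.π v = q), c.ξ v * ∑ y ∈ univ.filter (fun y => v ∈ c.I y), c.μ y := by
    unfold Cls.tw
    have e1 : ∀ y, c.μ y * ∑ v ∈ (c.I y).filter (fun v => d.π v = q), c.ξ v
        = ∑ v ∈ univ.filter (fun v => d.π v = q), if v ∈ c.I y then c.μ y * c.ξ v else 0 := by
      intro y
      rw [Finset.mul_sum, ← Finset.sum_filter]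
      refine Finset.sum_congr ?_ fun _ _ => rfl
      ext v
      simp only [Finset.mem_filter, Finset.mem_univ, true_and]
      tauto
    rw [Finset.sum_congr rfl fun y _ => e1 y, Finset.sum_comm]
    refine Finset.sum_congr rfl fun v _ => ?_
    rw [Finset.mul_sum, Finset.sum_filter]
    refine Finset.sum_congr rfl fun y _ => ?_
    split_ifs
    · ring
    · rfl
  rw [h2]
  unfold Cls.cw
  refine Finset.sum_le_sum fun v _ => ?_
  have h3 := mul_le_mul_of_nonneg_left (c.hcov v) (c.hξ v).le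
  rwa [mul_one] at h3

/-- Sum `class_cover` over `q` and use `tau_le_one`: `m ≤ ∑ μ y < k + 1 / 8`. -/
theorem count_le {c : Cfg V Y n k} (d : Cls c m) : m ≤ k := by
  have h1 : (m : ℝ) ≤ ∑ q : Fin m, ∑ y, c.μ y * (d.tw q y / d.cw q) := by
    have h := Finset.sum_le_sum (s := (Finset.univ : Finset (Fin m)))
      (f := fun _ => (1 : ℝ)) (g := fun q => ∑ y, c.μ y * (d.tw q y / d.cw q))
      (fun q _ => class_cover d q)
    simpa using h
  rw [Finset.sum_comm] at h1
  have h2 : ∑ y, ∑ q : Fin m, c.μ y * (d.tw q y / d.cw q) ≤ ∑ y, c.μ y := by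
    refine Finset.sum_le_sum fun y _ => ?_
    rw [← Finset.mul_sum]
    have h3 := mul_le_mul_of_nonneg_left (tau_le_one d y) (c.hμ y)
    rwa [mul_one] at h3
  have h4 := c.hz
  have h5 := (count_eps c).2
  have h6 : (m : ℝ) < (k : ℝ) + 1 := by linarith
  have h7 : m < k + 1 := by exact_mod_cast h6
  omega

end Pool.Agent.Lib.MP_455133_co.BT
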