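import Mathlib
import Pool.Agent.Lib.MP_455133_co.BT.Count

/-!
The weight of a class.
-/

namespace Pool.Agent.Lib.MP_455133_co.BT

open Finset
open Pool.Agent.Lib.MP_455133_co.BO (wt lnk)

variable {V Y : Type} [Fintype V] [DecidableEq V] [Fintype Y] {n k m : ℕ}

/-- Let `y` be a top point with `I y` nonempty and inside the class `q`. Put
`W = {v in class q, v ∉ I y}` and `J v = I (p v) ∩ I y`. For `v ∈ W` pick `w ∈ I y`; then `w` has
class `q`, so `I (p w) ∩ I (p v)` is nonempty by `P2`, `w ∈ I (p w) ∩ I y`, hence `J v` is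
nonempty by `trans_top` and `wt (J v) ^ n ≥ 1 / 2` by `overlap_pow`.
For `u ∈ I y` apply `side_box` with `{v ∈ W, u ∈ I (p v)}` and `p`:
`a y ^ n + n ∑_{v ∈ W, u ∈ I (p v)} ξ v * wt (J v) ^ (n-1) ≤ 1`, and `a y ^ n ≥ 1 - n (1 - a y)`
(Bernoulli) gives `∑_{v ∈ W, u ∈ I (p v)} ξ v * wt (J v) ^ (n-1) ≤ 1 - a y`.
Multiply by `ξ u`, sum over `u ∈ I y` and exchange the sums:
`∑_{v ∈ W} ξ v * wt (J v) ^ n ≤ a y * (1 - a y) ≤ 1 - a y`, so `wt W ≤ 2 (1 - a y)` and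
`cw q = a y + wt W`. -/
theorem cw_le_of_top {c : Cfg V Y n k} (d : Cls c m) (q : Fin m) {y : Y}
    (hy : 1 - c.ε < c.a y) (hne : (c.I y).Nonempty) (hq : ∀ v ∈ c.I y, d.π v = q) :
    d.cw q ≤ 1 + (1 - c.a y) := by
  classical
  have hn := c.hn
  have hnR : (0 : ℝ) < (n : ℝ) := by
    have : 0 < n := by omega
    exact_mod_cast this
  have ha0 := a_nonneg c y
  have ha1 := a_le_one c y
  set W : Finset V := univ.filter (fun v => d.π v = q ∧ v ∉ c.I y) with hW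
  obtain ⟨w, hw⟩ := hne
  have hJ : ∀ v ∈ W, 1 / 2 ≤ wt c.ξ (c.I (d.p v) ∩ c.I y) ^ n := by
    intro v hv
    rw [hW, mem_filter] at hv
    apply overlap_pow c (d.htop v) hy
    have h1 : (c.I (d.p v) ∩ c.I (d.p w)).Nonempty :=
      d.P2 v w (by rw [hv.2.1, hq w hw])
    have h2 : (c.I (d.p w) ∩ c.I y).Nonempty := ⟨w, mem_inter.2 ⟨d.hp w, hw⟩⟩
    exact trans_top c (d.htop w) (d.htop v) hy h1 h2
  have hS : ∀ u ∈ c.I y, ∑ v ∈ W.filter (fun v => u ∈ c.I (d.p v)),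
      c.ξ v * wt c.ξ (c.I (d.p v) ∩ c.I y) ^ (n - 1) ≤ 1 - c.a y := by
    intro u hu
    have h1 := side_box c hu (W.filter (fun v => u ∈ c.I (d.p v))) d.p (by
      intro v hv
      rw [mem_filter, hW, mem_filter] at hv
      exact ⟨hv.1.2.2, d.hp v, hv.2⟩)
    have h2 : 1 + (n : ℝ) * (c.a y - 1) ≤ (1 + (c.a y - 1)) ^ n :=
      one_add_mul_le_pow (by linarith) n
    have h3 : 1 + (c.a y - 1) = c.a y := by ring
    rw [h3] at h2
    have h4 : (n : ℝ) * (∑ v ∈ W.filter (fun v => u ∈ c.I (d.p v)),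
      c.ξ v * wt c.ξ (c.I (d.p v) ∩ c.I y) ^ (n - 1)) ≤ (n : ℝ) * (1 - c.a y) := by
      nlinarith
    exact le_of_mul_le_mul_left h4 hnR
  have hsum : ∑ u ∈ c.I y, c.ξ u * (∑ v ∈ W.filter (fun v => u ∈ c.I (d.p v)),
      c.ξ v * wt c.ξ (c.I (d.p v) ∩ c.I y) ^ (n - 1)) ≤ c.a y * (1 - c.a y) := by
    have h5 : ∑ u ∈ c.I y, c.ξ u * (∑ v ∈ W.filter (fun v => u ∈ c.I (d.p v)),
      c.ξ v * wt c.ξ (c.I (d.p v) ∩ c.I y) ^ (n - 1)) ≤ ∑ u ∈ c.I y, c.ξ u * (1 - c.a y) := by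
      apply sum_le_sum
      intro u hu
      exact mul_le_mul_of_nonneg_left (hS u hu) (c.hξ u).le
    rw [← sum_mul] at h5
    exact h5
  have hex : ∑ u ∈ c.I y, c.ξ u * (∑ v ∈ W.filter (fun v => u ∈ c.I (d.p v)),
      c.ξ v * wt c.ξ (c.I (d.p v) ∩ c.I y) ^ (n - 1)) =
      ∑ v ∈ W, c.ξ v * wt c.ξ (c.I (d.p v) ∩ c.I y) ^ n := by
    have h6 : ∀ u ∈ c.I y, c.ξ u * (∑ v ∈ W.filter (fun v => u ∈ c.I (d.p v)),
      c.ξ v * wt c.ξ (c.I (d.p v) ∩ c.I y) ^ (n - 1)) =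
        ∑ v ∈ W, (if u ∈ c.I (d.p v) then
          c.ξ u * (c.ξ v * wt c.ξ (c.I (d.p v) ∩ c.I y) ^ (n - 1)) else 0) := by
      intro u _
      rw [mul_sum, sum_filter]
    rw [sum_congr rfl h6, sum_comm]
    apply sum_congr rfl
    intro v _
    rw [← sum_filter, ← sum_mul]
    have h7 : (c.I y).filter (fun u => u ∈ c.I (d.p v)) = c.I (d.p v) ∩ c.I y := by
      ext u
      simp only [mem_filter, mem_inter]
      tauto
    rw [h7]
    have h8 : wt c.ξ (c.I (d.p v) ∩ c.I y) ^ n =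
        wt c.ξ (c.I (d.p v) ∩ c.I y) * wt c.ξ (c.I (d.p v) ∩ c.I y) ^ (n - 1) := by
      rw [← pow_succ']
      congr 1
      omega
    rw [h8]
    unfold wt
    ring
  have hhalf : (1 / 2) * ∑ v ∈ W, c.ξ v ≤
      ∑ v ∈ W, c.ξ v * wt c.ξ (c.I (d.p v) ∩ c.I y) ^ n := by
    rw [mul_sum]
    apply sum_le_sum
    intro v hv
    have := mul_le_mul_of_nonneg_left (hJ v hv) (c.hξ v).le
    linarith
  have hcw : d.cw q = c.a y + ∑ v ∈ W, c.ξ v := by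
    unfold Cls.cw
    have h9 := sum_filter_add_sum_filter_not (univ.filter (fun v => d.π v = q))
      (fun v => v ∈ c.I y) c.ξ
    rw [← h9]
    congr 1
    · unfold Cfg.a wt
      apply sum_congr _ (fun _ _ => rfl)
      ext v
      simp only [mem_filter, mem_univ, true_and]
      exact ⟨fun h => h.2, fun h => ⟨hq v h, h⟩⟩
    · apply sum_congr _ (fun _ _ => rfl)
      rw [hW]
      ext v
      simp only [mem_filter, mem_univ, true_and]
  rw [hcw]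
  rw [hex] at hsum
  nlinarith

end Pool.Agent.Lib.MP_455133_co.BT
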