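import Mathlib
import Pool.Agent.Lib.MP_455133_co.BT.HeavyA

/-!
The number of classes is at least `k`.
-/

namespace Pool.Agent.Lib.MP_455133_co.BT

open Finset
open Pool.Agent.Lib.MP_455133_co.BO (wt lnk)

variable {V Y : Type} [Fintype V] [DecidableEq V] [Fintype Y] {n k m : ℕ}

/-- Choose for every class `q` a point `y` with `I y` nonempty, inside the class and `a y`
maximal (`p u` for `u` in the class is a candidate), and `α q = a y`. -/
theorem exists_alpha {c : Cfg V Y n k} (d : Cls c m) : ∃ α : Fin m → ℝ,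
    (∀ q, d.cw q ≤ 1 + (1 - α q)) ∧ (∀ q, α q ≤ 1) ∧
    ∀ q y, (c.I y).Nonempty → (∀ v ∈ c.I y, d.π v = q) → c.a y ≤ α q := by
  classical
  have key : ∀ q : Fin m, ∃ y : Y, (c.I y).Nonempty ∧ (∀ v ∈ c.I y, d.π v = q) ∧
      1 - c.ε < c.a y ∧
      ∀ y', (c.I y').Nonempty → (∀ v ∈ c.I y', d.π v = q) → c.a y' ≤ c.a y := by
    intro q
    obtain ⟨u, hu⟩ := d.hsurj q
    have hmem : d.p u ∈ univ.filter (fun y => (c.I y).Nonempty ∧ ∀ v ∈ c.I y, d.π v = q) := by
      rw [mem_filter]
      exact ⟨mem_univ _, ⟨u, d.hp u⟩, fun v hv => (d.P1 u v hv).trans hu⟩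
    obtain ⟨y, hy, hmax⟩ := Finset.exists_max_image
      (univ.filter (fun y => (c.I y).Nonempty ∧ ∀ v ∈ c.I y, d.π v = q)) c.a ⟨_, hmem⟩
    rw [mem_filter] at hy
    refine ⟨y, hy.2.1, hy.2.2, lt_of_lt_of_le (d.htop u) (hmax _ hmem), fun y' h1 h2 => ?_⟩
    exact hmax y' (mem_filter.2 ⟨mem_univ _, h1, h2⟩)
  choose f h1 h2 h3 h4 using key
  exact ⟨fun q => c.a (f q), fun q => cw_le_of_top d q (h3 q) (h1 q) (h2 q),
    fun q => a_le_one c (f q), h4⟩

/-- Take `v` of class `q`. The `Multi` points `y` with `v ∈ I y` have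
`1 - a y ≥ 4 / (5 n + 4)`, so by `deficit` their `μ`-weight is less than
`ε (5 n + 4) / 4 ≤ 5 / 16 + 1 / 8 = 7 / 16`; the other points with `v ∈ I y` are counted on
the left-hand side, and `hcov`. -/
theorem single_weight {c : Cfg V Y n k} (d : Cls c m) (q : Fin m)
    [DecidablePred fun y => (c.I y).Nonempty ∧ ∀ v ∈ c.I y, d.π v = q] :
    9 / 16 ≤ ∑ y ∈ univ.filter (fun y => (c.I y).Nonempty ∧ ∀ v ∈ c.I y, d.π v = q), c.μ y := by
  classical
  obtain ⟨v, hv⟩ := d.hsurj q
  have hn2 : (2 : ℝ) ≤ n := by exact_mod_cast c.hn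
  have hcov := c.hcov v
  rw [← Finset.sum_filter_add_sum_filter_not (univ.filter (fun y => v ∈ c.I y))
    (fun y => d.Multi y)] at hcov
  have h1 : ∑ y ∈ (univ.filter (fun y => v ∈ c.I y)).filter (fun y => ¬ d.Multi y), c.μ y ≤
      ∑ y ∈ univ.filter (fun y => (c.I y).Nonempty ∧ ∀ v ∈ c.I y, d.π v = q), c.μ y := by
    apply Finset.sum_le_sum_of_subset_of_nonneg
    · intro y hy
      rw [mem_filter, mem_filter] at hy
      rw [mem_filter]
      refine ⟨mem_univ _, ⟨v, hy.1.2⟩, fun u hu => ?_⟩
      by_contra hcon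
      apply hy.2
      exact ⟨u, hu, v, hy.1.2, by rw [hv]; exact hcon⟩
    · intro y _ _
      exact c.hμ y
  have h2 : 4 / (5 * (n : ℝ) + 4) *
      ∑ y ∈ (univ.filter (fun y => v ∈ c.I y)).filter (fun y => d.Multi y), c.μ y < c.ε := by
    refine lt_of_le_of_lt ?_ (deficit c)
    rw [Finset.mul_sum]
    calc ∑ y ∈ (univ.filter (fun y => v ∈ c.I y)).filter (fun y => d.Multi y),
          4 / (5 * (n : ℝ) + 4) * c.μ y
        ≤ ∑ y ∈ (univ.filter (fun y => v ∈ c.I y)).filter (fun y => d.Multi y),
          c.μ y * (1 - c.a y) := by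
          apply Finset.sum_le_sum
          intro y hy
          rw [mem_filter] at hy
          rw [mul_comm]
          exact mul_le_mul_of_nonneg_left (multi_def d hy.2) (c.hμ y)
      _ ≤ ∑ y, c.μ y * (1 - c.a y) := by
          apply Finset.sum_le_sum_of_subset_of_nonneg (Finset.subset_univ _)
          intro y _ _
          exact mul_nonneg (c.hμ y) (by linarith [a_le_one c y])
  have h4 : ∑ y ∈ (univ.filter (fun y => v ∈ c.I y)).filter (fun y => d.Multi y), c.μ y ≤
      7 / 16 := by
    set s := ∑ y ∈ (univ.filter (fun y => v ∈ c.I y)).filter (fun y => d.Multi y), c.μ y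
    have h5 : s < (5 * (n : ℝ) + 4) / 4 * c.ε := by
      have h6 : 4 / (5 * (n : ℝ) + 4) * s * ((5 * (n : ℝ) + 4) / 4) = s := by
        field_simp
      have h7 := mul_lt_mul_of_pos_right h2 (show (0 : ℝ) < (5 * (n : ℝ) + 4) / 4 by positivity)
      rw [h6] at h7
      linarith
    have h8 : (5 * (n : ℝ) + 4) / 4 * c.ε ≤ 7 / 16 := by
      have h81 := c.hε
      have h82 := eps_le c
      linarith
    linarith
  linarith

/-- With `α` from `exists_alpha`: `∑_q (1 - α q) * 9 / 16 ≤ ∑_y μ y (1 - a y) < ε ≤ 1 / 8` (the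
sets of points in `single_weight` are disjoint for different `q`), so `∑_q (1 - α q) < 2 / 9` and
`k < ∑ ξ v = ∑_q cw q < m + 2 / 9`. -/
theorem count_ge {c : Cfg V Y n k} (d : Cls c m) : k ≤ m := by
  classical
  obtain ⟨α, h1, h2, h3⟩ := exists_alpha d
  have h4 : ∑ q, (1 - α q) * (9 / 16) ≤ ∑ y, c.μ y * (1 - c.a y) := by
    calc ∑ q, (1 - α q) * (9 / 16)
        ≤ ∑ q, ∑ y, (if (c.I y).Nonempty ∧ ∀ v ∈ c.I y, d.π v = q then
            c.μ y * (1 - c.a y) else 0) := by
          apply Finset.sum_le_sum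
          intro q _
          rw [← Finset.sum_filter]
          have h5 := single_weight d q
          calc (1 - α q) * (9 / 16)
              ≤ (1 - α q) * ∑ y ∈ univ.filter
                (fun y => (c.I y).Nonempty ∧ ∀ v ∈ c.I y, d.π v = q), c.μ y :=
                mul_le_mul_of_nonneg_left h5 (by linarith [h2 q])
            _ ≤ ∑ y ∈ univ.filter
                (fun y => (c.I y).Nonempty ∧ ∀ v ∈ c.I y, d.π v = q),
                c.μ y * (1 - c.a y) := by
                rw [Finset.mul_sum]
                apply Finset.sum_le_sum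
                intro y hy
                rw [mem_filter] at hy
                have h6 := h3 q y hy.2.1 hy.2.2
                rw [mul_comm]
                exact mul_le_mul_of_nonneg_left (by linarith) (c.hμ y)
      _ = ∑ y, ∑ q, (if (c.I y).Nonempty ∧ ∀ v ∈ c.I y, d.π v = q then
            c.μ y * (1 - c.a y) else 0) := Finset.sum_comm
      _ ≤ ∑ y, c.μ y * (1 - c.a y) := by
          apply Finset.sum_le_sum
          intro y _
          have h7 : 0 ≤ c.μ y * (1 - c.a y) :=
            mul_nonneg (c.hμ y) (by linarith [a_le_one c y])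
          by_cases hne : (c.I y).Nonempty
          · obtain ⟨v, hv⟩ := hne
            calc ∑ q, (if (c.I y).Nonempty ∧ ∀ v ∈ c.I y, d.π v = q then
                  c.μ y * (1 - c.a y) else 0)
                ≤ ∑ q, (if d.π v = q then c.μ y * (1 - c.a y) else 0) := by
                  apply Finset.sum_le_sum
                  intro q _
                  split_ifs with h8 h9 h9
                  · exact le_refl _
                  · exact absurd (h8.2 v hv) h9
                  · exact h7
                  · exact le_refl _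
              _ = c.μ y * (1 - c.a y) := by simp
          · have h8 : ∀ q : Fin m, (if (c.I y).Nonempty ∧ ∀ v ∈ c.I y, d.π v = q then
                c.μ y * (1 - c.a y) else 0) = 0 := fun q => if_neg (fun h => hne h.1)
            rw [Finset.sum_congr rfl (fun q _ => h8 q), Finset.sum_const_zero]
            exact h7
  have h5 := deficit c
  have h6 := eps_le c
  rw [← Finset.sum_mul] at h4
  have h7 : (k : ℝ) < ∑ v, c.ξ v := c.hL
  rw [← sum_cw d] at h7
  have h8 : ∑ q, d.cw q ≤ ∑ q : Fin m, (1 + (1 - α q)) := Finset.sum_le_sum fun q _ => h1 q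
  rw [Finset.sum_add_distrib, Finset.sum_const, Finset.card_univ, Fintype.card_fin, nsmul_eq_mul,
    mul_one] at h8
  by_contra hcon
  have h9 : m + 1 ≤ k := by omega
  have h10 : (m : ℝ) + 1 ≤ k := by exact_mod_cast h9
  linarith

end Pool.Agent.Lib.MP_455133_co.BT
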