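import Mathlib
import Pool.Agent.Lib.MP_455133_co.BT.Heavy

/-!
Sharper versions of the bounds in `Heavy` for `n ≥ 5`, `n ε ≤ 1 / 8`.
-/

namespace Pool.Agent.Lib.MP_455133_co.BT

open Finset
open Pool.Agent.Lib.MP_455133_co.BO (wt lnk)

variable {V Y : Type} [Fintype V] [DecidableEq V] [Fintype Y] {n k m : ℕ}

/-- Same proof as `single_weight`, with `multi_def8`: the `Multi` points in `I y ∋ v` have total
`μ`-weight less than `ε (4 n + 7) / 7 ≤ 1 / 14 + 1 / 40 ≤ 1 / 10`. -/
theorem single_weight8 {c : Cfg V Y n k} (hn : 5 ≤ n) (h8 : n * c.ε ≤ 1 / 8) (d : Cls c m)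
    (q : Fin m) [DecidablePred fun y => (c.I y).Nonempty ∧ ∀ v ∈ c.I y, d.π v = q] :
    9 / 10 ≤
      ∑ y ∈ univ.filter (fun y => (c.I y).Nonempty ∧ ∀ v ∈ c.I y, d.π v = q), c.μ y := by
  classical
  obtain ⟨v, hv⟩ := d.hsurj q
  have hn5 : (5 : ℝ) ≤ n := by exact_mod_cast hn
  have he0 := c.hε0
  have heps : c.ε ≤ 1 / 40 := by nlinarith
  have hcov := c.hcov v
  rw [← Finset.sum_filter_add_sum_filter_not (univ.filter (fun y => v ∈ c.I y))
    (fun y => d.Multi y)] at hcov
  have h1 : ∑ y ∈ (univ.filter (fun y => v ∈ c.I y)).filter (fun y => ¬ d.Multi y), c.μ y ≤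
      ∑ y ∈ univ.filter (fun y => (c.I y).Nonempty ∧ ∀ v ∈ c.I y, d.π v = q), c.μ y := by
    apply Finset.sum_le_sum_of_subset_of_nonneg
    · intro y hy
      rw [mem_filter, mem_filter] at hy
      rw [mem_filter]
      refine ⟨mem_univ _, ⟨v, hy.1.2⟩, fun u hu => ?_⟩
      by_contra hcon
      apply hy.2
      exact ⟨u, hu, v, hy.1.2, by rw [hv]; exact hcon⟩
    · intro y _ _
      exact c.hμ y
  have h2 : 7 / (4 * (n : ℝ) + 7) *
      ∑ y ∈ (univ.filter (fun y => v ∈ c.I y)).filter (fun y => d.Multi y), c.μ y < c.ε := by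
    refine lt_of_le_of_lt ?_ (deficit c)
    rw [Finset.mul_sum]
    calc ∑ y ∈ (univ.filter (fun y => v ∈ c.I y)).filter (fun y => d.Multi y),
          7 / (4 * (n : ℝ) + 7) * c.μ y
        ≤ ∑ y ∈ (univ.filter (fun y => v ∈ c.I y)).filter (fun y => d.Multi y),
          c.μ y * (1 - c.a y) := by
          apply Finset.sum_le_sum
          intro y hy
          rw [mem_filter] at hy
          rw [mul_comm]
          exact mul_le_mul_of_nonneg_left (multi_def8 h8 d hy.2) (c.hμ y)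
      _ ≤ ∑ y, c.μ y * (1 - c.a y) := by
          apply Finset.sum_le_sum_of_subset_of_nonneg (Finset.subset_univ _)
          intro y _ _
          exact mul_nonneg (c.hμ y) (by linarith [a_le_one c y])
  have h4 : ∑ y ∈ (univ.filter (fun y => v ∈ c.I y)).filter (fun y => d.Multi y), c.μ y ≤
      1 / 10 := by
    set s := ∑ y ∈ (univ.filter (fun y => v ∈ c.I y)).filter (fun y => d.Multi y), c.μ y
    have h5 : s < (4 * (n : ℝ) + 7) / 7 * c.ε := by
      have h6 : 7 / (4 * (n : ℝ) + 7) * s * ((4 * (n : ℝ) + 7) / 7) = s := by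
        field_simp
      have h7 := mul_lt_mul_of_pos_right h2 (show (0 : ℝ) < (4 * (n : ℝ) + 7) / 7 by positivity)
      rw [h6] at h7
      linarith
    have h9 : (4 * (n : ℝ) + 7) / 7 * c.ε = (4 * (n * c.ε) + 7 * c.ε) / 7 := by ring
    rw [h9] at h5
    linarith
  linarith

/-- With `α` from `exists_alpha`: `(1 - α q) * 9 / 10 ≤ ∑_y μ y (1 - a y) < ε` (only the points of
`single_weight8` for this `q` are used), so `cw q ≤ 1 + (1 - α q) ≤ 1 + 10 / 9 ε`. -/
theorem cw_le8 {c : Cfg V Y n k} (hn : 5 ≤ n) (h8 : n * c.ε ≤ 1 / 8) (d : Cls c m)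
    (q : Fin m) : d.cw q ≤ 1 + 10 / 9 * c.ε := by
  classical
  obtain ⟨α, h1, h2, h3⟩ := exists_alpha d
  have h5 := single_weight8 hn h8 d q
  have h4 : (1 - α q) * (9 / 10) ≤ ∑ y, c.μ y * (1 - c.a y) := by
    calc (1 - α q) * (9 / 10)
        ≤ (1 - α q) * ∑ y ∈ univ.filter
          (fun y => (c.I y).Nonempty ∧ ∀ v ∈ c.I y, d.π v = q), c.μ y :=
          mul_le_mul_of_nonneg_left h5 (by linarith [h2 q])
      _ ≤ ∑ y ∈ univ.filter
          (fun y => (c.I y).Nonempty ∧ ∀ v ∈ c.I y, d.π v = q),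
          c.μ y * (1 - c.a y) := by
          rw [Finset.mul_sum]
          apply Finset.sum_le_sum
          intro y hy
          rw [mem_filter] at hy
          have h6 := h3 q y hy.2.1 hy.2.2
          rw [mul_comm]
          exact mul_le_mul_of_nonneg_left (by linarith) (c.hμ y)
      _ ≤ ∑ y, c.μ y * (1 - c.a y) := by
          apply Finset.sum_le_sum_of_subset_of_nonneg (Finset.subset_univ _)
          intro y _ _
          exact mul_nonneg (c.hμ y) (by linarith [a_le_one c y])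
  have h6 := deficit c
  have h7 := h1 q
  linarith

end Pool.Agent.Lib.MP_455133_co.BT
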