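import Mathlib
import Pool.Agent.Lib.MP_455133_co.BT.Heavy8

/-!
The region of a class.
-/

namespace Pool.Agent.Lib.MP_455133_co.BT

open Finset
open Pool.Agent.Lib.MP_455133_co.BO (wt lnk)

variable {V Y : Type} [Fintype V] [DecidableEq V] [Fintype Y] {n k m : ℕ}

open Classical in
/-- The points whose set has at least half of its `n`-tuples in the class `q`. -/
noncomputable def Cls.X {c : Cfg V Y n k} (d : Cls c m) (q : Fin m) : Finset Y :=
  univ.filter fun y => (c.I y).Nonempty ∧ c.a y ^ n ≤ 2 * d.tw q y ^ n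

theorem mem_X {c : Cfg V Y n k} (d : Cls c m) (q : Fin m) (y : Y) :
    y ∈ d.X q ↔ (c.I y).Nonempty ∧ c.a y ^ n ≤ 2 * d.tw q y ^ n := by
  classical
  simp [Cls.X]

theorem a_pos {c : Cfg V Y n k} {y : Y} (h : (c.I y).Nonempty) : 0 < c.a y := by
  obtain ⟨v, hv⟩ := h
  unfold Cfg.a wt
  exact Finset.sum_pos (fun w _ => c.hξ w) ⟨v, hv⟩

/-- If `I y` is nonempty and inside the class `q` then `tw q y = a y` and `y ∈ X q`. -/
theorem mem_X_of_single {c : Cfg V Y n k} (d : Cls c m) (q : Fin m) {y : Y}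
    (h : (c.I y).Nonempty) (hq : ∀ v ∈ c.I y, d.π v = q) : y ∈ d.X q := by
  have h1 : d.tw q y = c.a y := by
    unfold Cls.tw Cfg.a wt
    rw [Finset.filter_true_of_mem hq]
  rw [mem_X]
  refine ⟨h, ?_⟩
  rw [h1]
  have h2 : 0 ≤ c.a y ^ n := pow_nonneg (a_nonneg c y) n
  linarith

/-- If `v ∈ I y` has class `q` and `y ∉ X q`, then `y` is `Multi` (otherwise
`mem_X_of_single` applies). -/
theorem multi_of_not_mem {c : Cfg V Y n k} (d : Cls c m) {y : Y} {v : V} (hv : v ∈ c.I y)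
    (hy : y ∉ d.X (d.π v)) : d.Multi y := by
  by_contra hcon
  refine hy (mem_X_of_single d (d.π v) ⟨v, hv⟩ fun w hw => ?_)
  by_contra hne
  exact hcon ⟨w, hw, v, hv, hne⟩

/-- `(1 - 1 / n) ^ n ≤ exp (-1) < 1 / 2`, so `t < a (1 - 1 / n)` is impossible. -/
theorem sub_le_div {n : ℕ} (hn : 2 ≤ n) {a t : ℝ} (h0 : 0 < a) (ht : 0 ≤ t)
    (h : a ^ n ≤ 2 * t ^ n) : a - t ≤ a / n := by
  have hn0 : (0 : ℝ) < n := by
    have : (2 : ℝ) ≤ n := by exact_mod_cast hn
    linarith
  by_contra hcon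
  push Not at hcon
  have h1 : t < a * (1 - 1 / n) := by
    have h11 : a * (1 - 1 / n) = a - a / n := by ring
    rw [h11]
    linarith
  have hn1 : n ≠ 0 := by omega
  have h2 : t ^ n < (a * (1 - 1 / n)) ^ n := pow_lt_pow_left₀ h1 ht hn1
  rw [mul_pow] at h2
  have h3 : (1 - 1 / (n : ℝ)) ^ n ≤ Real.exp (-1) := by
    have h31 : (1 - 1 / (n : ℝ)) ≤ Real.exp (-(1 / (n : ℝ))) := by
      have := Real.add_one_le_exp (-(1 / (n : ℝ)))
      linarith
    have h32 : (0 : ℝ) ≤ 1 - 1 / n := by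
      have h33 : 1 / (n : ℝ) ≤ 1 := by
        rw [div_le_one hn0]
        have : (2 : ℝ) ≤ n := by exact_mod_cast hn
        linarith
      linarith
    calc (1 - 1 / (n : ℝ)) ^ n ≤ (Real.exp (-(1 / (n : ℝ)))) ^ n :=
          pow_le_pow_left₀ h32 h31 n
      _ = Real.exp (-1) := by
          rw [← Real.exp_nat_mul]
          congr 1
          field_simp
  have h4 : Real.exp (-1) < 1 / 2 := by
    rw [Real.exp_neg]
    have h41 := Real.exp_one_gt_d9
    rw [inv_eq_one_div]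
    exact one_div_lt_one_div_of_lt (by norm_num) (by linarith)
  have h5 : 0 < a ^ n := pow_pos h0 n
  have h6 : a ^ n * (1 - 1 / (n : ℝ)) ^ n ≤ a ^ n * (1 / 2) :=
    mul_le_mul_of_nonneg_left (h3.trans h4.le) h5.le
  linarith

/-- The part of `∑ q', tw q' y / cw q'` outside `q`. If `y` is not `Multi`, all of `I y` lies in
one class, which is `q` since `a y > 0` and `a y ^ n ≤ 2 * tw q y ^ n`, and the left-hand side is
`0`. If `y` is `Multi`: the left-hand side is at most `(a y - tw q y) / (1 - ε)` (`cw_gt`,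
`sum_tw`), `a y - tw q y ≤ a y / n` by `sub_le_div`, `a y / n ≤ 4 / 7 (1 - a y)` by `multi_mul8`,
`1 / (1 - ε) ≤ 40 / 39` (as `ε ≤ 1 / (8 n) ≤ 1 / 40`), and `4 / 7 * 40 / 39 ≤ 3 / 5`. -/
theorem rest_le {c : Cfg V Y n k} (hn : 5 ≤ n) (h8 : n * c.ε ≤ 1 / 8) (d : Cls c m)
    (q : Fin m) {y : Y} (hy : y ∈ d.X q) :
    ∑ q' ∈ univ.erase q, d.tw q' y / d.cw q' ≤ 3 / 5 * (1 - c.a y) := by
  have hn0 : (5 : ℝ) ≤ n := by exact_mod_cast hn
  have he0 := c.hε0
  have he : c.ε ≤ 1 / 40 := by nlinarith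
  have ha1 := a_le_one c y
  have hyX := (mem_X d q y).1 hy
  by_cases hm : d.Multi y
  · have hpos : 0 < 1 - c.ε := by linarith
    have h1 : ∑ q' ∈ univ.erase q, d.tw q' y / d.cw q' ≤ (c.a y - d.tw q y) / (1 - c.ε) := by
      have h11 : c.a y - d.tw q y = ∑ q' ∈ univ.erase q, d.tw q' y := by
        rw [← sum_tw d y, ← Finset.add_sum_erase univ (fun q' => d.tw q' y) (Finset.mem_univ q)]
        ring
      rw [h11, Finset.sum_div]
      refine Finset.sum_le_sum fun q' _ => ?_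
      exact div_le_div_of_nonneg_left (tw_nonneg d q' y) hpos (cw_gt d q').le
    have h2 : c.a y - d.tw q y ≤ c.a y / n :=
      sub_le_div (by omega) (a_pos hyX.1) (tw_nonneg d q y) hyX.2
    have h3 := multi_mul8 h8 d hm
    have h4 : c.a y / n ≤ 4 / 7 * (1 - c.a y) := by
      have h41 : c.a y * (1 + 7 / (4 * (n : ℝ))) = c.a y + 7 / 4 * (c.a y / n) := by
        field_simp
      rw [h41] at h3
      linarith
    refine h1.trans ?_
    rw [div_le_iff₀ hpos]
    have h5 : 0 ≤ 1 - c.a y := by linarith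
    have h6 : 4 / 7 * (1 - c.a y) ≤ 3 / 5 * (1 - c.a y) * (1 - c.ε) := by
      have h61 : (4 : ℝ) / 7 ≤ 3 / 5 * (1 - c.ε) := by linarith
      have h62 := mul_le_mul_of_nonneg_right h61 h5
      linarith
    linarith
  · obtain ⟨u, hu⟩ := hyX.1
    have hy' : ∀ v ∈ c.I y, d.π v = d.π u := by
      intro v hv
      by_contra h
      exact hm ⟨v, hv, u, hu, h⟩
    have h0 : ∀ q', q' ≠ d.π u → d.tw q' y = 0 := by
      intro q' hq'
      unfold Cls.tw
      refine Finset.sum_eq_zero fun v hv => ?_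
      rw [Finset.mem_filter] at hv
      exact absurd (hv.2.symm.trans (hy' v hv.1)) hq'
    have hq : q = d.π u := by
      by_contra hne
      have h1 := hyX.2
      rw [h0 q hne, zero_pow (by omega), mul_zero] at h1
      have h2 : 0 < c.a y ^ n := pow_pos (a_pos hyX.1) n
      linarith
    have h3 : ∑ q' ∈ univ.erase q, d.tw q' y / d.cw q' = 0 := by
      refine Finset.sum_eq_zero fun q' hq' => ?_
      rw [Finset.mem_erase] at hq'
      rw [h0 q' (by rw [← hq]; exact hq'.1), zero_div]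
    rw [h3]
    linarith

end Pool.Agent.Lib.MP_455133_co.BT
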