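import Mathlib
import Pool.Agent.Lib.MP_455133_co.BT.Reg

/-!
The weight of the region of a class.
-/

namespace Pool.Agent.Lib.MP_455133_co.BT

open Finset
open Pool.Agent.Lib.MP_455133_co.BO (wt lnk)

variable {V Y : Type} [Fintype V] [DecidableEq V] [Fintype Y] {n k m : ℕ}

/-- `single_weight8` and `mem_X_of_single`. -/
theorem mX_ge {c : Cfg V Y n k} (hn : 5 ≤ n) (h8 : n * c.ε ≤ 1 / 8) (d : Cls c m)
    (q : Fin m) : 9 / 10 ≤ ∑ y ∈ d.X q, c.μ y := by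
  classical
  refine (single_weight8 hn h8 d q).trans ?_
  apply Finset.sum_le_sum_of_subset_of_nonneg
  · intro y hy
    rw [mem_filter] at hy
    exact mem_X_of_single d q hy.2.1 hy.2.2
  · intro y _ _
    exact c.hμ y

/-- `∑_{y ∈ X} μ y * (rest at y) ≤ 3 / 5 ∑ μ (1 - a) ≤ 3 / 5 ε`, by `rest_le` and `deficit`. -/
theorem rest_sum {c : Cfg V Y n k} (hn : 5 ≤ n) (h8 : n * c.ε ≤ 1 / 8) (d : Cls c m)
    (q : Fin m) :
    ∑ y ∈ d.X q, c.μ y * ∑ q' ∈ univ.erase q, d.tw q' y / d.cw q' ≤ 3 / 5 * c.ε := by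
  calc ∑ y ∈ d.X q, c.μ y * ∑ q' ∈ univ.erase q, d.tw q' y / d.cw q'
      ≤ ∑ y ∈ d.X q, 3 / 5 * (c.μ y * (1 - c.a y)) := by
        apply Finset.sum_le_sum
        intro y hy
        have h1 := mul_le_mul_of_nonneg_left (rest_le hn h8 d q hy) (c.hμ y)
        linarith
    _ ≤ ∑ y, 3 / 5 * (c.μ y * (1 - c.a y)) := by
        apply Finset.sum_le_sum_of_subset_of_nonneg (Finset.subset_univ _)
        intro y _ _
        exact mul_nonneg (by norm_num) (mul_nonneg (c.hμ y) (by linarith [a_le_one c y]))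
    _ ≤ 3 / 5 * c.ε := by
        rw [← Finset.mul_sum]
        exact mul_le_mul_of_nonneg_left (deficit c).le (by norm_num)

private theorem mass_split {c : Cfg V Y n k} (d : Cls c m) (q : Fin m) (y : Y) :
    ∑ q', d.tw q' y / d.cw q' =
      d.tw q y / d.cw q + ∑ q' ∈ univ.erase q, d.tw q' y / d.cw q' :=
  (Finset.add_sum_erase univ (fun q' => d.tw q' y / d.cw q') (mem_univ q)).symm

private theorem mass_tau_nonneg {c : Cfg V Y n k} (d : Cls c m) (q : Fin m) (y : Y) :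
    0 ≤ d.tw q y / d.cw q := by
  apply div_nonneg
  · exact Finset.sum_nonneg fun v _ => (c.hξ v).le
  · exact Finset.sum_nonneg fun v _ => (c.hξ v).le

private theorem mass_swap {c : Cfg V Y n k} (d : Cls c m) :
    ∑ y, c.μ y * ∑ q', d.tw q' y / d.cw q' = ∑ q', ∑ y, c.μ y * (d.tw q' y / d.cw q') := by
  rw [Finset.sum_comm]
  exact Finset.sum_congr rfl fun y _ => Finset.mul_sum _ _ _

private theorem mass_eps {c : Cfg V Y n k} (hn : 5 ≤ n) (h8 : n * c.ε ≤ 1 / 8) :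
    8 / 5 * c.ε ≤ 1 / (5 * (n : ℝ)) := by
  have hn5 : (5 : ℝ) ≤ n := by exact_mod_cast hn
  rw [le_div_iff₀ (by positivity)]
  nlinarith

private theorem mass_slack_X {c : Cfg V Y n k} (d : Cls c m) (hm : m = k) (q : Fin m) :
    ∑ y ∈ d.X q, c.μ y * (1 - ∑ q', d.tw q' y / d.cw q') ≤ c.ε := by
  have h6 : ∑ y ∈ d.X q, c.μ y * (1 - ∑ q', d.tw q' y / d.cw q') ≤
      ∑ y, c.μ y * (1 - ∑ q', d.tw q' y / d.cw q') := by
    apply Finset.sum_le_sum_of_subset_of_nonneg (Finset.subset_univ _)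
    intro y _ _
    exact mul_nonneg (c.hμ y) (by linarith [tau_le_one d y])
  have h7 : ∑ y, c.μ y * (1 - ∑ q', d.tw q' y / d.cw q') =
      ∑ y, c.μ y - ∑ y, c.μ y * ∑ q', d.tw q' y / d.cw q' := by
    rw [← Finset.sum_sub_distrib]
    exact Finset.sum_congr rfl fun y _ => by ring
  have h8 := mass_swap d
  have h9 : (k : ℝ) ≤ ∑ q', ∑ y, c.μ y * (d.tw q' y / d.cw q') := by
    calc (k : ℝ) = ∑ q' : Fin m, (1 : ℝ) := by simp [hm]
      _ ≤ _ := Finset.sum_le_sum fun q' _ => class_cover d q'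
  have h10 := c.hz
  linarith

/-- Put `τ q y = tw q y / cw q`, `F y = ∑ q, τ q y ≤ 1` (`tau_le_one`), `m = k`. By `class_cover`
`∑ μ F ≥ k`, so `∑ μ (1 - F) ≤ ∑ μ - k < ε`; on `X q`, `1 - τ q = (1 - F) + rest`, and
`rest_sum`. Finally `8 / 5 * ε ≤ 1 / (5 n)`. -/
theorem bX_le {c : Cfg V Y n k} (hn : 5 ≤ n) (h8 : n * c.ε ≤ 1 / 8) (d : Cls c m)
    (hm : m = k) (q : Fin m) :
    ∑ y ∈ d.X q, c.μ y * (1 - d.tw q y / d.cw q) ≤ 1 / (5 * n) := by
  have hn5 : (5 : ℝ) ≤ n := by exact_mod_cast hn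
  have h1 := mass_slack_X d hm q
  have h2 := rest_sum hn h8 d q
  have h3 : ∑ y ∈ d.X q, c.μ y * (1 - d.tw q y / d.cw q) =
      ∑ y ∈ d.X q, c.μ y * (1 - ∑ q', d.tw q' y / d.cw q') +
        ∑ y ∈ d.X q, c.μ y * ∑ q' ∈ univ.erase q, d.tw q' y / d.cw q' := by
    rw [← Finset.sum_add_distrib]
    apply Finset.sum_congr rfl
    intro y _
    rw [mass_split d q y]
    ring
  have h4 : 8 / 5 * c.ε ≤ 1 / (5 * (n : ℝ)) := mass_eps hn h8
  linarith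

/-- `∑_{X} μ = ∑_X μ τ q + ∑_X μ (1 - F) + ∑_X μ rest ≤ ∑ μ τ q + ∑ μ (1 - F) + 3 / 5 ε`, and
`∑ μ τ q = ∑ μ F - ∑_{q' ≠ q} ∑ μ τ q' ≤ ∑ μ F - (k - 1)` by `class_cover`; so the total is at
most `∑ μ - (k - 1) + 3 / 5 ε ≤ 1 + 8 / 5 ε`. -/
theorem mX_le {c : Cfg V Y n k} (hn : 5 ≤ n) (h8 : n * c.ε ≤ 1 / 8) (d : Cls c m)
    (hm : m = k) (q : Fin m) : ∑ y ∈ d.X q, c.μ y ≤ 1 + 1 / (5 * n) := by
  have hn5 : (5 : ℝ) ≤ n := by exact_mod_cast hn
  have h2 := rest_sum hn h8 d q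
  have h3 : ∑ y ∈ d.X q, c.μ y =
      ∑ y ∈ d.X q, c.μ y * (d.tw q y / d.cw q) +
      ∑ y ∈ d.X q, c.μ y * (1 - ∑ q', d.tw q' y / d.cw q') +
        ∑ y ∈ d.X q, c.μ y * ∑ q' ∈ univ.erase q, d.tw q' y / d.cw q' := by
    rw [← Finset.sum_add_distrib, ← Finset.sum_add_distrib]
    apply Finset.sum_congr rfl
    intro y _
    rw [mass_split d q y]
    ring
  have h4 : 8 / 5 * c.ε ≤ 1 / (5 * (n : ℝ)) := mass_eps hn h8
  have h5 : ∑ y ∈ d.X q, c.μ y * (d.tw q y / d.cw q) ≤ ∑ y, c.μ y * (d.tw q y / d.cw q) := by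
    apply Finset.sum_le_sum_of_subset_of_nonneg (Finset.subset_univ _)
    intro y _ _
    exact mul_nonneg (c.hμ y) (mass_tau_nonneg d q y)
  have h6 : ∑ y ∈ d.X q, c.μ y * (1 - ∑ q', d.tw q' y / d.cw q') ≤
      ∑ y, c.μ y * (1 - ∑ q', d.tw q' y / d.cw q') := by
    apply Finset.sum_le_sum_of_subset_of_nonneg (Finset.subset_univ _)
    intro y _ _
    exact mul_nonneg (c.hμ y) (by linarith [tau_le_one d y])
  have h7 : ∑ y, c.μ y * (1 - ∑ q', d.tw q' y / d.cw q') =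
      ∑ y, c.μ y - ∑ y, c.μ y * ∑ q', d.tw q' y / d.cw q' := by
    rw [← Finset.sum_sub_distrib]
    exact Finset.sum_congr rfl fun y _ => by ring
  have h8' := mass_swap d
  have h9 : ∑ q', ∑ y, c.μ y * (d.tw q' y / d.cw q') =
      ∑ y, c.μ y * (d.tw q y / d.cw q) +
        ∑ q' ∈ univ.erase q, ∑ y, c.μ y * (d.tw q' y / d.cw q') :=
    (Finset.add_sum_erase univ (fun q' => ∑ y, c.μ y * (d.tw q' y / d.cw q')) (mem_univ q)).symm
  have h10 : ((univ.erase q).card : ℝ) ≤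
      ∑ q' ∈ univ.erase q, ∑ y, c.μ y * (d.tw q' y / d.cw q') := by
    calc ((univ.erase q).card : ℝ) = ∑ q' ∈ univ.erase q, (1 : ℝ) := by simp
      _ ≤ _ := Finset.sum_le_sum fun q' _ => class_cover d q'
  have h11 : ((univ.erase q).card : ℝ) = (k : ℝ) - 1 := by
    rw [Finset.card_erase_of_mem (mem_univ q), Finset.card_univ, Fintype.card_fin, hm,
      Nat.cast_sub c.hk, Nat.cast_one]
  have h12 := c.hz
  linarith

end Pool.Agent.Lib.MP_455133_co.BT
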