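import Mathlib
import Pool.Agent.Lib.MP_455133_co.BT.Mass

/-!
The part of the region of a class missed by a vertex.
-/

namespace Pool.Agent.Lib.MP_455133_co.BT

open Finset
open Pool.Agent.Lib.MP_455133_co.BO (wt lnk)

variable {V Y : Type} [Fintype V] [DecidableEq V] [Fintype Y] {n k m : ℕ}

/-- The `μ`-weight of the points of `X q` whose set misses `v`. -/
noncomputable def Cls.β {c : Cfg V Y n k} (d : Cls c m) (q : Fin m) (v : V) : ℝ :=
  ∑ y ∈ (d.X q).filter (fun y => v ∉ c.I y), c.μ y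

theorem beta_nonneg {c : Cfg V Y n k} (d : Cls c m) (q : Fin m) (v : V) : 0 ≤ d.β q v :=
  Finset.sum_nonneg fun y _ => c.hμ y

theorem beta_cw_sub {c : Cfg V Y n k} (d : Cls c m) (q : Fin m) (y : Y) :
    d.cw q - d.tw q y =
      ∑ v ∈ univ.filter (fun v => d.π v = q), if v ∉ c.I y then c.ξ v else 0 := by
  have h1 : d.tw q y = ∑ v ∈ univ.filter (fun v => d.π v = q), if v ∈ c.I y then c.ξ v else 0 := by
    unfold Cls.tw
    rw [← Finset.sum_filter]
    refine Finset.sum_congr ?_ fun _ _ => rfl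
    ext v
    simp only [Finset.mem_filter, Finset.mem_univ, true_and]
    tauto
  rw [h1, Cls.cw, ← Finset.sum_sub_distrib]
  refine Finset.sum_congr rfl fun v _ => ?_
  by_cases hv : v ∈ c.I y
  · simp [hv]
  · simp [hv]

/-- Exchange the sums: `∑_{v of class q} ξ v * β v = ∑_{y ∈ X q} μ y * (cw q - tw q y)`, which is
`cw q` times the left-hand side of `bX_le`. -/
theorem sum_beta {c : Cfg V Y n k} (hn : 5 ≤ n) (h8 : n * c.ε ≤ 1 / 8) (d : Cls c m)
    (hm : m = k) (q : Fin m) :
    ∑ v ∈ univ.filter (fun v => d.π v = q), c.ξ v * d.β q v ≤ d.cw q * (1 / (5 * n)) := by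
  have hpos : 0 < d.cw q := by
    have h1 := cw_gt d q
    have h2 := eps_le c
    linarith
  have hkey : ∑ v ∈ univ.filter (fun v => d.π v = q), c.ξ v * d.β q v =
      ∑ y ∈ d.X q, c.μ y * (d.cw q - d.tw q y) := by
    have e1 : ∀ v ∈ univ.filter (fun v => d.π v = q), c.ξ v * d.β q v =
        ∑ y ∈ d.X q, if v ∉ c.I y then c.ξ v * c.μ y else 0 := by
      intro v _
      unfold Cls.β
      rw [Finset.sum_filter, Finset.mul_sum]
      refine Finset.sum_congr rfl fun y _ => ?_
      split_ifs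
      · rw [mul_zero]
      · rfl
    rw [Finset.sum_congr rfl e1, Finset.sum_comm]
    refine Finset.sum_congr rfl fun y _ => ?_
    rw [beta_cw_sub, Finset.mul_sum]
    refine Finset.sum_congr rfl fun v _ => ?_
    split_ifs
    · ring
    · ring
  rw [hkey]
  have h1 : ∑ y ∈ d.X q, c.μ y * (d.cw q - d.tw q y) =
      d.cw q * ∑ y ∈ d.X q, c.μ y * (1 - d.tw q y / d.cw q) := by
    rw [Finset.mul_sum]
    refine Finset.sum_congr rfl fun y _ => ?_
    field_simp
  rw [h1]
  exact mul_le_mul_of_nonneg_left (bX_le hn h8 d hm q) hpos.le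

open Classical in
/-- the covering inequality at `v` -/
theorem beta_aux {c : Cfg V Y n k} (d : Cls c m) (q : Fin m) (v : V) :
    1 + d.β q v ≤ ∑ y ∈ d.X q, c.μ y +
      ∑ y ∈ (univ.filter (fun y => v ∈ c.I y)).filter (fun y => y ∉ d.X q), c.μ y := by
  have h1 := c.hcov v
  rw [← Finset.sum_filter_add_sum_filter_not (univ.filter (fun y => v ∈ c.I y))
    (fun y => y ∈ d.X q)] at h1
  have h2 := Finset.sum_filter_add_sum_filter_not (d.X q) (fun y => v ∉ c.I y) c.μ
  have h3 : (univ.filter (fun y => v ∈ c.I y)).filter (fun y => y ∈ d.X q) =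
      (d.X q).filter (fun y => ¬ v ∉ c.I y) := by
    ext y
    simp only [Finset.mem_filter, Finset.mem_univ, true_and, not_not]
    tauto
  rw [h3] at h1
  have h4 : d.β q v = ∑ y ∈ (d.X q).filter (fun y => v ∉ c.I y), c.μ y := rfl
  linarith

/-- Let all points `y ∉ X q` with `v ∈ I y` have `a y ≤ A < 1`. By `hcov`,
`1 ≤ (∑_{X q} μ - β v) + γ`, where `γ` is the `μ`-weight of the points `y ∉ X q` with `v ∈ I y`;
`γ * (1 - A) ≤ ∑ μ (1 - a) ≤ ε ≤ 1 / (8 n)`, and `mX_le`. -/
theorem beta_le {c : Cfg V Y n k} (hn : 5 ≤ n) (h8 : n * c.ε ≤ 1 / 8) (d : Cls c m)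
    (hm : m = k) (q : Fin m) (v : V) {A : ℝ} (hA : A < 1)
    (h : ∀ y, v ∈ c.I y → y ∉ d.X q → c.a y ≤ A) :
    d.β q v ≤ 1 / (5 * n) + 1 / (8 * n * (1 - A)) := by
  classical
  have h1 := beta_aux d q v
  have h2 := mX_le hn h8 d hm q
  have hn0 : (0 : ℝ) < n := by
    have : (5 : ℝ) ≤ n := by exact_mod_cast hn
    linarith
  have hA' : 0 < 1 - A := by linarith
  have h3 : (∑ y ∈ (univ.filter (fun y => v ∈ c.I y)).filter (fun y => y ∉ d.X q), c.μ y) *
      (1 - A) ≤ c.ε := by
    rw [Finset.sum_mul]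
    refine le_trans ?_ (deficit c).le
    refine le_trans (Finset.sum_le_sum (g := fun y => c.μ y * (1 - c.a y)) fun y hy => ?_) ?_
    · rw [Finset.mem_filter, Finset.mem_filter] at hy
      have h4 := h y hy.1.2 hy.2
      exact mul_le_mul_of_nonneg_left (by linarith) (c.hμ y)
    · refine Finset.sum_le_sum_of_subset_of_nonneg (Finset.subset_univ _) fun y _ _ => ?_
      exact mul_nonneg (c.hμ y) (by linarith [a_le_one c y])
  have h5 : c.ε ≤ 1 / (8 * n) := by
    rw [le_div_iff₀ (by positivity)]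
    linarith
  have h6 : ∑ y ∈ (univ.filter (fun y => v ∈ c.I y)).filter (fun y => y ∉ d.X q), c.μ y ≤
      1 / (8 * n * (1 - A)) := by
    rw [← div_div, le_div_iff₀ hA']
    linarith
  linarith

/-- If no point `y ∉ X q` has `v ∈ I y`, then `β v ≤ ∑_{X q} μ - 1 ≤ 1 / (5 n)`. -/
theorem beta_le_pure {c : Cfg V Y n k} (hn : 5 ≤ n) (h8 : n * c.ε ≤ 1 / 8) (d : Cls c m)
    (hm : m = k) (q : Fin m) (v : V) (h : ∀ y, v ∈ c.I y → y ∈ d.X q) :
    d.β q v ≤ 1 / (5 * n) := by
  classical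
  have h1 := beta_aux d q v
  have h2 := mX_le hn h8 d hm q
  have h3 : (univ.filter (fun y => v ∈ c.I y)).filter (fun y => y ∉ d.X q) = ∅ := by
    rw [Finset.filter_eq_empty_iff]
    intro y hy
    rw [Finset.mem_filter] at hy
    exact not_not.2 (h y hy.2)
  rw [h3, Finset.sum_empty] at h1
  linarith

/-- Every `y ∈ X q` misses an element of the edge. -/
theorem edge_beta {c : Cfg V Y n k} (hn : 5 ≤ n) (h8 : n * c.ε ≤ 1 / 8) (d : Cls c m)
    (q : Fin m) {e : Finset V} (he : e ∈ c.H) : 9 / 10 ≤ ∑ v ∈ e, d.β q v := by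
  classical
  refine (mX_ge hn h8 d q).trans ?_
  have h1 : ∑ v ∈ e, d.β q v = ∑ y ∈ d.X q, ∑ v ∈ e, if v ∉ c.I y then c.μ y else 0 := by
    rw [Finset.sum_comm]
    refine Finset.sum_congr rfl fun v _ => ?_
    unfold Cls.β
    rw [Finset.sum_filter]
  rw [h1]
  refine Finset.sum_le_sum fun y _ => ?_
  have h2 := c.hI y e he
  rw [Finset.not_subset] at h2
  obtain ⟨v, hv, hvy⟩ := h2
  have h3 := Finset.single_le_sum (s := e) (f := fun v => if v ∉ c.I y then c.μ y else 0)
    (fun x _ => by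
      show 0 ≤ if x ∉ c.I y then c.μ y else 0
      by_cases hx : x ∉ c.I y
      · rw [if_pos hx]
        exact c.hμ y
      · rw [if_neg hx]) hv
  rw [if_pos hvy] at h3
  exact h3

/-- The same for an edge written as `insert v (univ.image w)`. -/
theorem tuple_beta {c : Cfg V Y n k} (hn : 5 ≤ n) (h8 : n * c.ε ≤ 1 / 8) (d : Cls c m)
    (q : Fin m) (v : V) (w : Fin n → V) (he : insert v (univ.image w) ∈ c.H) :
    9 / 10 ≤ d.β q v + ∑ i, d.β q (w i) := by
  have h1 := edge_beta hn h8 d q he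
  have hc := c.hH _ he
  have h2 : (univ.image w).card ≤ n := by
    have := Finset.card_image_le (s := (univ : Finset (Fin n))) (f := w)
    rw [Finset.card_univ, Fintype.card_fin] at this
    exact this
  have hv : v ∉ univ.image w := by
    intro hv
    rw [Finset.insert_eq_of_mem hv] at hc
    omega
  rw [Finset.card_insert_of_notMem hv] at hc
  have h3 : Set.InjOn w (univ : Finset (Fin n)) := by
    rw [← Finset.card_image_iff, Finset.card_univ, Fintype.card_fin]
    omega
  rw [Finset.sum_insert hv, Finset.sum_image h3] at h1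
  exact h1

end Pool.Agent.Lib.MP_455133_co.BT
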