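import Mathlib
import Pool.Agent.Lib.MP_455133_co.Defs

/-!
The block construction with one block split into `r` parts.
-/

namespace Pool.Agent.Lib.MP_455133_co.BT

open Finset Pool.Agent.Lib.MP_455133_co

/-- number of the block -/
private def blockA_blk (k n : ℕ) {N : ℕ} (x : Fin N) : ℕ := (x.1 % (k * (n + 1))) / (n + 1)

private theorem blockA_card {N k n : ℕ} (i : ℕ) :
    ((univ : Finset (Fin N)).filter fun x => blockA_blk k n x = i).card ≤
      (n + 1) * (N / (k * (n + 1)) + 1) := by
  have h : ((univ : Finset (Fin N)).filter fun x => blockA_blk k n x = i).card ≤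
      ((range (N / (k * (n + 1)) + 1)) ×ˢ (range (n + 1))).card := by
    refine card_le_card_of_injOn (fun x => (x.1 / (k * (n + 1)), x.1 % (k * (n + 1)) % (n + 1)))
      ?_ ?_
    · intro x _
      rw [mem_coe, mem_product, mem_range, mem_range]
      exact ⟨Nat.lt_succ_of_le (Nat.div_le_div_right x.2.le), Nat.mod_lt _ (Nat.succ_pos n)⟩
    · intro x hx y hy hxy
      have hx' : (x.1 % (k * (n + 1))) / (n + 1) = i := (mem_filter.1 (mem_coe.1 hx)).2
      have hy' : (y.1 % (k * (n + 1))) / (n + 1) = i := (mem_filter.1 (mem_coe.1 hy)).2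
      obtain ⟨h1, h2⟩ := Prod.mk.inj hxy
      have h3 : x.1 % (k * (n + 1)) = y.1 % (k * (n + 1)) := by
        rw [← Nat.div_add_mod (x.1 % (k * (n + 1))) (n + 1),
          ← Nat.div_add_mod (y.1 % (k * (n + 1))) (n + 1), hx', hy', h2]
      apply Fin.ext
      rw [← Nat.div_add_mod x.1 (k * (n + 1)), ← Nat.div_add_mod y.1 (k * (n + 1)), h1, h3]
  rw [card_product, card_range, card_range, mul_comm] at h
  exact h

/-- the family -/
private noncomputable def blockA_fam (N k n s : ℕ) : Finset (Finset (Fin N)) := by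
  classical
  exact (powersetCard s (univ : Finset (Fin N))).filter fun A =>
    (∃ i, i ≠ 0 ∧ ∀ x ∈ A, blockA_blk k n x = i) ∨
    ((∀ x ∈ A, blockA_blk k n x = 0) ∧ ∃ j < n + 1, ∀ x ∈ A, x.1 % (k * (n + 1)) ≠ j)

private theorem blockA_mem {N k n s : ℕ} {A : Finset (Fin N)} :
    A ∈ blockA_fam N k n s ↔ A.card = s ∧ ((∃ i, i ≠ 0 ∧ ∀ x ∈ A, blockA_blk k n x = i) ∨
    ((∀ x ∈ A, blockA_blk k n x = 0) ∧ ∃ j < n + 1, ∀ x ∈ A, x.1 % (k * (n + 1)) ≠ j)) := by
  classical
  unfold blockA_fam
  rw [mem_filter, mem_powersetCard]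
  simp

private theorem blockA_cov {n k N s t : ℕ} (hk : 1 ≤ k) (hs : 1 ≤ s)
    (hst : (n * k + 1) * s ≤ n * t) : IsCovering s t (blockA_fam N k n s) := by
  classical
  refine ⟨fun A hA => (blockA_mem.1 hA).1, fun C hC => ?_⟩
  by_contra hcon
  push Not at hcon
  have hM : 0 < k * (n + 1) := Nat.mul_pos hk (Nat.succ_pos n)
  have hsmall : ∀ i, i ≠ 0 → (C.filter fun x => blockA_blk k n x = i).card ≤ s - 1 := by
    intro i hi
    by_contra hlt
    push Not at hlt
    obtain ⟨A, hA, hAc⟩ := exists_subset_card_eq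
      (s := C.filter fun x => blockA_blk k n x = i) (n := s) (by omega)
    refine hcon A ?_ (hA.trans (filter_subset _ _))
    exact blockA_mem.2 ⟨hAc, Or.inl ⟨i, hi, fun x hx => (mem_filter.1 (hA hx)).2⟩⟩
  have hmaps : Set.MapsTo (fun x : Fin N => blockA_blk k n x) (C : Set (Fin N))
      (range k : Set ℕ) := by
    intro x _
    rw [mem_coe, mem_range]
    apply Nat.div_lt_of_lt_mul
    rw [mul_comm (n + 1) k]
    exact Nat.mod_lt _ hM
  have hsum := card_eq_sum_card_fiberwise hmaps
  rw [← add_sum_erase (range k) _ (mem_range.2 hk)] at hsum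
  set C0 := C.filter fun x => blockA_blk k n x = 0 with hC0
  have hrest : ∑ i ∈ (range k).erase 0, (C.filter fun x => blockA_blk k n x = i).card ≤
      (k - 1) * (s - 1) := by
    refine (sum_le_sum fun i hi => hsmall i (ne_of_mem_erase hi)).trans ?_
    rw [sum_const, card_erase_of_mem (mem_range.2 hk), card_range, smul_eq_mul]
  have hC0n : (n + 1) * s ≤ n * C0.card := by
    obtain ⟨k', rfl⟩ : ∃ k', k = k' + 1 := ⟨k - 1, by omega⟩
    obtain ⟨s', rfl⟩ : ∃ s', s = s' + 1 := ⟨s - 1, by omega⟩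
    simp only [Nat.add_sub_cancel] at hrest
    have h1 : n * t = n * C0.card + n * ∑ i ∈ (range (k' + 1)).erase 0,
        (C.filter fun x => blockA_blk (k' + 1) n x = i).card := by
      rw [← mul_add, ← hC, hsum]
    have h2 := Nat.mul_le_mul_left n hrest
    nlinarith [h1, h2, hst, Nat.zero_le (n * k')]
  have hmaps0 : Set.MapsTo (fun x : Fin N => x.1 % (k * (n + 1))) (C0 : Set (Fin N))
      (range (n + 1) : Set ℕ) := by
    intro x hx
    rw [mem_coe, mem_range]
    have hx' : (x.1 % (k * (n + 1))) / (n + 1) = 0 := (mem_filter.1 (mem_coe.1 hx)).2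
    exact Nat.lt_of_div_eq_zero (Nat.succ_pos n) hx'
  have hsum0 := card_eq_sum_card_fiberwise hmaps0
  obtain ⟨j, hj, hjc⟩ : ∃ j ∈ range (n + 1),
      (n + 1) * (C0.filter fun x => x.1 % (k * (n + 1)) = j).card ≤ C0.card := by
    by_contra hno
    push Not at hno
    have h1 := sum_lt_sum_of_nonempty (s := range (n + 1)) ⟨0, mem_range.2 (Nat.succ_pos n)⟩ hno
    rw [← mul_sum, ← hsum0, sum_const, card_range, smul_eq_mul] at h1
    exact lt_irrefl _ h1
  have hsplit := card_filter_add_card_filter_not (s := C0)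
    (fun x => x.1 % (k * (n + 1)) = j)
  have hD : s ≤ (C0.filter fun x => ¬ x.1 % (k * (n + 1)) = j).card := by
    by_contra hlt
    push Not at hlt
    have h1 : (n + 1) * ((C0.filter fun x => ¬ x.1 % (k * (n + 1)) = j).card + 1) ≤
        (n + 1) * s := Nat.mul_le_mul_left _ hlt
    have h2 := congrArg (fun z => (n + 1) * z) hsplit
    simp only [mul_add] at h2
    nlinarith [h1, h2, hjc, hC0n]
  obtain ⟨A, hA, hAc⟩ := exists_subset_card_eq hD
  refine hcon A ?_ (hA.trans ((filter_subset _ _).trans (filter_subset _ _)))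
  refine blockA_mem.2 ⟨hAc, Or.inr ⟨fun x hx => ?_, j, mem_range.1 hj, fun x hx => ?_⟩⟩
  · exact (mem_filter.1 (mem_filter.1 (hA hx)).1).2
  · exact (mem_filter.1 (hA hx)).2

/-- the points of the transversals -/
private def blockA_pt {n k N : ℕ} (hk : 1 ≤ k) (g : Fin (n + 1) → Fin (N / (k * (n + 1))))
    (j : Fin (n + 1)) : Fin N :=
  ⟨(g j).1 * (k * (n + 1)) + j.1, by
    have h1 : (g j).1 + 1 ≤ N / (k * (n + 1)) := (g j).2
    have h2 : ((g j).1 + 1) * (k * (n + 1)) ≤ N :=
      (Nat.mul_le_mul_right _ h1).trans (Nat.div_mul_le_self _ _)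
    have h3 : j.1 < k * (n + 1) := lt_of_lt_of_le j.2 (Nat.le_mul_of_pos_left _ hk)
    calc (g j).1 * (k * (n + 1)) + j.1 < (g j).1 * (k * (n + 1)) + k * (n + 1) := by omega
      _ = ((g j).1 + 1) * (k * (n + 1)) := by ring
      _ ≤ N := h2⟩

private theorem blockA_pt_mod {n k N : ℕ} (hk : 1 ≤ k)
    (g : Fin (n + 1) → Fin (N / (k * (n + 1)))) (j : Fin (n + 1)) :
    (blockA_pt hk g j).1 % (k * (n + 1)) = j.1 := by
  have h3 : j.1 < k * (n + 1) := lt_of_lt_of_le j.2 (Nat.le_mul_of_pos_left _ hk)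
  show ((g j).1 * (k * (n + 1)) + j.1) % (k * (n + 1)) = j.1
  rw [Nat.mul_add_mod_self_right, Nat.mod_eq_of_lt h3]

private theorem blockA_pt_blk {n k N : ℕ} (hk : 1 ≤ k)
    (g : Fin (n + 1) → Fin (N / (k * (n + 1)))) (j : Fin (n + 1)) :
    blockA_blk k n (blockA_pt hk g j) = 0 := by
  unfold blockA_blk
  rw [blockA_pt_mod, Nat.div_eq_of_lt j.2]

private theorem blockA_pt_inj {n k N : ℕ} (hk : 1 ≤ k)
    {g g' : Fin (n + 1) → Fin (N / (k * (n + 1)))} {j j' : Fin (n + 1)}
    (h : blockA_pt hk g j = blockA_pt hk g' j') : j = j' ∧ g j = g' j' := by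
  have h1 : j = j' := by
    apply Fin.ext
    rw [← blockA_pt_mod hk g j, ← blockA_pt_mod hk g' j', h]
  subst h1
  refine ⟨rfl, Fin.ext ?_⟩
  have h2 : (g j).1 * (k * (n + 1)) + j.1 = (g' j).1 * (k * (n + 1)) + j.1 :=
    congrArg Fin.val h
  have hM : 0 < k * (n + 1) := Nat.mul_pos hk (Nat.succ_pos n)
  exact Nat.eq_of_mul_eq_mul_right hM (by omega)

private theorem blockA_trans_inj {n k N : ℕ} (hk : 1 ≤ k) : Function.Injective
    (fun g : Fin (n + 1) → Fin (N / (k * (n + 1))) => univ.image (blockA_pt hk g)) := by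
  intro g g' h
  funext j
  have h1 : blockA_pt hk g j ∈ univ.image (blockA_pt hk g) := mem_image_of_mem _ (mem_univ _)
  have h2 : univ.image (blockA_pt hk g) = univ.image (blockA_pt hk g') := h
  rw [h2, mem_image] at h1
  obtain ⟨j', -, hj'⟩ := h1
  obtain ⟨e, he⟩ := blockA_pt_inj hk hj'
  subst e
  exact he.symm

/-- Let `r = n + 1` and `p = N / (k r)`. Colour `x : Fin N` with `x % (k r)`; the colour classes
have size `p` or `p + 1`. The block `B i` (`i < k`) consists of the colours `i r, ..., i r + n`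
(`(x % (k r)) / r = i`), and the part `P j` (`j < r`) of the block `0` of the colour `j`. The
family consists of the `s`-sets inside some block `i ≠ 0` and of the `s`-sets inside the block `0`
that miss some part `P j`.
Covering: let `C` be a `t`-set with `card (C ∩ B i) ≤ s - 1` for all `i ≠ 0`; then
`card (C ∩ B 0) ≥ t - (k - 1) (s - 1)`, hence `n * card (C ∩ B 0) ≥ (n + 1) s`, and some part
has at most `card (C ∩ B 0) / (n + 1)` elements of `C`, so at least `s` elements of `C ∩ B 0` lie
outside this part.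
Shadow: contained in the `r`-sets inside a block, at most `k * (r (p + 1)).choose r` of them,
minus the sets that have exactly one element in each part of block `0`, at least `p ^ r` of them.
-/
theorem f_add_pow_le {n k N s t : ℕ} (hn : 1 ≤ n) (hk : 1 ≤ k) (hs : 1 ≤ s)
    (hst : (n * k + 1) * s ≤ n * t) :
    f N (n + 1) s t + (N / (k * (n + 1))) ^ (n + 1) ≤
      k * ((n + 1) * (N / (k * (n + 1)) + 1)).choose (n + 1) := by
  classical
  refine (Nat.add_le_add_right (f_le (blockA_cov (N := N) hk hs hst)) _).trans ?_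
  set T : Finset (Finset (Fin N)) := (univ : Finset (Fin (n + 1) → Fin (N / (k * (n + 1))))).image
    (fun g => univ.image (blockA_pt hk g)) with hT
  have hTc : T.card = (N / (k * (n + 1))) ^ (n + 1) := by
    rw [hT, card_image_of_injective _ (blockA_trans_inj hk), card_univ]
    simp
  have hdisj : Disjoint (lowerShadow (n + 1) (blockA_fam N k n s)) T := by
    rw [disjoint_left]
    intro R hR hRT
    rw [hT, mem_image] at hRT
    obtain ⟨g, -, rfl⟩ := hRT
    simp only [lowerShadow, mem_filter] at hR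
    obtain ⟨-, A, hA, hRA⟩ := hR
    have hmem : ∀ j, blockA_pt hk g j ∈ A := fun j => hRA (mem_image_of_mem _ (mem_univ _))
    rcases (blockA_mem.1 hA).2 with ⟨i, hi, hAi⟩ | ⟨-, j, hj, hAj⟩
    · have h1 := hAi _ (hmem 0)
      rw [blockA_pt_blk] at h1
      exact hi h1.symm
    · have h1 := hAj _ (hmem ⟨j, hj⟩)
      exact h1 (blockA_pt_mod hk g ⟨j, hj⟩)
  have hblk : ∀ x : Fin N, blockA_blk k n x ∈ range k := by
    intro x
    rw [mem_range]
    apply Nat.div_lt_of_lt_mul
    rw [mul_comm (n + 1) k]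
    exact Nat.mod_lt _ (Nat.mul_pos hk (Nat.succ_pos n))
  have hsub : lowerShadow (n + 1) (blockA_fam N k n s) ∪ T ⊆
      (range k).biUnion fun i => powersetCard (n + 1)
        ((univ : Finset (Fin N)).filter fun x => blockA_blk k n x = i) := by
    intro R hR
    have key : ∀ i, R.card = n + 1 → (∀ x ∈ R, blockA_blk k n x = i) →
        R ∈ (range k).biUnion fun i => powersetCard (n + 1)
        ((univ : Finset (Fin N)).filter fun x => blockA_blk k n x = i) := by
      intro i hc hi
      rw [mem_biUnion]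
      have hne : R.Nonempty := by
        rw [← card_pos, hc]
        exact Nat.succ_pos n
      obtain ⟨x, hx⟩ := hne
      refine ⟨i, ?_, ?_⟩
      · rw [← hi x hx]
        exact hblk x
      · rw [mem_powersetCard]
        refine ⟨fun y hy => ?_, hc⟩
        rw [mem_filter]
        exact ⟨mem_univ _, hi y hy⟩
    rcases mem_union.1 hR with h | h
    · simp only [lowerShadow, mem_filter, mem_powersetCard] at h
      obtain ⟨⟨-, hc⟩, A, hA, hRA⟩ := h
      rcases (blockA_mem.1 hA).2 with ⟨i, -, hAi⟩ | ⟨hA0, -⟩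
      · exact key i hc fun x hx => hAi x (hRA hx)
      · exact key 0 hc fun x hx => hA0 x (hRA hx)
    · rw [hT, mem_image] at h
      obtain ⟨g, -, rfl⟩ := h
      refine key 0 ?_ ?_
      · rw [card_image_of_injective _ (fun j j' h => (blockA_pt_inj hk h).1), card_univ,
          Fintype.card_fin]
      · intro x hx
        obtain ⟨j, -, rfl⟩ := mem_image.1 hx
        exact blockA_pt_blk hk g j
  rw [← hTc, ← card_union_of_disjoint hdisj]
  refine (card_le_card hsub).trans (card_biUnion_le.trans ?_)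
  calc ∑ i ∈ range k, (powersetCard (n + 1)
        ((univ : Finset (Fin N)).filter fun x => blockA_blk k n x = i)).card
      ≤ ∑ i ∈ range k, ((n + 1) * (N / (k * (n + 1)) + 1)).choose (n + 1) := by
        refine sum_le_sum fun i _ => ?_
        rw [card_powersetCard]
        exact Nat.choose_le_choose _ (blockA_card i)
    _ = k * ((n + 1) * (N / (k * (n + 1)) + 1)).choose (n + 1) := by
        rw [sum_const, card_range, smul_eq_mul]

end Pool.Agent.Lib.MP_455133_co.BT
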