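import Mathlib
import Pool.Agent.Lib.MP_455133_co.BT.BlockA

/-!
Asymptotic form of the bound in `BlockA`.
-/

namespace Pool.Agent.Lib.MP_455133_co.BT

open Finset Pool.Agent.Lib.MP_455133_co

theorem BlockB_lim (n : ℕ) (a b : ℝ) :
    Filter.Tendsto (fun N : ℕ => (a * (N : ℝ) + b) / ((N : ℝ) - n)) Filter.atTop (nhds a) := by
  have h1 : Filter.Tendsto (fun N : ℕ => (n : ℝ) / (N : ℝ)) Filter.atTop (nhds 0) :=
    tendsto_const_div_atTop_nhds_zero_nat (n : ℝ)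
  have h1' : Filter.Tendsto (fun N : ℕ => b / (N : ℝ)) Filter.atTop (nhds 0) :=
    tendsto_const_div_atTop_nhds_zero_nat b
  have h2 : Filter.Tendsto (fun N : ℕ => (a + b / (N : ℝ)) / (1 - (n : ℝ) / (N : ℝ))) Filter.atTop
      (nhds ((a + 0) / (1 - 0))) :=
    (tendsto_const_nhds.add h1').div (tendsto_const_nhds.sub h1) (by norm_num)
  have e0 : (a + 0) / (1 - 0) = a := by simp
  rw [e0] at h2
  refine h2.congr' ?_
  filter_upwards [Filter.eventually_gt_atTop n] with N hN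
  have hN0 : (0 : ℝ) < N := by
    have : 0 < N := by omega
    exact_mod_cast this
  have hNn : (0 : ℝ) < (N : ℝ) - n := by
    have : (n : ℝ) < N := by exact_mod_cast hN
    linarith
  have e1 : 1 - (n : ℝ) / N = ((N : ℝ) - n) / N := by
    field_simp
  have e2 : a + b / (N : ℝ) = (a * N + b) / N := by
    field_simp
  rw [e1, e2, div_div_div_cancel_right₀ hN0.ne']

/-- From `f_add_pow_le`, with `p = N / (k (n + 1))`: `C((n+1)(p+1), n+1) ≤ ((n+1)(p+1))^(n+1) /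
(n+1)!` (`Nat.choose_le_pow_div`), `C(N, n+1) ≥ (N - n)^(n+1) / (n+1)!` (`Nat.pow_le_choose`) and
`p / N → 1 / (k (n+1))`. Compare the proof of `BO.upper_bound` in `BO/UppB.lean`. -/
theorem upper_bound_split {n k : ℕ} (hn : 1 ≤ n) (hk : 1 ≤ k) {η : ℝ} (hη : 0 < η) {s t : ℕ}
    (hs : 1 ≤ s) (hst : (n * k + 1) * s ≤ n * t) : ∃ N₀ : ℕ, ∀ N : ℕ, N₀ ≤ N →
      (f N (n + 1) s t : ℝ) ≤
        (1 / (k : ℝ) ^ n - ((n + 1).factorial : ℝ) / (((n : ℝ) + 1) * k) ^ (n + 1) + η) *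
          (N.choose (n + 1) : ℝ) := by
  have hk0 : (0 : ℝ) < k := by exact_mod_cast hk
  have hr0 : (0 : ℝ) < (n : ℝ) + 1 := by positivity
  have hK0 : (0 : ℝ) < (k : ℝ) * ((n : ℝ) + 1) := mul_pos hk0 hr0
  have hfac : (0 : ℝ) < ((n + 1).factorial : ℝ) := by exact_mod_cast Nat.factorial_pos _
  -- the limit
  have hlim1 := ((BlockB_lim n (1 / (k : ℝ)) ((n : ℝ) + 1)).pow (n + 1)).const_mul (k : ℝ)
  have hlim2 := ((BlockB_lim n (1 / ((k : ℝ) * ((n : ℝ) + 1))) (-1)).pow (n + 1)).const_mul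
    ((n + 1).factorial : ℝ)
  have hlim := hlim1.sub hlim2
  have hval : (k : ℝ) * (1 / (k : ℝ)) ^ (n + 1) -
      ((n + 1).factorial : ℝ) * (1 / ((k : ℝ) * ((n : ℝ) + 1))) ^ (n + 1) =
      1 / (k : ℝ) ^ n - ((n + 1).factorial : ℝ) / (((n : ℝ) + 1) * k) ^ (n + 1) := by
    have e1 : (k : ℝ) * (1 / (k : ℝ)) ^ (n + 1) = 1 / (k : ℝ) ^ n := by
      rw [pow_succ, one_div, inv_pow]
      field_simp
    have e2 : ((n + 1).factorial : ℝ) * (1 / ((k : ℝ) * ((n : ℝ) + 1))) ^ (n + 1) =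
        ((n + 1).factorial : ℝ) / (((n : ℝ) + 1) * k) ^ (n + 1) := by
      rw [one_div, inv_pow, mul_comm (k : ℝ)]
      rfl
    rw [e1, e2]
  rw [hval] at hlim
  have hlt : 1 / (k : ℝ) ^ n - ((n + 1).factorial : ℝ) / (((n : ℝ) + 1) * k) ^ (n + 1) <
      1 / (k : ℝ) ^ n - ((n + 1).factorial : ℝ) / (((n : ℝ) + 1) * k) ^ (n + 1) + η := by linarith
  set L : ℝ := 1 / (k : ℝ) ^ n - ((n + 1).factorial : ℝ) / (((n : ℝ) + 1) * k) ^ (n + 1) with hL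
  have hev := hlim.eventually_lt_const hlt
  obtain ⟨N₁, hN₁⟩ := Filter.eventually_atTop.1 hev
  refine ⟨max N₁ (max (n + 1) (k * (n + 1))), fun N hN => ?_⟩
  have hN1 := hN₁ N ((le_max_left _ _).trans hN)
  have hNn : n + 1 ≤ N := ((le_max_left _ _).trans (le_max_right _ _)).trans hN
  have hNK : k * (n + 1) ≤ N := ((le_max_right _ _).trans (le_max_right _ _)).trans hN
  have hsub : (0 : ℝ) < (N : ℝ) - n := by
    have : (n : ℝ) + 1 ≤ N := by exact_mod_cast hNn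
    linarith
  -- the two bounds for `p`
  have hKpos : 0 < k * (n + 1) := Nat.mul_pos (by omega) (by omega)
  have hp1 : ((N / (k * (n + 1)) : ℕ) : ℝ) ≤ (N : ℝ) / ((k : ℝ) * ((n : ℝ) + 1)) := by
    have := Nat.cast_div_le (α := ℝ) (m := N) (n := k * (n + 1))
    push_cast at this
    exact this
  have hp2 : (N : ℝ) / ((k : ℝ) * ((n : ℝ) + 1)) - 1 ≤ ((N / (k * (n + 1)) : ℕ) : ℝ) := by
    have h1 : N < k * (n + 1) * (N / (k * (n + 1)) + 1) := by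
      have := Nat.lt_mul_div_succ N hKpos
      exact this
    have h2 : (N : ℝ) < (k : ℝ) * ((n : ℝ) + 1) * (((N / (k * (n + 1)) : ℕ) : ℝ) + 1) := by
      exact_mod_cast h1
    have h3 : (N : ℝ) / ((k : ℝ) * ((n : ℝ) + 1)) < ((N / (k * (n + 1)) : ℕ) : ℝ) + 1 := by
      rw [div_lt_iff₀ hK0]
      linarith
    linarith
  have hp3 : 0 ≤ (N : ℝ) / ((k : ℝ) * ((n : ℝ) + 1)) - 1 := by
    have h1 : (k : ℝ) * ((n : ℝ) + 1) ≤ N := by exact_mod_cast hNK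
    have h2 : 1 ≤ (N : ℝ) / ((k : ℝ) * ((n : ℝ) + 1)) := by
      rw [le_div_iff₀ hK0]
      linarith
    linarith
  -- the bound of `BlockA`
  have hA := f_add_pow_le (n := n) (k := k) (N := N) hn hk hs hst
  have hA' : (f N (n + 1) s t : ℝ) + ((N / (k * (n + 1)) : ℕ) : ℝ) ^ (n + 1) ≤
      k * (((n + 1) * (N / (k * (n + 1)) + 1)).choose (n + 1) : ℝ) := by exact_mod_cast hA
  have hu : ((((n + 1) * (N / (k * (n + 1)) + 1)).choose (n + 1) : ℕ) : ℝ) ≤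
      ((N : ℝ) / k + ((n : ℝ) + 1)) ^ (n + 1) / ((n + 1).factorial : ℝ) := by
    refine (Nat.choose_le_pow_div (n + 1) ((n + 1) * (N / (k * (n + 1)) + 1))).trans ?_
    have h1 : (((n + 1) * (N / (k * (n + 1)) + 1) : ℕ) : ℝ) ≤ (N : ℝ) / k + ((n : ℝ) + 1) := by
      push_cast
      have h2 : ((n : ℝ) + 1) * (((N / (k * (n + 1)) : ℕ) : ℝ) + 1) ≤
          ((n : ℝ) + 1) * ((N : ℝ) / ((k : ℝ) * ((n : ℝ) + 1)) + 1) :=
        mul_le_mul_of_nonneg_left (by linarith) hr0.le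
      have h3 : ((n : ℝ) + 1) * ((N : ℝ) / ((k : ℝ) * ((n : ℝ) + 1)) + 1) =
          (N : ℝ) / k + ((n : ℝ) + 1) := by
        field_simp
      rw [h3] at h2
      exact h2
    gcongr
  have hl : ((N : ℝ) - n) ^ (n + 1) / ((n + 1).factorial : ℝ) ≤ (N.choose (n + 1) : ℝ) := by
    have h1 := Nat.pow_le_choose (α := ℝ) (n + 1) N
    have h2 : N + 1 - (n + 1) = N - n := by omega
    rw [h2] at h1
    have h3 : (((N - n : ℕ)) : ℝ) = (N : ℝ) - n := by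
      rw [Nat.cast_sub (by omega)]
    rw [← h3]
    exact_mod_cast h1
  have hpow : (0 : ℝ) < ((N : ℝ) - n) ^ (n + 1) := pow_pos hsub _
  have hlow : ((N : ℝ) / ((k : ℝ) * ((n : ℝ) + 1)) - 1) ^ (n + 1) ≤
      ((N / (k * (n + 1)) : ℕ) : ℝ) ^ (n + 1) := pow_le_pow_left₀ hp3 hp2 (n + 1)
  -- the main inequality
  have hmain : (k : ℝ) * ((N : ℝ) / k + ((n : ℝ) + 1)) ^ (n + 1) -
      ((n + 1).factorial : ℝ) * ((N : ℝ) / ((k : ℝ) * ((n : ℝ) + 1)) - 1) ^ (n + 1) ≤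
      (L + η) * ((N : ℝ) - n) ^ (n + 1) := by
    have e1 : 1 / (k : ℝ) * (N : ℝ) + ((n : ℝ) + 1) = (N : ℝ) / k + ((n : ℝ) + 1) := by ring
    have e2 : 1 / ((k : ℝ) * ((n : ℝ) + 1)) * (N : ℝ) + -1 =
        (N : ℝ) / ((k : ℝ) * ((n : ℝ) + 1)) - 1 := by ring
    rw [e1, e2, div_pow, div_pow] at hN1
    have h1 : (k : ℝ) * (((N : ℝ) / k + ((n : ℝ) + 1)) ^ (n + 1) / ((N : ℝ) - n) ^ (n + 1)) -
        ((n + 1).factorial : ℝ) * (((N : ℝ) / ((k : ℝ) * ((n : ℝ) + 1)) - 1) ^ (n + 1) /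
          ((N : ℝ) - n) ^ (n + 1)) =
        ((k : ℝ) * ((N : ℝ) / k + ((n : ℝ) + 1)) ^ (n + 1) -
          ((n + 1).factorial : ℝ) * ((N : ℝ) / ((k : ℝ) * ((n : ℝ) + 1)) - 1) ^ (n + 1)) /
          ((N : ℝ) - n) ^ (n + 1) := by ring
    rw [h1, div_lt_iff₀ hpow] at hN1
    exact hN1.le
  have hf : (f N (n + 1) s t : ℝ) ≤ (L + η) * (((N : ℝ) - n) ^ (n + 1) / ((n + 1).factorial : ℝ)) := by
    have h1 : (f N (n + 1) s t : ℝ) ≤
        k * (((N : ℝ) / k + ((n : ℝ) + 1)) ^ (n + 1) / ((n + 1).factorial : ℝ)) -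
          ((N : ℝ) / ((k : ℝ) * ((n : ℝ) + 1)) - 1) ^ (n + 1) := by
      have := mul_le_mul_of_nonneg_left hu hk0.le
      linarith
    have h2 : k * (((N : ℝ) / k + ((n : ℝ) + 1)) ^ (n + 1) / ((n + 1).factorial : ℝ)) -
          ((N : ℝ) / ((k : ℝ) * ((n : ℝ) + 1)) - 1) ^ (n + 1) =
        ((k : ℝ) * ((N : ℝ) / k + ((n : ℝ) + 1)) ^ (n + 1) -
          ((n + 1).factorial : ℝ) * ((N : ℝ) / ((k : ℝ) * ((n : ℝ) + 1)) - 1) ^ (n + 1)) /
          ((n + 1).factorial : ℝ) := by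
      field_simp
    rw [h2] at h1
    refine h1.trans ?_
    rw [← mul_div_assoc]
    exact div_le_div_of_nonneg_right hmain hfac.le
  have hLη : 0 ≤ L + η := by
    have h1 : (0 : ℝ) ≤ (f N (n + 1) s t : ℝ) := Nat.cast_nonneg _
    have h2 : (0 : ℝ) < ((N : ℝ) - n) ^ (n + 1) / ((n + 1).factorial : ℝ) := div_pos hpow hfac
    by_contra h3
    push Not at h3
    have := mul_neg_of_neg_of_pos h3 h2
    linarith
  exact hf.trans (mul_le_mul_of_nonneg_left hl hLη)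

end Pool.Agent.Lib.MP_455133_co.BT
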