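import Mathlib
import Pool.Agent.Lib.MP_455133_co.BT.Reg

/-!
The weight of the edges through `v` inside its class.
-/

namespace Pool.Agent.Lib.MP_455133_co.BT

open Finset
open Pool.Agent.Lib.MP_455133_co.BO (wt lnk)

variable {V Y : Type} [Fintype V] [DecidableEq V] [Fintype Y] {n k m : ℕ}

/-- The `n`-tuples of vertices of the class `q` that form an edge with `v`. -/
def Cls.E {c : Cfg V Y n k} (d : Cls c m) (q : Fin m) (v : V) : Finset (Fin n → V) :=
  (Fintype.piFinset fun _ : Fin n => univ.filter fun u => d.π u = q).filter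
    fun w => insert v (univ.image w) ∈ c.H

/-- Let `v ∈ I y`, `y ∉ X q` and `cw q > 1`. The link of `v` (`lnk c.H n v`) contains the
`n`-tuples of the class `q` that are not in `E q v`, of weight `cw q ^ n - (weight of E q v)`, and
the `n`-tuples with all entries in `I y` but not all entries of class `q`, of weight
`a y ^ n - tw q y ^ n` (`sum_box` for `I y` and for `(c.I y).filter (fun v => d.π v = q)`).
These are disjoint, so by `hlink` the weight of `E q v` is at least
`cw q ^ n - 1 + a y ^ n - tw q y ^ n > a y ^ n - tw q y ^ n > a y ^ n / 2`, the last by `y ∉ X q`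
(`mem_X`, `I y` is nonempty). -/
theorem link_gt {c : Cfg V Y n k} (d : Cls c m) (q : Fin m) (hq : 1 < d.cw q) {v : V} {y : Y}
    (hv : v ∈ c.I y) (hy : y ∉ d.X q) :
    c.a y ^ n / 2 < ∑ w ∈ d.E q v, ∏ i, c.ξ (w i) := by
  classical
  set f : (Fin n → V) → ℝ := fun w => ∏ i, c.ξ (w i) with hf
  set A : Finset (Fin n → V) :=
    Fintype.piFinset fun _ : Fin n => univ.filter fun u => d.π u = q with hA
  set B : Finset (Fin n → V) := Fintype.piFinset fun _ : Fin n => c.I y with hB
  have hAsum : ∑ w ∈ A, f w = d.cw q ^ n := sum_box c.ξ n _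
  have hBsum : ∑ w ∈ B, f w = c.a y ^ n := sum_box c.ξ n _
  have hCsum : ∑ w ∈ B.filter (fun w => ∀ i, d.π (w i) = q), f w = d.tw q y ^ n := by
    have e : B.filter (fun w => ∀ i, d.π (w i) = q) =
        Fintype.piFinset (fun _ : Fin n => (c.I y).filter (fun v => d.π v = q)) := by
      ext w
      simp only [hB, mem_filter, Fintype.mem_piFinset]
      exact forall_and.symm
    rw [e]
    exact sum_box c.ξ n _
  have hAsplit : ∑ w ∈ A, f w =
      ∑ w ∈ d.E q v, f w + ∑ w ∈ A.filter (fun w => ¬ insert v (univ.image w) ∈ c.H), f w :=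
    (sum_filter_add_sum_filter_not A (fun w => insert v (univ.image w) ∈ c.H) f).symm
  have hBsplit : ∑ w ∈ B, f w = ∑ w ∈ B.filter (fun w => ∀ i, d.π (w i) = q), f w +
      ∑ w ∈ B.filter (fun w => ¬ ∀ i, d.π (w i) = q), f w :=
    (sum_filter_add_sum_filter_not B (fun w => ∀ i, d.π (w i) = q) f).symm
  have hdis : Disjoint (A.filter (fun w => ¬ insert v (univ.image w) ∈ c.H))
      (B.filter (fun w => ¬ ∀ i, d.π (w i) = q)) := by
    rw [Finset.disjoint_left]
    intro w hw hw'
    apply (mem_filter.1 hw').2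
    intro i
    have h1 := (Fintype.mem_piFinset.1 (mem_filter.1 hw).1) i
    exact (mem_filter.1 h1).2
  have hle : ∑ w ∈ A.filter (fun w => ¬ insert v (univ.image w) ∈ c.H), f w +
      ∑ w ∈ B.filter (fun w => ¬ ∀ i, d.π (w i) = q), f w ≤ 1 := by
    rw [← sum_union hdis]
    refine le_trans ?_ (c.hlink v)
    apply sum_le_sum_of_subset_of_nonneg
    · intro w hw
      rw [mem_union] at hw
      rcases hw with hw | hw
      · unfold lnk
        exact mem_filter.2 ⟨mem_univ _, (mem_filter.1 hw).2⟩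
      · exact Box_mem c hv (fun i => (Fintype.mem_piFinset.1 (mem_filter.1 hw).1) i)
    · intro w _ _
      exact Box_nonneg c w
  have hcw : 1 < d.cw q ^ n := one_lt_pow₀ hq (by have := c.hn; omega)
  have htw : 2 * d.tw q y ^ n < c.a y ^ n := by
    by_contra hcon
    exact hy ((mem_X d q y).2 ⟨⟨v, hv⟩, not_lt.1 hcon⟩)
  have h1 : ∑ w ∈ d.E q v, f w =
      d.cw q ^ n - ∑ w ∈ A.filter (fun w => ¬ insert v (univ.image w) ∈ c.H), f w := by
    linarith
  show c.a y ^ n / 2 < ∑ w ∈ d.E q v, f w
  linarith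

end Pool.Agent.Lib.MP_455133_co.BT
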