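import Mathlib
import Pool.Agent.Lib.MP_455133_co.BT.Beta
import Pool.Agent.Lib.MP_455133_co.BT.LinkM

/-!
Exponential bound for the weight of the edges through `v` inside its class.
-/

namespace Pool.Agent.Lib.MP_455133_co.BT

open Finset
open Pool.Agent.Lib.MP_455133_co.BO (wt lnk)

variable {V Y : Type} [Fintype V] [DecidableEq V] [Fintype Y] {n k m : ℕ}

/-- Convexity of `exp` on `[0, 1]` and `exp 1 ≤ 11 / 4`. -/
theorem exp_le_lin {x : ℝ} (h0 : 0 ≤ x) (h1 : x ≤ 1) : Real.exp x ≤ 1 + 7 / 4 * x := by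
  have h2 := convexOn_exp.2 (Set.mem_univ (0 : ℝ)) (Set.mem_univ (1 : ℝ))
    (by linarith : (0 : ℝ) ≤ 1 - x) h0 (by ring)
  simp only [smul_eq_mul, mul_zero, mul_one, zero_add, Real.exp_zero] at h2
  have h3 := Real.exp_one_lt_d9
  nlinarith

/-- For `w ∈ E q v`: `9 / 10 - b ≤ ∑ β (w i)` by `tuple_beta`, so
`1 ≤ exp (-(9 / 10 - b) / b) * ∏ exp (β (w i) / b)`. Sum over all `n`-tuples of the class `q`
(`Finset.prod_univ_sum`). -/
theorem E_le_pow {c : Cfg V Y n k} (hn : 5 ≤ n) (h8 : n * c.ε ≤ 1 / 8) (d : Cls c m)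
    (q : Fin m) {b : ℝ} (hb : 0 < b) {v : V} (hv : d.β q v ≤ b) :
    ∑ w ∈ d.E q v, ∏ i, c.ξ (w i) ≤ Real.exp (-(9 / 10 - b) / b) *
      (∑ u ∈ univ.filter (fun u => d.π u = q), c.ξ u * Real.exp (d.β q u / b)) ^ n := by
  have h1 : ∀ w ∈ d.E q v, ∏ i, c.ξ (w i) ≤ Real.exp (-(9 / 10 - b) / b) *
      ∏ i, (c.ξ (w i) * Real.exp (d.β q (w i) / b)) := by
    intro w hw
    have hw2 : insert v (univ.image w) ∈ c.H := (Finset.mem_filter.1 hw).2
    have h2 := tuple_beta hn h8 d q v w hw2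
    have h3 : 1 ≤ Real.exp (-(9 / 10 - b) / b) * ∏ i, Real.exp (d.β q (w i) / b) := by
      rw [← Real.exp_sum, ← Real.exp_add, Real.one_le_exp_iff, ← Finset.sum_div, ← add_div]
      apply div_nonneg _ hb.le
      linarith
    have h4 : 0 ≤ ∏ i, c.ξ (w i) := Finset.prod_nonneg (fun i _ => (c.hξ _).le)
    rw [Finset.prod_mul_distrib]
    calc ∏ i, c.ξ (w i) = (∏ i, c.ξ (w i)) * 1 := (mul_one _).symm
      _ ≤ (∏ i, c.ξ (w i)) * (Real.exp (-(9 / 10 - b) / b) *
          ∏ i, Real.exp (d.β q (w i) / b)) := mul_le_mul_of_nonneg_left h3 h4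
      _ = _ := by ring
  refine (Finset.sum_le_sum h1).trans ?_
  rw [← Finset.mul_sum]
  apply mul_le_mul_of_nonneg_left _ (Real.exp_pos _).le
  have h5 : (∑ u ∈ univ.filter (fun u => d.π u = q), c.ξ u * Real.exp (d.β q u / b)) ^ n =
      ∑ w ∈ Fintype.piFinset (fun _ : Fin n => univ.filter fun u => d.π u = q),
        ∏ i, (c.ξ (w i) * Real.exp (d.β q (w i) / b)) := by
    rw [← Finset.prod_univ_sum (fun _ : Fin n => univ.filter fun u => d.π u = q)
      (fun _ u => c.ξ u * Real.exp (d.β q u / b))]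
    rw [Finset.prod_const, Finset.card_univ, Fintype.card_fin]
  rw [h5]
  apply Finset.sum_le_sum_of_subset_of_nonneg
  · exact Finset.filter_subset _ _
  · intro w _ _
    exact Finset.prod_nonneg (fun i _ => mul_nonneg (c.hξ _).le (Real.exp_pos _).le)

/-- `exp_le_lin`, `sum_beta` and `cw_le8`: the sum in `E_le_pow` is at most
`cw q * (1 + 7 / (20 n b))` and `cw q ≤ 1 + 10 / 9 ε ≤ 1 + 5 / (36 n)`; then `1 + x ≤ exp x`. -/
theorem E_le {c : Cfg V Y n k} (hn : 5 ≤ n) (h8 : n * c.ε ≤ 1 / 8) (d : Cls c m)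
    (hm : m = k) (q : Fin m) {b : ℝ} (hb : 0 < b)
    (hβ : ∀ u, d.π u = q → d.β q u ≤ b) {v : V} (hv : d.π v = q) :
    ∑ w ∈ d.E q v, ∏ i, c.ξ (w i) ≤ Real.exp (41 / 36 - 11 / 20 / b) := by
  have hn0 : (0 : ℝ) < n := by
    have : 0 < n := by omega
    exact_mod_cast this
  refine (E_le_pow hn h8 d q hb (hβ v hv)).trans ?_
  have hS : ∑ u ∈ univ.filter (fun u => d.π u = q), c.ξ u * Real.exp (d.β q u / b) ≤
      d.cw q * (1 + 7 / (20 * n * b)) := by
    have h1 : ∀ u ∈ univ.filter (fun u => d.π u = q), c.ξ u * Real.exp (d.β q u / b) ≤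
        c.ξ u + 7 / (4 * b) * (c.ξ u * d.β q u) := by
      intro u hu
      have hu2 : d.π u = q := (Finset.mem_filter.1 hu).2
      have h2 : Real.exp (d.β q u / b) ≤ 1 + 7 / 4 * (d.β q u / b) :=
        exp_le_lin (div_nonneg (beta_nonneg d q u) hb.le) ((div_le_one hb).2 (hβ u hu2))
      calc c.ξ u * Real.exp (d.β q u / b) ≤ c.ξ u * (1 + 7 / 4 * (d.β q u / b)) :=
            mul_le_mul_of_nonneg_left h2 (c.hξ u).le
        _ = c.ξ u + 7 / (4 * b) * (c.ξ u * d.β q u) := by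
            field_simp
    refine (Finset.sum_le_sum h1).trans ?_
    rw [Finset.sum_add_distrib, ← Finset.mul_sum]
    have h3 := sum_beta hn h8 d hm q
    have h4 : ∑ u ∈ univ.filter (fun u => d.π u = q), c.ξ u = d.cw q := rfl
    rw [h4]
    calc d.cw q + 7 / (4 * b) * ∑ u ∈ univ.filter (fun u => d.π u = q), c.ξ u * d.β q u
        ≤ d.cw q + 7 / (4 * b) * (d.cw q * (1 / (5 * n))) := by
          have : 0 ≤ 7 / (4 * b) := by positivity
          have := mul_le_mul_of_nonneg_left h3 this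
          linarith
      _ = d.cw q * (1 + 7 / (20 * n * b)) := by
          field_simp
          ring
  have hS0 : 0 ≤ ∑ u ∈ univ.filter (fun u => d.π u = q), c.ξ u * Real.exp (d.β q u / b) :=
    Finset.sum_nonneg (fun u _ => mul_nonneg (c.hξ u).le (Real.exp_pos _).le)
  have hcw : d.cw q ≤ 1 + 5 / (36 * n) := by
    have h1 := cw_le8 hn h8 d q
    have h2 : c.ε ≤ 1 / (8 * n) := by
      rw [le_div_iff₀ (by positivity)]
      linarith
    have h3 : 10 / 9 * (1 / (8 * (n : ℝ))) = 5 / (36 * n) := by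
      field_simp
      norm_num
    linarith
  have hcwe : d.cw q ≤ Real.exp (5 / (36 * n)) := by
    have := Real.add_one_le_exp (5 / (36 * (n : ℝ)))
    linarith
  have hbe : 1 + 7 / (20 * n * b) ≤ Real.exp (7 / (20 * n * b)) := by
    have := Real.add_one_le_exp (7 / (20 * (n : ℝ) * b))
    linarith
  have hS2 : ∑ u ∈ univ.filter (fun u => d.π u = q), c.ξ u * Real.exp (d.β q u / b) ≤
      Real.exp (5 / (36 * n) + 7 / (20 * n * b)) := by
    rw [Real.exp_add]
    refine hS.trans ?_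
    apply mul_le_mul hcwe hbe (by positivity) (Real.exp_pos _).le
  calc Real.exp (-(9 / 10 - b) / b) *
        (∑ u ∈ univ.filter (fun u => d.π u = q), c.ξ u * Real.exp (d.β q u / b)) ^ n
      ≤ Real.exp (-(9 / 10 - b) / b) * (Real.exp (5 / (36 * n) + 7 / (20 * n * b))) ^ n := by
        apply mul_le_mul_of_nonneg_left _ (Real.exp_pos _).le
        exact pow_le_pow_left₀ hS0 hS2 n
    _ = Real.exp (41 / 36 - 11 / 20 / b) := by
        rw [← Real.exp_nat_mul, ← Real.exp_add]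
        congr 1
        field_simp
        ring

end Pool.Agent.Lib.MP_455133_co.BT
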