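import Mathlib
import Pool.Agent.Lib.MP_455133_co.BO.Opt

/-!
A maximiser with covered pairs.
-/

namespace Pool.Agent.Lib.MP_455133_co.BT

open Finset
open Pool.Agent.Lib.MP_455133_co.BO (dens ldens dens_nonneg dens_eq dens_move)

variable {V : Type} [Fintype V] [DecidableEq V]

omit [Fintype V] [DecidableEq V] in
private theorem Cov_prod {n : ℕ} {x x' : V → ℝ} {u : V} {w : Fin (n + 1) → V} {i₀ : Fin (n + 1)} (hi : w i₀ = u)
    (h : ∀ i, i ≠ i₀ → x' (w i) = x (w i)) :
    ∏ i, x' (w i) = x' u * ∏ i ∈ univ.erase i₀, x (w i) := by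
  rw [← Finset.mul_prod_erase univ (fun i => x' (w i)) (mem_univ i₀), hi]
  congr 1
  exact Finset.prod_congr rfl fun i hi' => h i (Finset.ne_of_mem_erase hi')

/-- Let no edge contain both `u` and `v`. A tuple `w` of `dens` is injective (its image has
`n + 1` elements), so `u` and `v` occur at most once in it, and not both. Hence, tuple by tuple,
`(x u + x v) dens x = x u * dens x¹ + x v * dens x²`, where `x¹` has all the weight of `v` moved
to `u` and `x²` all the weight of `u` moved to `v`. -/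
theorem dens_merge (H : Finset (Finset V)) (n : ℕ) (hH : ∀ e ∈ H, e.card = n + 1) (x : V → ℝ)
    {u v : V} (huv : u ≠ v) (hno : ∀ e ∈ H, ¬ (u ∈ e ∧ v ∈ e)) :
    (x u + x v) * dens H n x =
      x u * dens H n (fun a => if a = u then x u + x v else if a = v then 0 else x a) +
      x v * dens H n (fun a => if a = v then x u + x v else if a = u then 0 else x a) := by
  unfold Pool.Agent.Lib.MP_455133_co.BO.dens
  rw [Finset.mul_sum, Finset.mul_sum, Finset.mul_sum, ← Finset.sum_add_distrib]
  refine Finset.sum_congr rfl fun w hw => ?_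
  have hwH : univ.image w ∈ H := (mem_filter.mp hw).2
  have hinj : Function.Injective w := by
    have h1 := hH _ hwH
    have h2 : (univ.image w).card = (univ : Finset (Fin (n + 1))).card := by
      rw [h1, card_univ, Fintype.card_fin]
    have h3 := Finset.card_image_iff.mp h2
    intro a b hab
    exact h3 (mem_coe.mpr (mem_univ a)) (mem_coe.mpr (mem_univ b)) hab
  have hno' := hno _ hwH
  set x1 : V → ℝ := fun a => if a = u then x u + x v else if a = v then 0 else x a with hx1
  set x2 : V → ℝ := fun a => if a = v then x u + x v else if a = u then 0 else x a with hx2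
  have f1 : x1 u = x u + x v := by simp [hx1]
  have f2 : x1 v = 0 := by simp [hx1, huv.symm]
  have f3 : x2 v = x u + x v := by simp [hx2]
  have f4 : x2 u = 0 := by simp [hx2, huv]
  have f5 : ∀ a, a ≠ u → a ≠ v → x1 a = x a := fun a h1 h2 => by simp [hx1, h1, h2]
  have f6 : ∀ a, a ≠ u → a ≠ v → x2 a = x a := fun a h1 h2 => by simp [hx2, h1, h2]
  by_cases hu : u ∈ univ.image w
  · have hv : v ∉ univ.image w := fun h => hno' ⟨hu, h⟩
    obtain ⟨i₀, -, hi⟩ := mem_image.mp hu
    have h1 : ∀ i, i ≠ i₀ → w i ≠ u := fun i hne h => hne (hinj (h.trans hi.symm))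
    have h2 : ∀ i, w i ≠ v := fun i h => hv (h ▸ mem_image_of_mem w (mem_univ i))
    rw [Cov_prod (x := x) (x' := x) hi (fun i _ => rfl),
      Cov_prod (x := x) (x' := x1) hi (fun i hne => f5 _ (h1 i hne) (h2 i)),
      Cov_prod (x := x) (x' := x2) hi (fun i hne => f6 _ (h1 i hne) (h2 i)), f1, f4]
    ring
  · have h1 : ∀ i, w i ≠ u := fun i h => hu (h ▸ mem_image_of_mem w (mem_univ i))
    by_cases hv : v ∈ univ.image w
    · obtain ⟨i₀, -, hi⟩ := mem_image.mp hv
      have h2 : ∀ i, i ≠ i₀ → w i ≠ v := fun i hne h => hne (hinj (h.trans hi.symm))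
      rw [Cov_prod (x := x) (x' := x) hi (fun i _ => rfl),
        Cov_prod (x := x) (x' := x1) hi (fun i hne => f5 _ (h1 i) (h2 i hne)),
        Cov_prod (x := x) (x' := x2) hi (fun i hne => f6 _ (h1 i) (h2 i hne)), f2, f3]
      ring
    · have h2 : ∀ i, w i ≠ v := fun i h => hv (h ▸ mem_image_of_mem w (mem_univ i))
      rw [Finset.prod_congr rfl fun i _ => f5 _ (h1 i) (h2 i),
        Finset.prod_congr rfl fun i _ => f6 _ (h1 i) (h2 i)]
      ring

private theorem Cov_move_mem {x : V → ℝ} (hx : x ∈ stdSimplex ℝ V) (v : V) {τ : ℝ}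
    (h0 : 0 ≤ τ) (h1 : τ ≤ 1) :
    (fun u => (1 - τ) * x u + τ * (if u = v then 1 else 0)) ∈ stdSimplex ℝ V := by
  refine ⟨fun u => ?_, ?_⟩
  · have h2 : (0 : ℝ) ≤ (if u = v then (1 : ℝ) else 0) := by split_ifs <;> norm_num
    have h3 := hx.1 u
    have h4 : 0 ≤ 1 - τ := by linarith
    positivity
  · rw [Finset.sum_add_distrib, ← Finset.mul_sum, ← Finset.mul_sum, hx.2,
      Finset.sum_ite_eq' univ v]
    simp

private theorem Cov_le (H : Finset (Finset V)) (n : ℕ) {x : V → ℝ} (hx : x ∈ stdSimplex ℝ V)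
    (hmax : ∀ y ∈ stdSimplex ℝ V, dens H n y ≤ dens H n x) (v : V) :
    ldens H n v x ≤ dens H n x := by
  have hD := dens_nonneg H n hx.1
  have key : ∀ τ : ℝ, 0 < τ → τ ≤ 1 → (1 - τ) ^ n * ldens H n v x ≤ dens H n x := by
    intro τ h0 h1
    have h2 := dens_move H n hx.1 v h0.le h1
    have h3 := hmax _ (Cov_move_mem hx v h0.le h1)
    have h4 := one_add_mul_le_pow (a := -τ) (by linarith) (n + 1)
    have h5 : (1 + -τ) ^ (n + 1) = (1 - τ) ^ (n + 1) := by ring
    rw [h5] at h4
    push_cast at h4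
    have h6 : ((n : ℝ) + 1) * (τ * ((1 - τ) ^ n * ldens H n v x)) ≤
        dens H n x * (((n : ℝ) + 1) * τ) := by
      have h7 : (n + 1) * (τ * ((1 - τ) ^ n * ldens H n v x)) ≤
          dens H n x * (1 - (1 - τ) ^ (n + 1)) := by linarith [h2.trans h3]
      refine h7.trans (mul_le_mul_of_nonneg_left ?_ hD)
      linarith
    have h8 : (0 : ℝ) < ((n : ℝ) + 1) * τ := by positivity
    by_contra h9
    push Not at h9
    have h10 := mul_lt_mul_of_pos_left h9 h8
    linarith
  have hc : Filter.Tendsto (fun τ : ℝ => (1 - τ) ^ n * ldens H n v x) (nhdsWithin 0 (Set.Ioi 0))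
      (nhds (ldens H n v x)) := by
    have h1 : Continuous fun τ : ℝ => (1 - τ) ^ n * ldens H n v x := by fun_prop
    have h2 := h1.tendsto 0
    simp only [sub_zero, one_pow, one_mul] at h2
    exact h2.mono_left nhdsWithin_le_nhds
  apply le_of_tendsto hc
  have h3 : Set.Ioc (0 : ℝ) 1 ∈ nhdsWithin (0 : ℝ) (Set.Ioi 0) :=
    Ioc_mem_nhdsGT one_pos
  filter_upwards [h3] with τ hτ
  exact key τ hτ.1 hτ.2

/-- Every maximiser satisfies the equality of `BO.exists_opt` (same proof). -/
theorem ldens_eq_of_max (H : Finset (Finset V)) (n : ℕ) {x : V → ℝ} (hx : x ∈ stdSimplex ℝ V)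
    (hmax : ∀ y ∈ stdSimplex ℝ V, dens H n y ≤ dens H n x) (v : V) (hv : 0 < x v) :
    ldens H n v x = dens H n x := by
  have hle := Cov_le H n hx hmax
  have h1 : ∑ u, x u * (dens H n x - ldens H n u x) = 0 := by
    have h2 := dens_eq H n x
    simp_rw [mul_sub]
    rw [Finset.sum_sub_distrib, ← Finset.sum_mul, hx.2, one_mul, ← h2, sub_self]
  have h3 := (Finset.sum_eq_zero_iff_of_nonneg (s := univ) fun u _ =>
    mul_nonneg (hx.1 u) (sub_nonneg.2 (hle u))).1 h1 v (Finset.mem_univ v)
  rcases mul_eq_zero.1 h3 with h4 | h4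
  · exact absurd h4 hv.ne'
  · linarith

private theorem Cov_merge_mem {x : V → ℝ} (hx : x ∈ stdSimplex ℝ V) {u v : V} (huv : u ≠ v) :
    (fun a => if a = u then x u + x v else if a = v then 0 else x a) ∈ stdSimplex ℝ V := by
  refine ⟨fun a => ?_, ?_⟩
  · have h1 := hx.1 u
    have h2 := hx.1 v
    have h3 := hx.1 a
    dsimp only
    split_ifs <;> linarith
  · have h1 : ∀ a, (if a = u then x u + x v else if a = v then 0 else x a) =
        x a + (if a = u then x v else 0) - (if a = v then x v else 0) := by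
      intro a
      by_cases h2 : a = u
      · subst h2
        simp [huv]
      · by_cases h3 : a = v
        · subst h3
          simp [h2]
        · simp [h2, h3]
    simp only [h1]
    rw [Finset.sum_sub_distrib, Finset.sum_add_distrib, hx.2, Finset.sum_ite_eq' univ u,
      Finset.sum_ite_eq' univ v]
    simp

/-- Take a maximiser (`BO.exists_opt`) with the least number of `v` with `x v > 0`. If `u ≠ v`
have positive weight and no edge contains both, `dens_merge` shows that `x¹` of `dens_merge` is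
another maximiser (both `dens x¹`, `dens x²` are at most `dens x`), with fewer such vertices. -/
theorem exists_opt_cov [Nonempty V] (H : Finset (Finset V)) (n : ℕ)
    (hH : ∀ e ∈ H, e.card = n + 1) :
    ∃ x ∈ stdSimplex ℝ V, (∀ y ∈ stdSimplex ℝ V, dens H n y ≤ dens H n x) ∧
      (∀ v, 0 < x v → ldens H n v x = dens H n x) ∧
      ∀ u v, 0 < x u → 0 < x v → u ≠ v → ∃ e ∈ H, u ∈ e ∧ v ∈ e := by
  classical
  let S : Set (V → ℝ) := {x | x ∈ stdSimplex ℝ V ∧ ∀ y ∈ stdSimplex ℝ V, dens H n y ≤ dens H n x}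
  let f : (V → ℝ) → ℕ := fun x => (univ.filter fun v => 0 < x v).card
  have hne : S.Nonempty := by
    obtain ⟨x, hx, hmax, -⟩ := Pool.Agent.Lib.MP_455133_co.BO.exists_opt H n
    exact ⟨x, hx, hmax⟩
  obtain ⟨x, ⟨hx, hmax⟩, hmin⟩ := WellFounded.has_min (measure f).wf S hne
  refine ⟨x, hx, hmax, fun v hv => ldens_eq_of_max H n hx hmax v hv, ?_⟩
  intro u v hu hv huv
  by_contra hcon
  push Not at hcon
  have hno : ∀ e ∈ H, ¬ (u ∈ e ∧ v ∈ e) := fun e he h => hcon e he h.1 h.2
  have key := dens_merge H n hH x huv hno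
  have m1 := hmax _ (Cov_merge_mem hx huv)
  have m2 := hmax _ (Cov_merge_mem hx huv.symm)
  rw [add_comm (x v) (x u)] at m2
  set x1 : V → ℝ := fun a => if a = u then x u + x v else if a = v then 0 else x a with hx1
  set x2 : V → ℝ := fun a => if a = v then x u + x v else if a = u then 0 else x a with hx2
  have h1 : dens H n x1 = dens H n x := by
    apply le_antisymm m1
    by_contra h2
    push Not at h2
    have h3 := mul_lt_mul_of_pos_left h2 hu
    have h4 := mul_le_mul_of_nonneg_left m2 hv.le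
    linarith
  have hmem : x1 ∈ S := ⟨Cov_merge_mem hx huv, fun y hy => by rw [h1]; exact hmax y hy⟩
  apply hmin x1 hmem
  show f x1 < f x
  apply Finset.card_lt_card
  rw [Finset.ssubset_iff_of_subset]
  · refine ⟨v, by simp [hv], ?_⟩
    simp [hx1, huv.symm]
  · intro a ha
    simp only [mem_filter, mem_univ, true_and] at ha ⊢
    by_cases h2 : a = u
    · rw [h2]; exact hu
    · by_cases h3 : a = v
      · rw [h3]; exact hv
      · simp only [hx1, if_neg h2, if_neg h3] at ha
        exact ha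

end Pool.Agent.Lib.MP_455133_co.BT
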