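import Mathlib

/-!
Fractionally covered families in which all pairs are covered.
-/

namespace Pool.Agent.Lib.MP_455133_co.BT

open Finset

variable {V Y : Type} [Fintype V] [DecidableEq V] [Fintype Y]

theorem CovM_miss (μ : Y → ℝ) (I : Y → Finset V)
    (hcov : ∀ v, 1 ≤ ∑ y ∈ univ.filter (fun y => v ∈ I y), μ y) (v : V) :
    ∑ y, (if v ∉ I y then μ y else 0) ≤ ∑ y, μ y - 1 := by
  have h1 : ∑ y, μ y = ∑ y, (if v ∈ I y then μ y else 0) + ∑ y, (if v ∉ I y then μ y else 0) := by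
    rw [← Finset.sum_add_distrib]
    refine Finset.sum_congr rfl fun y _ => ?_
    by_cases h : v ∈ I y <;> simp [h]
  have h2 := hcov v
  rw [Finset.sum_filter] at h2
  linarith

/-- Let `ζ = ∑ μ - 1`; the points `y` with `v ∉ I y` have weight at most `ζ`. Every `y` misses
an element of `g`, so for `x ≠ y'` in `g` the points missing both `x` and `y'` satisfy
`1 + [y misses x and y'] ≤ ∑_{v ∈ g} [y misses v]`; sum over `y` with weights `μ`. -/
theorem pair_le {n : ℕ} (H : Finset (Finset V)) (hH : ∀ e ∈ H, e.card = n + 1) (μ : Y → ℝ)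
    (I : Y → Finset V) (hμ : ∀ y, 0 ≤ μ y) (hI : ∀ y, ∀ e ∈ H, ¬ e ⊆ I y)
    (hcov : ∀ v, 1 ≤ ∑ y ∈ univ.filter (fun y => v ∈ I y), μ y) {g : Finset V} (hg : g ∈ H)
    {u v : V} (hu : u ∈ g) (hv : v ∈ g) (huv : u ≠ v) :
    ∑ y ∈ univ.filter (fun y => u ∉ I y ∧ v ∉ I y), μ y ≤ n * (∑ y, μ y - 1) - 1 := by
  have key : ∀ y, μ y + (if u ∉ I y ∧ v ∉ I y then μ y else 0) ≤ ∑ w ∈ g, (if w ∉ I y then μ y else 0) := by
    intro y
    have h0 : ∀ w ∈ g, 0 ≤ (if w ∉ I y then μ y else 0) := fun w _ => by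
      split_ifs <;> first | exact hμ y | exact le_rfl
    by_cases h : u ∉ I y ∧ v ∉ I y
    · rw [if_pos h]
      have h1 : ∑ w ∈ ({u, v} : Finset V), (if w ∉ I y then μ y else 0) ≤
          ∑ w ∈ g, (if w ∉ I y then μ y else 0) := by
        refine Finset.sum_le_sum_of_subset_of_nonneg ?_ fun w hw _ => h0 w hw
        intro w hw
        rcases Finset.mem_insert.1 hw with rfl | hw
        · exact hu
        · rw [Finset.mem_singleton.1 hw]; exact hv
      rw [Finset.sum_pair huv, if_pos h.1, if_pos h.2] at h1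
      exact h1
    · rw [if_neg h, add_zero]
      obtain ⟨w, hw, hwI⟩ := Finset.not_subset.1 (hI y g hg)
      have h1 := Finset.single_le_sum h0 hw
      rw [if_pos hwI] at h1
      exact h1
  have h1 := Finset.sum_le_sum fun y (_ : y ∈ univ) => key y
  rw [Finset.sum_add_distrib, Finset.sum_comm] at h1
  have h2 : ∑ w ∈ g, ∑ y, (if w ∉ I y then μ y else 0) ≤ ∑ w ∈ g, (∑ y, μ y - 1) :=
    Finset.sum_le_sum fun w _ => CovM_miss μ I hcov w
  rw [Finset.sum_const, hH g hg, nsmul_eq_mul] at h2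
  rw [Finset.sum_filter]
  push_cast at h2
  linarith

/-- Let `e, f ∈ H`, `i = card (e \ f)`, and let any `u ∈ e \ f`, `v ∈ f \ e` lie in a common
member of `H`. For every point `y`:
`1 ≤ ∑_{v ∈ e ∩ f} [y misses v] + ∑_{u ∈ e \ f, v ∈ f \ e} [y misses u and v]`. Summing with
weights `μ` and using `pair_le`, with `ζ = ∑ μ - 1`:
`1 + ζ ≤ (n + 1 - i) ζ + i ^ 2 (n ζ - 1)`. -/
theorem two_edges {n : ℕ} (H : Finset (Finset V)) (hH : ∀ e ∈ H, e.card = n + 1) (μ : Y → ℝ)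
    (I : Y → Finset V) (hμ : ∀ y, 0 ≤ μ y) (hI : ∀ y, ∀ e ∈ H, ¬ e ⊆ I y)
    (hcov : ∀ v, 1 ≤ ∑ y ∈ univ.filter (fun y => v ∈ I y), μ y) {e f : Finset V} (he : e ∈ H)
    (hf : f ∈ H) (hef : ∀ u ∈ e, ∀ v ∈ f, u ∉ f → v ∉ e → ∃ g ∈ H, u ∈ g ∧ v ∈ g) :
    (1 : ℝ) + ((e \ f).card : ℝ) ^ 2 ≤
      (∑ y, μ y - 1) * ((n : ℝ) - (e \ f).card + ((e \ f).card : ℝ) ^ 2 * n) := by
  have key : ∀ y, μ y ≤ ∑ w ∈ e ∩ f, (if w ∉ I y then μ y else 0) +
      ∑ u ∈ e \ f, ∑ v ∈ f \ e, (if u ∉ I y ∧ v ∉ I y then μ y else 0) := by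
    intro y
    have h0 : ∀ w ∈ e ∩ f, 0 ≤ (if w ∉ I y then μ y else 0) := fun w _ => by
      split_ifs <;> first | exact hμ y | exact le_rfl
    have h0' : ∀ u ∈ e \ f, ∀ v ∈ f \ e, 0 ≤ (if u ∉ I y ∧ v ∉ I y then μ y else 0) := fun u _ v _ => by
      split_ifs <;> first | exact hμ y | exact le_rfl
    obtain ⟨u, hu, huI⟩ := Finset.not_subset.1 (hI y e he)
    obtain ⟨v, hv, hvI⟩ := Finset.not_subset.1 (hI y f hf)
    by_cases hu2 : u ∈ f
    · have h1 := Finset.single_le_sum h0 (Finset.mem_inter.2 ⟨hu, hu2⟩)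
      rw [if_pos huI] at h1
      have h2 := Finset.sum_nonneg fun u hu => Finset.sum_nonneg fun v hv => h0' u hu v hv
      linarith
    · by_cases hv2 : v ∈ e
      · have h1 := Finset.single_le_sum h0 (Finset.mem_inter.2 ⟨hv2, hv⟩)
        rw [if_pos hvI] at h1
        have h2 := Finset.sum_nonneg fun u hu => Finset.sum_nonneg fun v hv => h0' u hu v hv
        linarith
      · have hu3 := Finset.mem_sdiff.2 ⟨hu, hu2⟩
        have hv3 := Finset.mem_sdiff.2 ⟨hv, hv2⟩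
        have h1 := Finset.single_le_sum (fun u hu => Finset.sum_nonneg fun v hv => h0' u hu v hv) hu3
        have h2 := Finset.single_le_sum (fun v hv => h0' u hu3 v hv) hv3
        rw [if_pos ⟨huI, hvI⟩] at h2
        have h3 := Finset.sum_nonneg h0
        linarith
  have h1 := Finset.sum_le_sum fun y (_ : y ∈ univ) => key y
  rw [Finset.sum_add_distrib, Finset.sum_comm] at h1
  have h2 : ∑ w ∈ e ∩ f, ∑ y, (if w ∉ I y then μ y else 0) ≤ ∑ w ∈ e ∩ f, (∑ y, μ y - 1) :=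
    Finset.sum_le_sum fun w _ => CovM_miss μ I hcov w
  rw [Finset.sum_const, nsmul_eq_mul] at h2
  have h3 : ∑ y, ∑ u ∈ e \ f, ∑ v ∈ f \ e, (if u ∉ I y ∧ v ∉ I y then μ y else 0) ≤
      ∑ u ∈ e \ f, ∑ v ∈ f \ e, ((n : ℝ) * (∑ y, μ y - 1) - 1) := by
    rw [Finset.sum_comm]
    refine Finset.sum_le_sum fun u hu => ?_
    rw [Finset.sum_comm]
    refine Finset.sum_le_sum fun v hv => ?_
    rw [Finset.mem_sdiff] at hu hv
    obtain ⟨g, hg, hug, hvg⟩ := hef u hu.1 v hv.1 hu.2 hv.2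
    have h4 := pair_le H hH μ I hμ hI hcov hg hug hvg (fun h => hu.2 (h ▸ hv.1))
    rwa [Finset.sum_filter] at h4
  rw [Finset.sum_const, Finset.sum_const, nsmul_eq_mul, nsmul_eq_mul] at h3
  have c1 : (e ∩ f).card + (e \ f).card = n + 1 := by
    rw [← hH e he]; exact Finset.card_inter_add_card_sdiff e f
  have c2 : (f \ e).card = (e \ f).card := by
    have h4 := Finset.card_inter_add_card_sdiff f e
    rw [hH f hf, Finset.inter_comm] at h4
    omega
  rw [c2] at h3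
  have c3 : ((e ∩ f).card : ℝ) = n + 1 - ((e \ f).card : ℝ) := by
    have : (((e ∩ f).card + (e \ f).card : ℕ) : ℝ) = ((n + 1 : ℕ) : ℝ) := by rw [c1]
    push_cast at this
    linarith
  rw [c3] at h2
  nlinarith [h1, h2, h3]

end Pool.Agent.Lib.MP_455133_co.BT
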