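import Mathlib
import Pool.Agent.Lib.MP_455133_co.BT.Count

/-!
An edge inside a heavy class.
-/

namespace Pool.Agent.Lib.MP_455133_co.BT

open Finset
open Pool.Agent.Lib.MP_455133_co.BO (wt lnk)

variable {V Y : Type} [Fintype V] [DecidableEq V] [Fintype Y] {n k m : ℕ}

/-- If all members of the class `q` were pairwise without a member of `H`, all `n`-tuples of the
class would be in the link of a vertex `v` of the class and `cw q ^ n ≤ 1`. -/
theorem exists_edge {c : Cfg V Y n k} (d : Cls c m) (q : Fin m) (hq : 1 < d.cw q) :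
    ∃ e ∈ c.H, ∀ v ∈ e, d.π v = q := by
  by_contra hcon
  push Not at hcon
  obtain ⟨v, hv⟩ := d.hsurj q
  set S : Finset V := univ.filter (fun v => d.π v = q) with hS
  have hsub : Fintype.piFinset (fun _ : Fin n => S) ⊆ lnk c.H n v := by
    intro w hw
    rw [Fintype.mem_piFinset] at hw
    unfold lnk
    rw [mem_filter]
    refine ⟨mem_univ _, fun he => ?_⟩
    obtain ⟨u, hu, hne⟩ := hcon _ he
    apply hne
    rw [mem_insert] at hu
    rcases hu with rfl | hu
    · exact hv
    · obtain ⟨i, _, rfl⟩ := mem_image.1 hu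
      exact (mem_filter.1 (hw i)).2
  have h1 : ∑ w ∈ Fintype.piFinset (fun _ : Fin n => S), ∏ i, c.ξ (w i) ≤ 1 :=
    (sum_le_sum_of_subset_of_nonneg hsub
      (fun w _ _ => prod_nonneg (fun i _ => (c.hξ (w i)).le))).trans (c.hlink v)
  rw [sum_box] at h1
  have h2 : wt c.ξ S = d.cw q := rfl
  rw [h2] at h1
  have hn : n ≠ 0 := by have := c.hn; omega
  exact absurd h1 (not_le.2 (one_lt_pow₀ hq hn))

/-- Let `e ∈ H`. Each `I y` misses an element of `e`, so `card (I y ∩ e) ≤ n` and
`n * [I y ∩ e ≠ ∅] ≥ card (I y ∩ e)`; sum with weights `μ` and use `hcov`. -/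
theorem edge_cover (c : Cfg V Y n k) {e : Finset V} (he : e ∈ c.H) :
    1 + 1 / (n : ℝ) ≤ ∑ y ∈ univ.filter (fun y => (c.I y ∩ e).Nonempty), c.μ y := by
  have hn : (0 : ℝ) < n := by
    have := c.hn
    have h : 0 < n := by omega
    exact_mod_cast h
  have hcard : ∀ y, (c.I y ∩ e).card ≤ n := by
    intro y
    have h1 : (c.I y ∩ e).card < e.card := by
      apply card_lt_card
      rw [ssubset_iff_subset_ne]
      refine ⟨inter_subset_right, fun h => ?_⟩
      exact c.hI y e he (inter_eq_right.1 h)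
    have := c.hH e he
    omega
  have h2 : ((n : ℝ) + 1) ≤ ∑ v ∈ e, ∑ y ∈ univ.filter (fun y => v ∈ c.I y), c.μ y := by
    have h3 : ∑ v ∈ e, (1 : ℝ) ≤ ∑ v ∈ e, ∑ y ∈ univ.filter (fun y => v ∈ c.I y), c.μ y :=
      sum_le_sum (fun v _ => c.hcov v)
    rw [sum_const, c.hH e he, nsmul_eq_mul, mul_one] at h3
    push_cast at h3
    exact h3
  have h4 : ∑ v ∈ e, ∑ y ∈ univ.filter (fun y => v ∈ c.I y), c.μ y =
      ∑ y, c.μ y * ((c.I y ∩ e).card : ℝ) := by
    simp only [sum_filter]
    rw [sum_comm]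
    refine sum_congr rfl (fun y _ => ?_)
    rw [← sum_filter, sum_const, nsmul_eq_mul, mul_comm]
    congr 3
    ext v
    simp only [mem_filter, mem_inter]
    exact and_comm
  have h5 : ∑ y, c.μ y * ((c.I y ∩ e).card : ℝ) ≤
      n * ∑ y ∈ univ.filter (fun y => (c.I y ∩ e).Nonempty), c.μ y := by
    rw [sum_filter, mul_sum]
    refine sum_le_sum (fun y _ => ?_)
    by_cases h : (c.I y ∩ e).Nonempty
    · rw [if_pos h, mul_comm (n : ℝ)]
      exact mul_le_mul_of_nonneg_left (by exact_mod_cast hcard y) (c.hμ y)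
    · rw [if_neg h, not_nonempty_iff_eq_empty.1 h]
      simp
  rw [h4] at h2
  have h6 := h2.trans h5
  have h7 : 1 + 1 / (n : ℝ) = ((n : ℝ) + 1) / n := by field_simp
  rw [h7, div_le_iff₀ hn, mul_comm]
  exact h6

/-- For an edge `e` in the class `q` and a point `y` that is not `Multi`:
`[I y ∩ e ≠ ∅] + ∑_{q' ≠ q} tw q' y / cw q' ≤ 1`. -/
theorem single_point {c : Cfg V Y n k} (d : Cls c m) (q : Fin m) {e : Finset V}
    (hq : ∀ v ∈ e, d.π v = q) {y : Y} (hy : ¬ d.Multi y) :
    (if (c.I y ∩ e).Nonempty then (1 : ℝ) else 0) +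
      ∑ q' ∈ univ.erase q, d.tw q' y / d.cw q' ≤ 1 := by
  by_cases h : (c.I y ∩ e).Nonempty
  · rw [if_pos h]
    obtain ⟨v, hv⟩ := h
    rw [mem_inter] at hv
    have hz : ∀ q' ∈ univ.erase q, d.tw q' y / d.cw q' = 0 := by
      intro q' hq'
      have hne : q' ≠ q := ne_of_mem_erase hq'
      have h0 : d.tw q' y = 0 := by
        unfold Cls.tw
        rw [filter_eq_empty_iff.2, sum_empty]
        intro u hu hu'
        apply hy
        refine ⟨u, hu, v, hv.1, ?_⟩
        rw [hu', hq v hv.2]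
        exact hne
      rw [h0, zero_div]
    rw [sum_eq_zero hz, add_zero]
  · rw [if_neg h, zero_add]
    refine le_trans ?_ (tau_single d hy)
    refine sum_le_sum_of_subset_of_nonneg (erase_subset _ _) (fun q' _ _ => ?_)
    refine div_nonneg (tw_nonneg d q' y) ?_
    exact (tw_nonneg d q' y).trans (tw_le_cw d q' y)

end Pool.Agent.Lib.MP_455133_co.BT
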