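import Mathlib
import Pool.Agent.Lib.MP_455133_co.BT.Heavy
import Pool.Agent.Lib.MP_455133_co.BT.EdgeA

/-!
There is no configuration.
-/

namespace Pool.Agent.Lib.MP_455133_co.BT

open Finset
open Pool.Agent.Lib.MP_455133_co.BO (wt lnk)

variable {V Y : Type} [Fintype V] [DecidableEq V] [Fintype Y] {n k m : ℕ}

/-- Sum of `edge_cover` and of `class_cover` over `q' ≠ q`; `single_point` for the points that
are not `Multi`, and `tau_multi` for the others. -/
theorem mass_multi {c : Cfg V Y n k} (d : Cls c m) (q : Fin m) {e : Finset V} (he : e ∈ c.H)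
    (hq : ∀ v ∈ e, d.π v = q) [DecidablePred d.Multi] :
    (m : ℝ) + 1 / n ≤ ∑ y, c.μ y + (∑ y ∈ univ.filter d.Multi, c.μ y * c.a y) / (1 - c.ε) := by
  classical
  have heps := eps_le c
  have hpos : (0 : ℝ) < 1 - c.ε := by linarith
  have h1 : 1 + 1 / (n : ℝ) ≤ ∑ y, c.μ y * (if (c.I y ∩ e).Nonempty then (1 : ℝ) else 0) := by
    have := edge_cover c he
    rw [sum_filter] at this
    refine this.trans (le_of_eq ?_)
    apply sum_congr rfl
    intro y _
    split_ifs <;> simp
  have hcard : ((univ.erase q).card : ℝ) = (m : ℝ) - 1 := by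
    rw [card_erase_of_mem (mem_univ q), card_univ, Fintype.card_fin]
    have : 1 ≤ m := by
      have := q.2
      omega
    push_cast [Nat.cast_sub this]
    ring
  have h2 : (m : ℝ) - 1 ≤ ∑ y, c.μ y * ∑ q' ∈ univ.erase q, d.tw q' y / d.cw q' := by
    have h3 : ∑ q' ∈ univ.erase q, (1 : ℝ) ≤
        ∑ q' ∈ univ.erase q, ∑ y, c.μ y * (d.tw q' y / d.cw q') :=
      sum_le_sum (fun q' _ => class_cover d q')
    rw [sum_const, nsmul_eq_mul, mul_one, hcard, sum_comm] at h3
    refine h3.trans (le_of_eq ?_)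
    apply sum_congr rfl
    intro y _
    rw [mul_sum]
  have hpt : ∀ y, c.μ y * (if (c.I y ∩ e).Nonempty then (1 : ℝ) else 0) +
      c.μ y * ∑ q' ∈ univ.erase q, d.tw q' y / d.cw q' ≤
      c.μ y + (if d.Multi y then c.μ y * c.a y / (1 - c.ε) else 0) := by
    intro y
    have hμ := c.hμ y
    by_cases hy : d.Multi y
    · rw [if_pos hy]
      have h4 : (if (c.I y ∩ e).Nonempty then (1 : ℝ) else 0) ≤ 1 := by
        split_ifs <;> norm_num
      have h5 : ∑ q' ∈ univ.erase q, d.tw q' y / d.cw q' ≤ c.a y / (1 - c.ε) := by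
        refine le_trans ?_ (tau_multi d y)
        apply sum_le_sum_of_subset_of_nonneg (erase_subset _ _)
        intro q' _ _
        have := cw_gt d q'
        exact div_nonneg (tw_nonneg d q' y) (by linarith)
      have h6 := mul_le_mul_of_nonneg_left h4 hμ
      have h7 := mul_le_mul_of_nonneg_left h5 hμ
      rw [mul_one] at h6
      rw [mul_div_assoc]
      exact add_le_add h6 h7
    · rw [if_neg hy, add_zero, ← mul_add]
      have h8 := mul_le_mul_of_nonneg_left (single_point d q hq hy) hμ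
      rw [mul_one] at h8
      exact h8
  have hsum := sum_le_sum (fun y (_ : y ∈ (univ : Finset Y)) => hpt y)
  rw [sum_add_distrib, sum_add_distrib, ← sum_filter, ← sum_div] at hsum
  linarith

/-- `m = k` and `∑_q cw q = ∑ ξ v > k`, so some `cw q > 1`; take `e` from `exists_edge`. By
`mass_multi`, `∑_{Multi} μ a ≥ (1 - ε) (1 / n - ε)`; by `multi_mul`, `1 - a ≥ 4 / (5 n) * a` on
`Multi` points, so `deficit` gives
`ε > 4 / (5 n) * (1 - ε) * (1 / n - ε) ≥ (4 / 5) (7 / 8) (3 / 4) / n ^ 2 > ε`. -/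
theorem no_cfg (c : Cfg V Y n k) (hc : c.ε ≤ 1 / (2 * (n : ℝ) ^ 2)) : False := by
  classical
  obtain ⟨m, ⟨d⟩⟩ := exists_cls c
  have hmk : m = k := le_antisymm (count_le d) (count_ge d)
  subst hmk
  have hn := c.hn
  have hn2 : (2 : ℝ) ≤ (n : ℝ) := by exact_mod_cast hn
  have hnpos : (0 : ℝ) < (n : ℝ) := by linarith
  -- a heavy class
  have hheavy : ∃ q, 1 < d.cw q := by
    by_contra hcon
    push Not at hcon
    have h1 : ∑ q, d.cw q ≤ ∑ q : Fin m, (1 : ℝ) := sum_le_sum (fun q _ => hcon q)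
    rw [sum_cw d, sum_const, card_univ, Fintype.card_fin, nsmul_eq_mul, mul_one] at h1
    have := c.hL
    linarith
  obtain ⟨q, hq⟩ := hheavy
  obtain ⟨e, he, heq⟩ := exists_edge d q hq
  have hmass := mass_multi d q he heq
  have heps := eps_le c
  have heps0 := eps_pos c
  have hpos : (0 : ℝ) < 1 - c.ε := by linarith
  have hz := c.hz
  set M := ∑ y ∈ univ.filter d.Multi, c.μ y * c.a y with hM
  have h1 : 1 / (n : ℝ) - c.ε < M / (1 - c.ε) := by linarith
  have h2 : (1 / (n : ℝ) - c.ε) * (1 - c.ε) < M := by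
    rwa [lt_div_iff₀ hpos] at h1
  -- deficit
  have hdef := deficit c
  have h3 : 4 / (5 * (n : ℝ)) * M ≤ ∑ y, c.μ y * (1 - c.a y) := by
    have h4 : ∑ y ∈ univ.filter d.Multi, c.μ y * (1 - c.a y) ≤ ∑ y, c.μ y * (1 - c.a y) := by
      apply sum_le_sum_of_subset_of_nonneg (filter_subset _ _)
      intro y _ _
      have := a_le_one c y
      exact mul_nonneg (c.hμ y) (by linarith)
    refine le_trans ?_ h4
    rw [hM, mul_sum]
    apply sum_le_sum
    intro y hy
    rw [mem_filter] at hy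
    have h5 := multi_mul d hy.2
    have h6 : 4 / (5 * (n : ℝ)) * c.a y ≤ 1 - c.a y := by linarith
    have h7 := mul_le_mul_of_nonneg_left h6 (c.hμ y)
    linarith
  have h8 : 4 / (5 * (n : ℝ)) * M < c.ε := lt_of_le_of_lt h3 hdef
  have h9 : 4 / (5 * (n : ℝ)) * ((1 / (n : ℝ) - c.ε) * (1 - c.ε)) < c.ε := by
    have h10 : (0 : ℝ) < 4 / (5 * (n : ℝ)) := by positivity
    have h11 := mul_lt_mul_of_pos_left h2 h10
    linarith
  -- rewrite in terms of x = 1/n
  set x : ℝ := 1 / (n : ℝ) with hx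
  have hxpos : 0 < x := by positivity
  have hxle : x ≤ 1 / 2 := by
    rw [hx]
    apply one_div_le_one_div_of_le (by norm_num) hn2
  have hex : c.ε ≤ x ^ 2 / 2 := by
    refine hc.trans (le_of_eq ?_)
    rw [hx]
    field_simp
  have h4n : 4 / (5 * (n : ℝ)) = 4 / 5 * x := by
    rw [hx]
    field_simp
  rw [h4n] at h9
  have h12 : (3 / 4) * x ≤ x - c.ε := by nlinarith
  have h13 : (7 : ℝ) / 8 ≤ 1 - c.ε := by linarith
  have h14 : (3 / 4) * x * (7 / 8) ≤ (x - c.ε) * (1 - c.ε) :=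
    mul_le_mul h12 h13 (by norm_num) (by linarith [mul_pos (by norm_num : (0:ℝ) < 3/4) hxpos])
  have h15 : 4 / 5 * x * ((3 / 4) * x * (7 / 8)) ≤ 4 / 5 * x * ((x - c.ε) * (1 - c.ε)) :=
    mul_le_mul_of_nonneg_left h14 (by positivity)
  have h16 : 0 < x ^ 2 := by positivity
  nlinarith

end Pool.Agent.Lib.MP_455133_co.BT
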