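import Mathlib
import Pool.Agent.Lib.MP_455133_co.BO.Lagr

/-!
The statement used for the lower bounds.
-/

namespace Pool.Agent.Lib.MP_455133_co.BT

open Finset
open Pool.Agent.Lib.MP_455133_co.BO (dens)

/-- If a family `H` of `(n+1)`-sets has a fractional cover by independent sets of weight less
than `z`, then no weighting has density more than `D`. -/
def FracD (n : ℕ) (z D : ℝ) : Prop :=
  ∀ (V Y : Type) [Fintype V] [DecidableEq V] [Fintype Y] (H : Finset (Finset V)),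
    (∀ e ∈ H, e.card = n + 1) → ∀ (μ : Y → ℝ) (I : Y → Finset V), (∀ y, 0 ≤ μ y) →
    (∀ y, ∀ e ∈ H, ¬ e ⊆ I y) → ∑ y, μ y < z →
    (∀ v, 1 ≤ ∑ y ∈ univ.filter (fun y => v ∈ I y), μ y) →
    ∀ x ∈ stdSimplex ℝ V, dens H n x ≤ D

end Pool.Agent.Lib.MP_455133_co.BT
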