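import Mathlib

/-!
The final numerical inequality.
-/

namespace Pool.Agent.Lib.MP_455133_co.BT

/-- Let `x = 1 - A`. From `hb`, as `(n + 1) / n ≤ 6 / 5`: `6 / 5 * (8 x + 5) ≥ 36 x`, so
`x ≤ 5 / 22`. `A ^ n ≥ exp (- n x / (1 - x))` (as `1 / (1 - x) = 1 + x / (1 - x) ≤ exp _`) and
`1 / 2 ≥ exp (-7 / 10)` (`Real.log_two_lt_d9`). With `1 / b = 40 n x / (8 x + 5)`, it remains to
see `22 n x / (8 x + 5) - n x / (1 - x) ≥ 41 / 36 + 7 / 10`: for `0 < x ≤ 5 / 22`,
`22 / (8 x + 5) ≥ 484 / 150` and `1 / (1 - x) ≤ 22 / 17`, the difference is at least `1.93`, and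
`n x ≥ 7 n / (4 n + 7) ≥ 35 / 27` by `hA7`. -/
theorem num_final {n : ℕ} (hn : 5 ≤ n) {A : ℝ} (hA0 : 0 < A) (hA1 : A < 1)
    (hA7 : 7 / (4 * n + 7) ≤ 1 - A)
    (hb : 9 / 10 ≤ (n + 1) * (1 / (5 * n) + 1 / (8 * n * (1 - A)))) :
    Real.exp (41 / 36 - 11 / 20 / (1 / (5 * n) + 1 / (8 * n * (1 - A)))) ≤ A ^ n / 2 := by
  have hn5 : (5 : ℝ) ≤ n := by exact_mod_cast hn
  have hn0 : (0 : ℝ) < n := by linarith
  obtain ⟨x, hx⟩ : ∃ x : ℝ, x = 1 - A := ⟨_, rfl⟩
  have hA : A = 1 - x := by linarith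
  have hx0 : 0 < x := by linarith
  rw [← hx] at hA7 hb
  rw [← hx]
  have hbe : 1 / (5 * (n : ℝ)) + 1 / (8 * n * x) = (8 * x + 5) / (40 * n * x) := by
    field_simp
    ring
  rw [hbe] at hb
  rw [hbe]
  -- the bound `x ≤ 5 / 22`
  have hx1 : x ≤ 5 / 22 := by
    have h1 : ((n : ℝ) + 1) * ((8 * x + 5) / (40 * n * x)) =
        ((n : ℝ) + 1) * (8 * x + 5) / (40 * n * x) := by ring
    rw [h1, le_div_iff₀ (by positivity)] at hb
    have h2 : ((n : ℝ) + 1) * (8 * x + 5) ≤ 6 / 5 * n * (8 * x + 5) := by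
      apply mul_le_mul_of_nonneg_right _ (by linarith)
      linarith
    have h3 : (36 * x) * n ≤ (6 / 5 * (8 * x + 5)) * n := by nlinarith
    have h4 := le_of_mul_le_mul_right h3 hn0
    linarith
  -- the bound `35 / 27 ≤ n x`
  have hnx : 35 / 27 ≤ n * x := by
    rw [div_le_iff₀ (by positivity)] at hA7
    -- 7 ≤ x (4 n + 7)
    nlinarith
  have hA1x : 17 / 22 ≤ 1 - x := by linarith
  have hA1x0 : 0 < 1 - x := by linarith
  -- `exp (- x / (1 - x)) ≤ A`
  have hexp : Real.exp (-(x / (1 - x))) ≤ A := by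
    have h1 : 1 / (1 - x) ≤ Real.exp (x / (1 - x)) := by
      have h2 := Real.add_one_le_exp (x / (1 - x))
      have h3 : x / (1 - x) + 1 = 1 / (1 - x) := by
        field_simp
        ring
      rw [h3] at h2
      exact h2
    rw [Real.exp_neg, hA]
    have h4 := inv_anti₀ (by positivity) h1
    rwa [one_div, inv_inv] at h4
  have hexpn : Real.exp (-(n * (x / (1 - x)))) ≤ A ^ n := by
    have h1 : Real.exp (-(n * (x / (1 - x)))) = Real.exp (-(x / (1 - x))) ^ n := by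
      rw [← Real.exp_nat_mul]
      congr 1
      ring
    rw [h1]
    exact pow_le_pow_left₀ (Real.exp_pos _).le hexp n
  have hhalf : Real.exp (-(7 / 10)) ≤ 1 / 2 := by
    have h1 : Real.exp (-(7 / 10)) ≤ Real.exp (-Real.log 2) :=
      Real.exp_le_exp.2 (by linarith [Real.log_two_lt_d9])
    rw [Real.exp_neg (Real.log 2), Real.exp_log (by norm_num)] at h1
    rw [one_div]
    exact h1
  have hmain : 41 / 36 - 11 / 20 / ((8 * x + 5) / (40 * n * x)) ≤
      -(n * (x / (1 - x))) + -(7 / 10) := by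
    have h1 : 11 / 20 / ((8 * x + 5) / (40 * n * x)) = (n * x) * (22 / (8 * x + 5)) := by
      field_simp
      ring
    have h2 : n * (x / (1 - x)) = (n * x) * (1 / (1 - x)) := by
      field_simp
    have h3 : 484 / 150 ≤ 22 / (8 * x + 5) := by
      rw [div_le_div_iff₀ (by norm_num) (by linarith)]
      linarith
    have h4 : 1 / (1 - x) ≤ 22 / 17 := by
      rw [div_le_div_iff₀ hA1x0 (by norm_num)]
      linarith
    rw [h1, h2]
    have h5 : 193 / 100 ≤ 22 / (8 * x + 5) - 1 / (1 - x) := by linarith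
    have h6 : 35 / 27 * (193 / 100) ≤ (n * x) * (22 / (8 * x + 5) - 1 / (1 - x)) :=
      mul_le_mul hnx h5 (by norm_num) (by linarith)
    rw [mul_sub] at h6
    linarith
  calc Real.exp (41 / 36 - 11 / 20 / ((8 * x + 5) / (40 * n * x)))
      ≤ Real.exp (-(n * (x / (1 - x))) + -(7 / 10)) := Real.exp_le_exp.2 hmain
    _ = Real.exp (-(n * (x / (1 - x)))) * Real.exp (-(7 / 10)) := Real.exp_add _ _
    _ ≤ A ^ n * (1 / 2) := mul_le_mul hexpn hhalf (Real.exp_pos _).le (by positivity)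
    _ = A ^ n / 2 := by ring

end Pool.Agent.Lib.MP_455133_co.BT
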