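import Mathlib
import Pool.Agent.Lib.MP_455133_co.BT.Cher
import Pool.Agent.Lib.MP_455133_co.BT.Num
import Pool.Agent.Lib.MP_455133_co.BT.EdgeA

/-!
There is no configuration with `n ≥ 5` and `n ε ≤ 1 / 8`.
-/

namespace Pool.Agent.Lib.MP_455133_co.BT

open Finset
open Pool.Agent.Lib.MP_455133_co.BO (wt lnk)

variable {V Y : Type} [Fintype V] [DecidableEq V] [Fintype Y] {n k m : ℕ}

/-- Classes with `m = k`, a class `q` with `cw q > 1` and an edge `e` inside it (`exists_edge`).
If no `v` of class `q` lies in `I y` for a point `y ∉ X q`, `beta_le_pure` and `edge_beta` give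
`9 / 10 ≤ (n + 1) / (5 n)`, impossible. Otherwise take such a pair `(v, y)` with `A = a y`
maximal. `y` is `Multi` (`multi_of_not_mem`), so `7 / (4 n + 7) ≤ 1 - A`; `A > 0` by `a_pos`.
By `beta_le` all `u` of class `q` have `β u ≤ b := 1 / (5 n) + 1 / (8 n (1 - A))`, and
`edge_beta` gives `9 / 10 ≤ (n + 1) b`. Now `link_gt`, `E_le` and `num_final` contradict each
other. -/
theorem no_cfg8 (c : Cfg V Y n k) (hn : 5 ≤ n) (h8 : n * c.ε ≤ 1 / 8) : False := by
  classical
  obtain ⟨m, ⟨d⟩⟩ := exists_cls c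
  have hmk : m = k := le_antisymm (count_le d) (count_ge d)
  subst hmk
  have hn5 : (5 : ℝ) ≤ (n : ℝ) := by exact_mod_cast hn
  have hnpos : (0 : ℝ) < (n : ℝ) := by linarith
  -- a heavy class
  have hheavy : ∃ q, 1 < d.cw q := by
    by_contra hcon
    push Not at hcon
    have h1 : ∑ q, d.cw q ≤ ∑ q : Fin m, (1 : ℝ) := sum_le_sum (fun q _ => hcon q)
    rw [sum_cw d, sum_const, card_univ, Fintype.card_fin, nsmul_eq_mul, mul_one] at h1
    have := c.hL
    linarith
  obtain ⟨q, hq⟩ := hheavy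
  obtain ⟨e, he, heq⟩ := exists_edge d q hq
  have hcard : (e.card : ℝ) = (n : ℝ) + 1 := by
    rw [c.hH e he]
    push_cast
    ring
  have hedge := edge_beta hn h8 d q he
  -- the points outside the region that contain a vertex of the class
  set T : Finset Y := univ.filter (fun y => y ∉ d.X q ∧ ∃ v, d.π v = q ∧ v ∈ c.I y) with hT
  by_cases hTne : T.Nonempty
  · obtain ⟨y, hyT, hmax⟩ := T.exists_max_image (fun y => c.a y) hTne
    rw [hT, mem_filter] at hyT
    obtain ⟨_, hyX, v, hvq, hvy⟩ := hyT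
    have hmulti : d.Multi y := multi_of_not_mem d hvy (by rw [hvq]; exact hyX)
    have h7 := multi_def8 h8 d hmulti
    have hA0 : 0 < c.a y := a_pos ⟨v, hvy⟩
    have hA1 : c.a y < 1 := by
      have : (0 : ℝ) < 7 / (4 * n + 7) := by positivity
      linarith
    have hβ : ∀ u, d.π u = q → d.β q u ≤ 1 / (5 * n) + 1 / (8 * n * (1 - c.a y)) := by
      intro u hu
      refine beta_le hn h8 d rfl q u hA1 ?_
      intro y' hy' hyX'
      apply hmax
      rw [hT, mem_filter]
      exact ⟨mem_univ _, hyX', u, hu, hy'⟩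
    have h1A : 0 < 1 - c.a y := by linarith
    have hb : (0 : ℝ) < 1 / (5 * n) + 1 / (8 * n * (1 - c.a y)) := by positivity
    have hsum : ∑ u ∈ e, d.β q u ≤ ((n : ℝ) + 1) * (1 / (5 * n) + 1 / (8 * n * (1 - c.a y))) := by
      have h1 : ∑ u ∈ e, d.β q u ≤ ∑ _u ∈ e, (1 / (5 * (n : ℝ)) + 1 / (8 * n * (1 - c.a y))) :=
        sum_le_sum (fun u hu => hβ u (heq u hu))
      rw [sum_const, nsmul_eq_mul, hcard] at h1
      exact h1
    have hfin := num_final hn hA0 hA1 h7 (hedge.trans hsum)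
    have hE := E_le hn h8 d rfl q hb hβ hvq
    have hl := link_gt d q hq hvy hyX
    linarith
  · have hnone : ∀ u, d.π u = q → ∀ y, u ∈ c.I y → y ∈ d.X q := by
      intro u hu y hy
      by_contra hyX
      apply hTne
      refine ⟨y, ?_⟩
      rw [hT, mem_filter]
      exact ⟨mem_univ _, hyX, u, hu, hy⟩
    have hsum : ∑ u ∈ e, d.β q u ≤ ((n : ℝ) + 1) * (1 / (5 * n)) := by
      have h1 : ∑ u ∈ e, d.β q u ≤ ∑ _u ∈ e, (1 / (5 * (n : ℝ))) :=
        sum_le_sum (fun u hu => beta_le_pure hn h8 d rfl q u (hnone u (heq u hu)))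
      rw [sum_const, nsmul_eq_mul, hcard] at h1
      exact h1
    have h2 : ((n : ℝ) + 1) * (1 / (5 * n)) ≤ 6 / 25 := by
      rw [mul_one_div, div_le_div_iff₀ (by positivity) (by norm_num)]
      nlinarith
    linarith

end Pool.Agent.Lib.MP_455133_co.BT
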