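import Mathlib
import Pool.Agent.Lib.MP_455133_co.BO.Opt
import Pool.Agent.Lib.MP_455133_co.BT.Edge
import Pool.Agent.Lib.MP_455133_co.BT.NoCfg8
import Pool.Agent.Lib.MP_455133_co.BT.FracD

/-!
The fractional theorem.
-/

namespace Pool.Agent.Lib.MP_455133_co.BT

open Finset
open Pool.Agent.Lib.MP_455133_co.BO (wt lnk dens ldens_add exists_opt)

private theorem frac_exists_L (n k : ℕ) {D : ℝ} (h : (k : ℝ) ^ n * D < 1) :
    ∃ L : ℝ, (k : ℝ) < L ∧ L ^ n * D ≤ 1 := by
  have hc : Continuous fun L : ℝ => L ^ n * D := by fun_prop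
  have h1 : ∀ᶠ L in nhds (k : ℝ), L ^ n * D < 1 :=
    hc.continuousAt.eventually_lt continuousAt_const h
  have h2 : ∀ᶠ L in nhdsWithin (k : ℝ) (Set.Ioi (k : ℝ)), L ^ n * D < 1 :=
    h1.filter_mono nhdsWithin_le_nhds
  obtain ⟨L, hL1, hL2⟩ := (h2.and self_mem_nhdsWithin).exists
  exact ⟨L, hL2, hL1.le⟩

/-- Suppose some `x` has `dens > 1 - 1 / k ^ n`; take the maximiser `x` of `exists_opt`. For
`x v > 0`, `∑_{w ∈ lnk} ∏ x (w i) = 1 - dens x < 1 / k ^ n` by `ldens_add`. Choose `L > k` with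
`L ^ n * (1 - dens x) ≤ 1`, restrict everything to the subtype `{v // 0 < x v}` with
`ξ = L * x`, and obtain a configuration. -/
theorem frac_of_no {n k : ℕ} (hn : 2 ≤ n) (hk : 1 ≤ k) {ϑ : ℝ} (hϑ0 : 0 < ϑ)
    (hϑ : n * ϑ ≤ 1 / 4)
    (hno : ∀ {V Y : Type} [Fintype V] [DecidableEq V] [Fintype Y] (c : Cfg V Y n k),
      c.ε = ϑ → False) : FracD n (k + ϑ) (1 - 1 / (k : ℝ) ^ n) := by
  intro V Y _ _ _ H hH μ I hμ hI hz hcov
  classical
  intro x0 hx0
  by_contra hcon
  push Not at hcon
  have hne : Nonempty V := by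
    by_contra hV
    rw [not_nonempty_iff] at hV
    have := hx0.2
    simp at this
  obtain ⟨x, hx, hmax, heq⟩ := exists_opt H n
  have hdx : 1 - 1 / (k : ℝ) ^ n < dens H n x := lt_of_lt_of_le hcon (hmax x0 hx0)
  have hk0 : (0 : ℝ) < (k : ℝ) ^ n := by
    have : (0 : ℝ) < k := by exact_mod_cast hk
    positivity
  have hD : (k : ℝ) ^ n * (1 - dens H n x) < 1 := by
    have h1 : 1 - dens H n x < 1 / (k : ℝ) ^ n := by linarith
    calc (k : ℝ) ^ n * (1 - dens H n x) < (k : ℝ) ^ n * (1 / (k : ℝ) ^ n) :=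
          mul_lt_mul_of_pos_left h1 hk0
      _ = 1 := by field_simp
  obtain ⟨L, hkL, hL⟩ := frac_exists_L n k hD
  have hL0 : 0 < L := lt_of_le_of_lt (Nat.cast_nonneg k) hkL
  have hx0' : ∀ v, 0 ≤ x v := hx.1
  -- the sum over the support
  have hsum : ∑ v : {v // 0 < x v}, L * x v = L := by
    have h1 : ∑ v : {v // 0 < x v}, x v = ∑ v, x v := by
      rw [← Finset.sum_subtype (univ.filter fun v => 0 < x v) (by simp) x]
      refine Finset.sum_filter_of_ne fun v _ hv => ?_
      exact lt_of_le_of_ne (hx0' v) (Ne.symm hv)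
    rw [← Finset.mul_sum, h1, hx.2, mul_one]
  let φ : {v // 0 < x v} ↪ V := Function.Embedding.subtype _
  refine hno (V := {v // 0 < x v}) (Y := Y)
    { H := univ.filter fun e => e.map φ ∈ H
      ξ := fun v => L * x v
      μ := μ
      I := fun y => (I y).subtype fun v => 0 < x v
      ε := ϑ
      hn := hn
      hk := hk
      hε0 := hϑ0
      hε := hϑ
      hH := ?_
      hξ := fun v => mul_pos hL0 v.2
      hL := by rw [hsum]; exact hkL
      hlink := ?_
      hμ := hμ
      hI := ?_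
      hz := hz
      hcov := ?_ } rfl
  · intro e he
    have := hH _ (mem_filter.mp he).2
    rwa [card_map] at this
  · intro v
    have h1 : ∑ w ∈ lnk H n (v : V), ∏ i, x (w i) = 1 - dens H n x := by
      have h2 := ldens_add H n (v : V) x
      rw [hx.2, one_pow, heq v v.2] at h2
      linarith
    have h3 : ∑ w ∈ lnk H n (v : V), ∏ i, (L * x (w i)) ≤ 1 := by
      have : ∑ w ∈ lnk H n (v : V), ∏ i, (L * x (w i)) =
          L ^ n * ∑ w ∈ lnk H n (v : V), ∏ i, x (w i) := by
        rw [Finset.mul_sum]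
        refine sum_congr rfl fun w _ => ?_
        rw [Finset.prod_mul_distrib]
        simp
      rw [this, h1]
      exact hL
    refine le_trans ?_ h3
    have himg : ((lnk (univ.filter fun e : Finset {v // 0 < x v} => e.map φ ∈ H) n v).image
        (fun w : Fin n → {v // 0 < x v} => fun i => (w i : V))) ⊆ lnk H n (v : V) := by
      intro w' hw'
      obtain ⟨w, hw, rfl⟩ := mem_image.mp hw'
      simp only [lnk, mem_filter, mem_univ, true_and] at hw ⊢
      intro hmem
      apply hw
      have : (insert v (univ.image w)).map φ = insert (v : V) (univ.image fun i => (w i : V)) := by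
        rw [map_insert, map_eq_image, image_image]
        rfl
      rw [this]
      exact hmem
    have hinj : Set.InjOn (fun w : Fin n → {v // 0 < x v} => fun i => (w i : V))
        (lnk (univ.filter fun e : Finset {v // 0 < x v} => e.map φ ∈ H) n v) := by
      intro w _ w' _ h
      funext i
      exact Subtype.ext (congrFun h i)
    calc ∑ w ∈ lnk (univ.filter fun e : Finset {v // 0 < x v} => e.map φ ∈ H) n v,
          ∏ i, (L * x (w i))
        = ∑ w ∈ ((lnk (univ.filter fun e : Finset {v // 0 < x v} => e.map φ ∈ H) n v).image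
          (fun w : Fin n → {v // 0 < x v} => fun i => (w i : V))), ∏ i, (L * x (w i)) := by
          rw [sum_image hinj]
      _ ≤ _ := by
          refine sum_le_sum_of_subset_of_nonneg himg fun w _ _ => ?_
          exact prod_nonneg fun i _ => mul_nonneg hL0.le (hx0' _)
  · intro y e he hsub
    refine hI y _ (mem_filter.mp he).2 ?_
    intro u hu
    obtain ⟨u', hu', rfl⟩ := mem_map.mp hu
    have := hsub hu'
    rw [mem_subtype] at this
    exact this
  · intro v
    have := hcov (v : V)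
    simpa only [mem_subtype] using this

/-- From `no_cfg`. -/
theorem frac_sq {n k : ℕ} (hn : 2 ≤ n) (hk : 1 ≤ k) : 
    FracD n (k + 1 / (2 * (n : ℝ) ^ 2)) (1 - 1 / (k : ℝ) ^ n) := by
  have hn2 : (2 : ℝ) ≤ n := by exact_mod_cast hn
  refine frac_of_no hn hk (by positivity) ?_ fun c hc => no_cfg c (le_of_eq hc)
  have h1 : (n : ℝ) * (1 / (2 * (n : ℝ) ^ 2)) = 1 / (2 * n) := by field_simp
  rw [h1]
  exact one_div_le_one_div_of_le (by norm_num) (by linarith)

/-- From `no_cfg8`. -/
theorem frac_lin {n k : ℕ} (hn : 5 ≤ n) (hk : 1 ≤ k) : 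
    FracD n (k + 1 / (8 * (n : ℝ))) (1 - 1 / (k : ℝ) ^ n) := by
  have hn2 : (5 : ℝ) ≤ n := by exact_mod_cast hn
  have h1 : (n : ℝ) * (1 / (8 * (n : ℝ))) = 1 / 8 := by field_simp
  refine frac_of_no (by omega) hk (by positivity) (by rw [h1]; norm_num) fun c hc => ?_
  refine no_cfg8 c hn (le_of_eq ?_)
  rw [hc, h1]

/-- An edge `e` gives `1 + 1 / n ≤ ∑ μ`: each `I y` misses an element of `e`, so
`n + 1 ≤ ∑_{v ∈ e} ∑_{y, v ∈ I y} μ y ≤ n ∑ μ`. Hence `H` is empty and `dens = 0`. -/
theorem frac_one {n : ℕ} (hn : 2 ≤ n) : FracD n (1 + 1 / (n : ℝ)) 0 := by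
  intro V Y _ _ _ H hH μ I hμ hI hz hcov x hx
  have hn0 : (0 : ℝ) < n := by
    have : 0 < n := by omega
    exact_mod_cast this
  have hemp : H = ∅ := by
    rw [Finset.eq_empty_iff_forall_notMem]
    intro e he
    have hcard : ∀ y, ((e.filter fun v => v ∈ I y).card : ℝ) ≤ n := by
      intro y
      have h1 : (e.filter fun v => v ∈ I y).card < e.card := by
        apply card_lt_card
        rw [filter_ssubset]
        by_contra hcon
        push Not at hcon
        exact hI y e he hcon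
      have h2 := hH e he
      have h3 : (e.filter fun v => v ∈ I y).card ≤ n := by omega
      exact_mod_cast h3
    have h2 : ((n : ℝ) + 1) ≤ ∑ v ∈ e, ∑ y ∈ univ.filter (fun y => v ∈ I y), μ y := by
      have h3 : ∑ v ∈ e, (1 : ℝ) ≤ ∑ v ∈ e, ∑ y ∈ univ.filter (fun y => v ∈ I y), μ y :=
        sum_le_sum (fun v _ => hcov v)
      rw [sum_const, hH e he, nsmul_eq_mul, mul_one] at h3
      push_cast at h3
      exact h3
    have h4 : ∑ v ∈ e, ∑ y ∈ univ.filter (fun y => v ∈ I y), μ y =
        ∑ y, μ y * ((e.filter fun v => v ∈ I y).card : ℝ) := by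
      simp only [sum_filter]
      rw [sum_comm]
      refine sum_congr rfl (fun y _ => ?_)
      rw [← sum_filter, sum_const, nsmul_eq_mul, mul_comm]
    have h5 : ∑ y, μ y * ((e.filter fun v => v ∈ I y).card : ℝ) ≤ n * ∑ y, μ y := by
      rw [mul_sum]
      refine sum_le_sum (fun y _ => ?_)
      rw [mul_comm]
      exact mul_le_mul_of_nonneg_right (hcard y) (hμ y)
    have h6 : (n : ℝ) * ∑ y, μ y < n * (1 + 1 / n) := by
      exact mul_lt_mul_of_pos_left hz hn0
    have h7 : (n : ℝ) * (1 + 1 / n) = n + 1 := by field_simp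
    linarith
  have hd : dens H n x = 0 := by
    rw [hemp]
    simp [BO.dens]
  rw [hd]

end Pool.Agent.Lib.MP_455133_co.BT
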