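import Mathlib
import Pool.Agent.Lib.MP_455133_co.Defs
import Pool.Agent.Lib.MP_455133_co.BT.FracD
import Pool.Agent.Lib.MP_455133_co.BO.Mini
import Pool.Agent.Lib.MP_455133_co.BO.Patt
import Pool.Agent.Lib.MP_455133_co.BO.Trans

/-!
The lower bound, from a bound for the density of fractionally covered families.
-/

namespace Pool.Agent.Lib.MP_455133_co.BT

open Finset Pool.Agent.Lib.MP_455133_co
open Pool.Agent.Lib.MP_455133_co.BO (wt dens pattern minimax_cover transfer_real)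

/-- `pattern` gives `m`; for `t ≥ t₀` and `t ≤ z' s` one has
`s > m` and `t / (s - m) < z`. For `N` large take a covering family with
`card (lowerShadow) = f` (`f_spec`) and let `H` be the complement of its shadow. If
`f < (1 - D - η) C(N, n+1)`, `pattern` gives `Q` and `B`, then `transfer_real` and
`minimax_cover` (index type: the sets `I` containing no member of `Q`) give `μ`, and `FracD` with
the weights `μ * t / (s - m)` contradicts `D < dens Q n (1 / m)`. -/
theorem lower_bound_D {n : ℕ} {z z' D η : ℝ} (hz1 : 1 ≤ z') (hz : z' < z) (hD : 0 ≤ D)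
    (hfr : FracD n z D) (hη : 0 < η) :
    ∃ t₀ : ℕ, ∀ t : ℕ, t₀ ≤ t → ∀ s : ℕ, s ≤ t → (t : ℝ) ≤ z' * s → ∃ N₀ : ℕ, ∀ N : ℕ, N₀ ≤ N →
      (1 - D - η) * (N.choose (n + 1) : ℝ) ≤ (f N (n + 1) s t : ℝ) := by
  classical
  obtain ⟨m, hm, hpat⟩ := pattern n hD hη
  have hm0 : (0 : ℝ) < m := by exact_mod_cast hm
  have hzz : 0 < z - z' := by linarith
  obtain ⟨t₀, ht₀⟩ := exists_nat_gt (z' * (z * m / (z - z')))
  refine ⟨t₀ + 1, fun t ht s hst hts => ?_⟩
  have htr : (t₀ : ℝ) ≤ t := by exact_mod_cast (by omega : t₀ ≤ t)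
  have ht1 : 1 ≤ t := by omega
  have ht0 : (0 : ℝ) < t := by exact_mod_cast ht1
  have hz0 : 0 < z' := by linarith
  have hs1 : z * m / (z - z') < s := by
    have h1 : z' * (z * m / (z - z')) < z' * s := by linarith
    exact lt_of_mul_lt_mul_left h1 hz0.le
  rw [div_lt_iff₀ hzz] at hs1
  have hsm : (0 : ℝ) < s - m := by
    have h1 : (z - z') * m ≤ z * m := mul_le_mul_of_nonneg_right (by linarith) hm0.le
    have h2 : (z - z') * m < (z - z') * s := by linarith
    have h3 := lt_of_mul_lt_mul_left h2 hzz.le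
    linarith
  have hratio : (t : ℝ) / (s - m) < z := by
    rw [div_lt_iff₀ hsm]
    nlinarith
  obtain ⟨N₀, hN₀⟩ := hpat t ht1
  refine ⟨N₀, fun N hN => ?_⟩
  by_contra hcon
  push Not at hcon
  obtain ⟨𝒜, h𝒜, hf⟩ := f_spec (n := N) (r := n + 1) hst
  have hsubs : lowerShadow (n + 1) 𝒜 ⊆ powersetCard (n + 1) (univ : Finset (Fin N)) :=
    filter_subset _ _
  have hHc : (((powersetCard (n + 1) (univ : Finset (Fin N))) \ lowerShadow (n + 1) 𝒜).card : ℝ) =
      (N.choose (n + 1) : ℝ) - f N (n + 1) s t := by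
    have h1 := Finset.card_sdiff_add_card_eq_card hsubs
    rw [card_powersetCard, card_univ, Fintype.card_fin, ← hf] at h1
    have h2 : ((((powersetCard (n + 1) (univ : Finset (Fin N))) \ lowerShadow (n + 1) 𝒜).card +
      f N (n + 1) s t : ℕ) : ℝ) = (N.choose (n + 1) : ℝ) := by rw [h1]
    push_cast at h2
    linarith
  obtain ⟨Q, hQ, hdens, B, hB, hdis, hBQ⟩ := hN₀ N hN
    ((powersetCard (n + 1) (univ : Finset (Fin N))) \ lowerShadow (n + 1) 𝒜)
    (fun e he => (mem_powersetCard.1 (mem_sdiff.1 he).1).2) (by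
      rw [hHc]
      linarith)
  have hBQ' : ∀ e ∈ Q, ∀ x : Fin m → Fin N, (∀ i, x i ∈ B i) →
      e.image x ∉ lowerShadow (n + 1) 𝒜 := fun e he x hx => (mem_sdiff.1 (hBQ e he x hx)).2
  have : Nonempty (Fin m) := ⟨⟨0, hm⟩⟩
  obtain ⟨μ, ⟨hμ0, hμ1⟩, hμc⟩ := minimax_cover (V := Fin m)
    (Y := {I : Finset (Fin m) // ∀ e ∈ Q, ¬ e ⊆ I}) (fun y => y.1) (((s : ℝ) - m) / t) (by
      intro w hw
      obtain ⟨I, hI1, hI2⟩ := transfer_real hm ht1 h𝒜 Q hQ B hB hdis hBQ' w hw
      exact ⟨⟨I, hI1⟩, hI2⟩)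
  have hfrac := hfr (Fin m) {I : Finset (Fin m) // ∀ e ∈ Q, ¬ e ⊆ I} Q hQ
    (fun y => (t / ((s : ℝ) - m)) * μ y) (fun y => y.1)
    (fun y => mul_nonneg (div_nonneg ht0.le hsm.le) (hμ0 y)) (fun y => y.2) (by
      rw [← Finset.mul_sum, hμ1, mul_one]
      exact hratio) (by
      intro v
      rw [← Finset.mul_sum]
      have h1 : (t / ((s : ℝ) - m)) * (((s : ℝ) - m) / t) = 1 := by
        field_simp
      calc (1 : ℝ) = (t / ((s : ℝ) - m)) * (((s : ℝ) - m) / t) := h1.symm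
        _ ≤ _ := mul_le_mul_of_nonneg_left (hμc v) (div_nonneg ht0.le hsm.le))
    (fun _ => 1 / (m : ℝ)) ⟨fun _ => by positivity, by
      rw [Finset.sum_const, card_univ, Fintype.card_fin, nsmul_eq_mul]
      field_simp⟩
  linarith

end Pool.Agent.Lib.MP_455133_co.BT
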