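import Mathlib
import Pool.Agent.Lib.MP_455133_co.BO.Lagr
import Pool.Agent.Lib.MP_455133_co.BO.PattA

/-!
The density when at most one edge has positive weight.
-/

namespace Pool.Agent.Lib.MP_455133_co.BT

open Finset
open Pool.Agent.Lib.MP_455133_co.BO (dens)

variable {V : Type} [Fintype V] [DecidableEq V]

/-- the inequality of arithmetic and geometric means for a product -/
private theorem OneE_amgm (n : ℕ) (e : Finset V) (he : e.card = n + 1) {x : V → ℝ}
    (hx : ∀ v, 0 ≤ x v) (hs : ∑ v ∈ e, x v ≤ 1) :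
    ∏ v ∈ e, x v ≤ 1 / ((n : ℝ) + 1) ^ (n + 1) := by
  have hn : (0 : ℝ) < (n : ℝ) + 1 := by positivity
  have h := Real.geom_mean_le_arith_mean_weighted e (fun _ => 1 / ((n : ℝ) + 1)) x
    (fun _ _ => by positivity)
    (by
      rw [Finset.sum_const, he, nsmul_eq_mul]
      push_cast
      field_simp)
    (fun v _ => hx v)
  have hP : 0 ≤ ∏ v ∈ e, x v := Finset.prod_nonneg fun v _ => hx v
  rw [Real.finset_prod_rpow e x (fun v _ => hx v), ← Finset.mul_sum] at h
  have h2 : (∏ v ∈ e, x v) ^ (1 / ((n : ℝ) + 1)) ≤ 1 / ((n : ℝ) + 1) := by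
    refine le_trans h ?_
    calc 1 / ((n : ℝ) + 1) * ∑ v ∈ e, x v ≤ 1 / ((n : ℝ) + 1) * 1 := by gcongr
      _ = 1 / ((n : ℝ) + 1) := mul_one _
  have h3 : ((∏ v ∈ e, x v) ^ (1 / ((n : ℝ) + 1))) ^ (n + 1) = ∏ v ∈ e, x v := by
    rw [← Real.rpow_natCast, ← Real.rpow_mul hP]
    have : 1 / ((n : ℝ) + 1) * ((n + 1 : ℕ) : ℝ) = 1 := by
      push_cast
      field_simp
    rw [this, Real.rpow_one]
  rw [← h3, ← one_div_pow]
  exact pow_le_pow_left₀ (Real.rpow_nonneg hP _) h2 _

/-- Only the tuples with image `e` contribute, where `e` is the edge whose vertices all have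
positive weight: `(n + 1)!` tuples (`BO.PattA_fib`) of product `∏_{v ∈ e} x v` each, and this
product is at most `(1 / (n + 1)) ^ (n + 1)` by the inequality of arithmetic and geometric means
(`Real.geom_mean_le_arith_mean_weighted`). If there is no such edge, `dens = 0`. -/
theorem dens_one_edge (H : Finset (Finset V)) (n : ℕ) (hH : ∀ e ∈ H, e.card = n + 1)
    {x : V → ℝ} (hx : x ∈ stdSimplex ℝ V)
    (h1 : ∀ e ∈ H, ∀ f ∈ H, (∀ v ∈ e, 0 < x v) → (∀ v ∈ f, 0 < x v) → e = f) :
    dens H n x ≤ ((n + 1).factorial : ℝ) / ((n : ℝ) + 1) ^ (n + 1) := by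
  obtain ⟨hx0, hx1⟩ := hx
  have hzero : ∀ w : Fin (n + 1) → V, ¬ (∀ v ∈ univ.image w, 0 < x v) → ∏ i, x (w i) = 0 := by
    intro w hw
    push Not at hw
    obtain ⟨v, hv, hv0⟩ := hw
    rw [Finset.mem_image] at hv
    obtain ⟨i, _, rfl⟩ := hv
    exact Finset.prod_eq_zero (Finset.mem_univ i) (le_antisymm hv0 (hx0 _))
  by_cases hE : ∃ e ∈ H, ∀ v ∈ e, 0 < x v
  · obtain ⟨e, heH, hepos⟩ := hE
    have hsum : dens H n x
        = ∑ w ∈ univ.filter (fun w : Fin (n + 1) → V => univ.image w = e), ∏ i, x (w i) := by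
      unfold BO.dens
      symm
      apply Finset.sum_subset
      · intro w hw
        rw [Finset.mem_filter] at hw ⊢
        exact ⟨hw.1, by rw [hw.2]; exact heH⟩
      · intro w hw hw'
        rw [Finset.mem_filter] at hw hw'
        apply hzero
        intro hpos
        exact hw' ⟨hw.1, h1 _ hw.2 _ heH hpos hepos⟩
    have hcard : e.card = n + 1 := hH e heH
    have hterm : ∀ w ∈ univ.filter (fun w : Fin (n + 1) → V => univ.image w = e),
        ∏ i, x (w i) = ∏ v ∈ e, x v := by
      intro w hw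
      rw [Finset.mem_filter] at hw
      have hinj : Function.Injective w := by
        have h2 : Set.InjOn w (Finset.univ : Finset (Fin (n + 1))) := by
          rw [← Finset.card_image_iff, hw.2, hcard, Finset.card_univ, Fintype.card_fin]
        rw [Finset.coe_univ] at h2
        exact Set.injOn_univ.1 h2
      rw [← hw.2, Finset.prod_image (fun a _ b _ hab => hinj hab)]
    rw [hsum, Finset.sum_congr rfl hterm, Finset.sum_const,
      Pool.Agent.Lib.MP_455133_co.BO.PattA_fib e (by rw [hcard, Fintype.card_fin]),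
      Fintype.card_fin, nsmul_eq_mul]
    have hle : ∑ v ∈ e, x v ≤ 1 := by
      rw [← hx1]
      exact Finset.sum_le_sum_of_subset_of_nonneg (Finset.subset_univ _)
        (fun v _ _ => hx0 v)
    have := OneE_amgm n e hcard hx0 hle
    calc ((n + 1).factorial : ℝ) * ∏ v ∈ e, x v
        ≤ ((n + 1).factorial : ℝ) * (1 / ((n : ℝ) + 1) ^ (n + 1)) := by gcongr
      _ = ((n + 1).factorial : ℝ) / ((n : ℝ) + 1) ^ (n + 1) := by ring
  · push Not at hE
    have : dens H n x = 0 := by
      unfold BO.dens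
      apply Finset.sum_eq_zero
      intro w hw
      rw [Finset.mem_filter] at hw
      apply hzero
      intro hpos
      obtain ⟨v, hv, hv0⟩ := hE _ hw.2
      exact absurd (hpos v hv) (not_lt.2 hv0)
    rw [this]
    positivity

end Pool.Agent.Lib.MP_455133_co.BT
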