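import Mathlib
import Pool.Agent.Lib.MP_455133_co.BO.Lagr

/-!
The density of 3-graphs in which two edges of positive weight share at most one vertex.
-/

namespace Pool.Agent.Lib.MP_455133_co.BT

open Finset
open Pool.Agent.Lib.MP_455133_co.BO (dens ldens)

variable {V : Type} [Fintype V] [DecidableEq V]

private theorem Sts_card {v a b : V} (h : (insert v ({a, b} : Finset V)).card = 3) :
    v ≠ a ∧ v ≠ b ∧ a ≠ b := by
  have h2 : ∀ c d : V, ({c, d} : Finset V).card ≤ 2 := fun c d => Finset.card_le_two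
  refine ⟨?_, ?_, ?_⟩
  · rintro rfl
    rw [Finset.insert_eq_self.mpr (by simp)] at h
    have := h2 v b
    omega
  · rintro rfl
    rw [Finset.insert_eq_self.mpr (by simp)] at h
    have := h2 a v
    omega
  · rintro rfl
    rw [Finset.insert_eq_self.mpr (by simp : a ∈ ({a} : Finset V))] at h
    have := h2 v a
    have h3 : (insert v ({a} : Finset V)) = {v, a} := rfl
    rw [h3] at h
    omega

private theorem Sts_image (w : Fin 2 → V) : univ.image w = {w 0, w 1} := by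
  ext a
  simp only [mem_image, mem_univ, true_and, mem_insert, mem_singleton, Fin.exists_fin_two]
  constructor
  · rintro (h | h)
    · exact Or.inl h.symm
    · exact Or.inr h.symm
  · rintro (h | h)
    · exact Or.inl h.symm
    · exact Or.inr h.symm

/-- the pairs completing `v` to an edge of positive weight -/
private noncomputable def Sts_P (H : Finset (Finset V)) (v : V) (x : V → ℝ) : Finset (V × V) := by
  classical
  exact univ.filter fun p => insert v ({p.1, p.2} : Finset V) ∈ H ∧ 0 < x p.1 ∧ 0 < x p.2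

private theorem Sts_mem {H : Finset (Finset V)} {v : V} {x : V → ℝ} {p : V × V} :
    p ∈ Sts_P H v x ↔ insert v ({p.1, p.2} : Finset V) ∈ H ∧ 0 < x p.1 ∧ 0 < x p.2 := by
  classical
  unfold Sts_P
  rw [mem_filter]
  exact ⟨fun h => h.2, fun h => ⟨mem_univ _, h⟩⟩

private theorem Sts_ldens (H : Finset (Finset V)) (v : V) {x : V → ℝ} (hx : ∀ u, 0 ≤ x u) :
    ldens H 2 v x = ∑ p ∈ Sts_P H v x, x p.1 * x p.2 := by
  classical
  unfold Sts_P ldens
  rw [Finset.sum_filter, Finset.sum_filter]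
  refine Fintype.sum_equiv (finTwoArrowEquiv V) _ _ fun w => ?_
  rw [Sts_image, Fin.prod_univ_two]
  have h1 : (finTwoArrowEquiv V) w = (w 0, w 1) := rfl
  rw [h1]
  dsimp only
  by_cases h : insert v ({w 0, w 1} : Finset V) ∈ H
  · rw [if_pos h]
    by_cases h0 : 0 < x (w 0) ∧ 0 < x (w 1)
    · rw [if_pos ⟨h, h0⟩]
    · rw [if_neg (fun h' => h0 h'.2)]
      rcases not_and_or.mp h0 with h2 | h2
      · have h3 : x (w 0) = 0 := le_antisymm (not_lt.mp h2) (hx _)
        rw [h3, zero_mul]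
      · have h3 : x (w 1) = 0 := le_antisymm (not_lt.mp h2) (hx _)
        rw [h3, mul_zero]
  · rw [if_neg h, if_neg (fun h' => h h'.1)]

private theorem Sts_inj {H : Finset (Finset V)} (hH : ∀ e ∈ H, e.card = 3) {x : V → ℝ} {v : V}
    (hv : 0 < x v)
    (hlin : ∀ e ∈ H, ∀ f ∈ H, (∀ v ∈ e, 0 < x v) → (∀ v ∈ f, 0 < x v) →
      ∀ u v, u ≠ v → u ∈ e → v ∈ e → u ∈ f → v ∈ f → e = f) {a b b' : V}
    (h : insert v ({a, b} : Finset V) ∈ H ∧ 0 < x a ∧ 0 < x b)
    (h' : insert v ({a, b'} : Finset V) ∈ H ∧ 0 < x a ∧ 0 < x b') : b = b' := by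
  obtain ⟨h1, h2, h3⟩ := Sts_card (hH _ h.1)
  have hpos : ∀ c : V, 0 < x c → ∀ u ∈ insert v ({a, c} : Finset V), 0 < x u := by
    intro c hc u hu
    rw [mem_insert, mem_insert, mem_singleton] at hu
    rcases hu with rfl | rfl | rfl
    · exact hv
    · exact h.2.1
    · exact hc
  have he := hlin _ h.1 _ h'.1 (hpos b h.2.2) (hpos b' h'.2.2) v a h1
    (by simp) (by simp) (by simp) (by simp)
  have hb : b ∈ insert v ({a, b'} : Finset V) := by
    rw [← he]
    simp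
  rw [mem_insert, mem_insert, mem_singleton] at hb
  rcases hb with hb | hb | hb
  · exact absurd hb.symm h2
  · exact absurd hb.symm h3
  · exact hb

/-- Take `v` with `x v = M` maximal. Let `R` be the set of pairs `(a, b)` with `{v, a, b} ∈ H`,
`x a, x b > 0`; here `a, b, v` are distinct, and by `hlin` every `a` has at most one partner `b`
and conversely. By `hopt`, `dens = ldens v x = ∑_{(a,b) ∈ R} x a x b` (the entries `w 0 = a`,
`w 1 = b`).
If `M ≤ 1 / 3`: the sum is at most `∑_{a ≠ v} x a * M = M (1 - M) ≤ 2 / 9`.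
If `M ≥ 1 / 3`: let `S = ∑_{a ≠ v} x a = 1 - M`. Then `∑_R x a x b ≤ ∑_R (x a ^ 2 + x b ^ 2) / 2
≤ ∑_{a ≠ v} x a ^ 2` and `∑_{a ≠ v} x a ^ 2 + ∑_R x a x b ≤ S ^ 2` (as `a ≠ b` in `R`), so
`∑_R x a x b ≤ S ^ 2 / 2 ≤ 2 / 9`. -/
theorem dens_linear (H : Finset (Finset V)) (hH : ∀ e ∈ H, e.card = 3)
    {x : V → ℝ} (hx : x ∈ stdSimplex ℝ V)
    (hopt : ∀ v, 0 < x v → ldens H 2 v x = dens H 2 x)
    (hlin : ∀ e ∈ H, ∀ f ∈ H, (∀ v ∈ e, 0 < x v) → (∀ v ∈ f, 0 < x v) →
      ∀ u v, u ≠ v → u ∈ e → v ∈ e → u ∈ f → v ∈ f → e = f) :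
    dens H 2 x ≤ 2 / 9 := by
  classical
  obtain ⟨hx0, hx1⟩ := hx
  obtain ⟨u, hu⟩ : ∃ u, 0 < x u := by
    by_contra hcon
    push Not at hcon
    have : ∑ u, x u ≤ 0 := Finset.sum_nonpos fun u _ => hcon u
    linarith
  obtain ⟨v, -, hmax⟩ := Finset.exists_max_image univ x ⟨u, mem_univ u⟩
  have hv : 0 < x v := lt_of_lt_of_le hu (hmax u (mem_univ u))
  rw [← hopt v hv, Sts_ldens H v hx0]
  have hP : ∀ p ∈ Sts_P H v x, p.1 ∈ univ.erase v ∧ p.2 ∈ univ.erase v ∧ p.1 ≠ p.2 := by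
    intro p hp
    obtain ⟨h1, h2, h3⟩ := Sts_card (hH _ (Sts_mem.mp hp).1)
    exact ⟨mem_erase.mpr ⟨h1.symm, mem_univ _⟩, mem_erase.mpr ⟨h2.symm, mem_univ _⟩, h3⟩
  have hinj1 : Set.InjOn Prod.fst (Sts_P H v x : Set (V × V)) := by
    rintro ⟨a, b⟩ hp ⟨a', b'⟩ hq h
    have h' : a = a' := h
    subst h'
    have h2 : b = b' := Sts_inj hH hv hlin (Sts_mem.mp (mem_coe.mp hp)) (Sts_mem.mp (mem_coe.mp hq))
    rw [h2]
  have hinj2 : Set.InjOn Prod.snd (Sts_P H v x : Set (V × V)) := by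
    rintro ⟨a, b⟩ hp ⟨a', b'⟩ hq h
    have h' : b = b' := h
    subst h'
    have h3 := Sts_mem.mp (mem_coe.mp hp)
    have h4 := Sts_mem.mp (mem_coe.mp hq)
    dsimp only at h3 h4
    rw [Finset.pair_comm a b] at h3
    rw [Finset.pair_comm a' b] at h4
    have h2 : a = a' := Sts_inj hH hv hlin ⟨h3.1, h3.2.2, h3.2.1⟩ ⟨h4.1, h4.2.2, h4.2.1⟩
    rw [h2]
  have hsum1 : ∀ g : V → ℝ, (∀ a, 0 ≤ g a) → ∑ p ∈ Sts_P H v x, g p.1 ≤ ∑ a ∈ univ.erase v, g a := by
    intro g hg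
    rw [← Finset.sum_image (f := g) hinj1]
    refine Finset.sum_le_sum_of_subset_of_nonneg ?_ fun a _ _ => hg a
    intro a ha
    obtain ⟨p, hp, rfl⟩ := mem_image.mp ha
    exact (hP p hp).1
  have hsum2 : ∀ g : V → ℝ, (∀ a, 0 ≤ g a) → ∑ p ∈ Sts_P H v x, g p.2 ≤ ∑ a ∈ univ.erase v, g a := by
    intro g hg
    rw [← Finset.sum_image (f := g) hinj2]
    refine Finset.sum_le_sum_of_subset_of_nonneg ?_ fun a _ _ => hg a
    intro a ha
    obtain ⟨p, hp, rfl⟩ := mem_image.mp ha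
    exact (hP p hp).2.1
  have hS : ∑ a ∈ univ.erase v, x a = 1 - x v := by
    have := Finset.add_sum_erase univ x (mem_univ v)
    linarith
  rcases le_total (x v) (1 / 3) with hM | hM
  · have h1 : ∑ p ∈ Sts_P H v x, x p.1 * x p.2 ≤ ∑ p ∈ Sts_P H v x, x p.1 * x v :=
      Finset.sum_le_sum fun p _ => mul_le_mul_of_nonneg_left (hmax _ (mem_univ _)) (hx0 _)
    rw [← Finset.sum_mul] at h1
    have h2 := hsum1 x hx0
    rw [hS] at h2
    have h3 := mul_le_mul_of_nonneg_right h2 hv.le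
    nlinarith [mul_nonneg (sub_nonneg.mpr hM) (by linarith : (0 : ℝ) ≤ 2 / 3 - x v)]
  · have h1 : ∑ p ∈ Sts_P H v x, x p.1 * x p.2 ≤
        (∑ p ∈ Sts_P H v x, x p.1 ^ 2 + ∑ p ∈ Sts_P H v x, x p.2 ^ 2) / 2 := by
      rw [← Finset.sum_add_distrib, Finset.sum_div]
      refine Finset.sum_le_sum fun p _ => ?_
      nlinarith [sq_nonneg (x p.1 - x p.2)]
    have h2 := hsum1 (fun a => x a ^ 2) fun a => sq_nonneg _
    have h3 := hsum2 (fun a => x a ^ 2) fun a => sq_nonneg _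
    have h4 : ∑ a ∈ univ.erase v, x a ^ 2 + ∑ p ∈ Sts_P H v x, x p.1 * x p.2 ≤ (1 - x v) ^ 2 := by
      rw [← hS, sq (∑ a ∈ univ.erase v, x a), Finset.sum_mul_sum, ← Finset.sum_product']
      have h5 : ∑ a ∈ univ.erase v, x a ^ 2 =
          ∑ p ∈ (univ.erase v).image (fun a => (a, a)), x p.1 * x p.2 := by
        rw [Finset.sum_image (by
          intro a _ b _ h
          exact (Prod.mk.inj h).1)]
        refine Finset.sum_congr rfl fun a _ => ?_
        rw [sq]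
      have hdisj : Disjoint ((univ.erase v).image (fun a => (a, a))) (Sts_P H v x) := by
        rw [Finset.disjoint_left]
        intro p hp hp'
        obtain ⟨a, -, rfl⟩ := mem_image.mp hp
        exact (hP _ hp').2.2 rfl
      rw [h5, ← Finset.sum_union hdisj]
      refine Finset.sum_le_sum_of_subset_of_nonneg ?_ fun p _ _ => mul_nonneg (hx0 _) (hx0 _)
      intro p hp
      rw [mem_product]
      rcases mem_union.mp hp with hp | hp
      · obtain ⟨a, ha, rfl⟩ := mem_image.mp hp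
        exact ⟨ha, ha⟩
      · exact ⟨(hP p hp).1, (hP p hp).2.1⟩
    have h6 : x v ≤ 1 := by
      have h7 : 0 ≤ ∑ a ∈ univ.erase v, x a := Finset.sum_nonneg fun a _ => hx0 a
      linarith
    nlinarith

end Pool.Agent.Lib.MP_455133_co.BT
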