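import Mathlib
import Pool.Agent.Lib.MP_455133_co.BT.FracD
import Pool.Agent.Lib.MP_455133_co.BT.Cov
import Pool.Agent.Lib.MP_455133_co.BT.CovM
import Pool.Agent.Lib.MP_455133_co.BT.OneE
import Pool.Agent.Lib.MP_455133_co.BT.Sts

/-!
The second value for `k = 1`.
-/

namespace Pool.Agent.Lib.MP_455133_co.BT

open Finset
open Pool.Agent.Lib.MP_455133_co.BO (dens ldens)

private theorem Plat_nonempty {V : Type} [Fintype V] {x : V → ℝ} (hx : x ∈ stdSimplex ℝ V) :
    Nonempty V := by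
  by_contra h
  rw [not_nonempty_iff] at h
  have h1 := hx.2
  rw [Finset.univ_eq_empty, Finset.sum_empty] at h1
  exact zero_ne_one h1

private theorem Plat_zeta {V Y : Type} [Fintype V] [DecidableEq V] [Fintype Y] [Nonempty V]
    {μ : Y → ℝ} {I : Y → Finset V} (hμ : ∀ y, 0 ≤ μ y)
    (hcov : ∀ v, 1 ≤ ∑ y ∈ univ.filter (fun y => v ∈ I y), μ y) : 0 ≤ ∑ y, μ y - 1 := by
  obtain ⟨v⟩ := ‹Nonempty V›
  have h1 := hcov v
  have h2 : ∑ y ∈ univ.filter (fun y => v ∈ I y), μ y ≤ ∑ y, μ y :=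
    Finset.sum_le_sum_of_subset_of_nonneg (Finset.filter_subset _ _) (fun y _ _ => hμ y)
  linarith

private theorem Plat_card {V : Type} [DecidableEq V] {n : ℕ} {e f : Finset V}
    (he : e.card = n + 1) (hf : f.card = n + 1) (hne : e ≠ f) :
    1 ≤ (e \ f).card ∧ (e \ f).card ≤ n + 1 := by
  constructor
  · rw [Nat.one_le_iff_ne_zero, Ne, Finset.card_eq_zero, Finset.sdiff_eq_empty_iff_subset]
    intro h
    exact hne (Finset.eq_of_subset_of_card_le h (by rw [he, hf]))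
  · rw [← he]
    exact Finset.card_le_card Finset.sdiff_subset

private theorem Plat_num {n i z : ℝ} (hn : 2 ≤ n) (h1 : 1 ≤ i) (h2 : i ≤ n + 1) (h0 : 0 ≤ z)
    (hz : z < 1 / (n - (n + 1) / ((n + 1) ^ 2 + 1))) :
    z * (n - i + i ^ 2 * n) < 1 + i ^ 2 := by
  set c := n - (n + 1) / ((n + 1) ^ 2 + 1) with hc
  have hN : 0 < (n + 1) ^ 2 + 1 := by positivity
  have hlt : (n + 1) / ((n + 1) ^ 2 + 1) < 1 := by
    rw [div_lt_one hN]
    nlinarith
  have hc0 : 0 < c := by rw [hc]; linarith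
  have hzc : z * c < 1 := by
    rw [lt_div_iff₀ hc0] at hz
    exact hz
  have hkey : n - i + i ^ 2 * n ≤ (1 + i ^ 2) * c := by
    have h3 : (1 + i ^ 2) * ((n + 1) / ((n + 1) ^ 2 + 1)) ≤ i := by
      rw [← mul_div_assoc, div_le_iff₀ hN]
      have h4 : 0 ≤ (n + 1 - i) * (i * (n + 1) - 1) := by
        apply mul_nonneg
        · linarith
        · nlinarith
      nlinarith
    rw [hc]
    nlinarith
  calc z * (n - i + i ^ 2 * n) ≤ z * ((1 + i ^ 2) * c) := mul_le_mul_of_nonneg_left hkey h0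
    _ = (1 + i ^ 2) * (z * c) := by ring
    _ < (1 + i ^ 2) * 1 := by
        apply mul_lt_mul_of_pos_left hzc
        positivity
    _ = 1 + i ^ 2 := by ring

/-- Take `x` from `exists_opt_cov` and put `ζ = ∑ μ - 1`, so `ζ ≥ 0` when `V` is nonempty. If
two edges `e ≠ f` had all their vertices of positive weight, then with `i = card (e \ f)`,
`1 ≤ i ≤ n + 1`, `two_edges` gives `1 + i ^ 2 ≤ ζ (n - i + i ^ 2 n)`, i.e.
`ζ (n - i / (i ^ 2 + 1)) ≥ 1`; as `i / (i ^ 2 + 1)` is decreasing in `i ≥ 1`, this contradicts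
`ζ < 1 / (n - (n + 1) / ((n + 1) ^ 2 + 1))`. So `dens_one_edge` applies. -/
theorem frac_plat {n : ℕ} (hn : 2 ≤ n) :
    FracD n (1 + 1 / ((n : ℝ) - ((n : ℝ) + 1) / (((n : ℝ) + 1) ^ 2 + 1)))
      (((n + 1).factorial : ℝ) / ((n : ℝ) + 1) ^ (n + 1)) := by
  intro V Y _ _ _ H hH μ I hμ hI hz hcov x hx
  haveI := Plat_nonempty hx
  obtain ⟨x', hx', hmax, -, hpair⟩ := exists_opt_cov H n hH
  refine (hmax x hx).trans ?_
  have hζ := Plat_zeta hμ hcov
  refine dens_one_edge H n hH hx' ?_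
  intro e he f hf hxe hxf
  by_contra hne
  obtain ⟨hi1, hi2⟩ := Plat_card (hH e he) (hH f hf) hne
  have h1 := two_edges H hH μ I hμ hI hcov he hf (fun u hu v hv _ hve =>
    hpair u v (hxe u hu) (hxf v hv) (fun h => hve (h ▸ hu)))
  have h2 : (1 : ℝ) ≤ ((e \ f).card : ℝ) := by exact_mod_cast hi1
  have h3 : ((e \ f).card : ℝ) ≤ (n : ℝ) + 1 := by exact_mod_cast hi2
  have h4 := Plat_num (n := n) (by exact_mod_cast hn) h2 h3 hζ (by linarith)
  linarith

/-- As in `frac_plat` with `n = 2`: two edges `e ≠ f` of positive weight sharing two vertices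
have `i = 1` and `two_edges` gives `2 ≤ 3 ζ`, against `ζ < 2 / 3`. So `dens_linear` applies. -/
theorem frac_plat3 : FracD 2 (5 / 3) (2 / 9) := by
  intro V Y _ _ _ H hH μ I hμ hI hz hcov x hx
  haveI := Plat_nonempty hx
  obtain ⟨x', hx', hmax, hopt, hpair⟩ := exists_opt_cov H 2 hH
  refine (hmax x hx).trans ?_
  refine dens_linear H hH hx' hopt ?_
  intro e he f hf hxe hxf u v huv hue hve huf hvf
  by_contra hne
  obtain ⟨hi1, -⟩ := Plat_card (hH e he) (hH f hf) hne
  have h1 := two_edges H hH μ I hμ hI hcov he hf (fun u hu v hv _ hve =>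
    hpair u v (hxe u hu) (hxf v hv) (fun h => hve (h ▸ hu)))
  have h2 : (e \ f).card = 1 := by
    have h3 : ({u, v} : Finset V) ⊆ e ∩ f := by
      intro a ha
      rw [Finset.mem_insert, Finset.mem_singleton] at ha
      rcases ha with rfl | rfl
      · exact Finset.mem_inter.2 ⟨hue, huf⟩
      · exact Finset.mem_inter.2 ⟨hve, hvf⟩
    have h4 := Finset.card_le_card h3
    rw [Finset.card_pair huv] at h4
    have h5 := Finset.card_sdiff_add_card_inter e f
    have h6 := hH e he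
    omega
  rw [h2] at h1
  norm_num at h1
  linarith

end Pool.Agent.Lib.MP_455133_co.BT
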