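import Mathlib
import Pool.Agent.Lib.MP_455133_co.BO.Opt
import Pool.Agent.Lib.MP_455133_co.BT.FracD

/-!
The fractional theorem for `3`-sets with excess `1 / (k + 1)`.
-/

namespace Pool.Agent.Lib.MP_455133_co.BT

open Finset
open Pool.Agent.Lib.MP_455133_co.BO (lnk dens ldens_add exists_opt)

open Classical in
/-- The weight of the related pairs of `U`. -/
private noncomputable def Three_w {V : Type} (R : V → V → Prop) (ξ : V → ℝ) (U : Finset V) : ℝ :=
  ∑ x ∈ U, ∑ x' ∈ U, (if R x x' then ξ x * ξ x' else 0)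

open Classical in
/-- Weighted Motzkin-Straus theorem: if a reflexive symmetric relation has no `k + 1` pairwise
unrelated elements in `U`, the related pairs carry at least the fraction `1 / k`. -/
private theorem Three_ms {V : Type} (R : V → V → Prop) (hrefl : ∀ v, R v v)
    (hsymm : ∀ u v, R u v → R v u) {ξ : V → ℝ} (hξ : ∀ v, 0 ≤ ξ v) (k : ℕ) :
    ∀ U : Finset V, (∀ S ⊆ U, (∀ u ∈ S, ∀ v ∈ S, u ≠ v → ¬ R u v) → S.card ≤ k) →
      (∑ u ∈ U, ξ u) ^ 2 ≤ k * Three_w R ξ U := by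
  unfold Three_w
  induction k with
  | zero =>
    intro U hU
    have h1 : U = ∅ := by
      rw [Finset.eq_empty_iff_forall_notMem]
      intro u hu
      have h2 := hU {u} (Finset.singleton_subset_iff.2 hu) (by
        intro a ha b hb hab
        rw [Finset.mem_singleton] at ha hb
        exact absurd (ha.trans hb.symm) hab)
      simp at h2
    subst h1
    simp
  | succ k ih =>
    intro U hU
    rcases U.eq_empty_or_nonempty with rfl | hne
    · simp
    -- the unrelated weight at `v`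
    obtain ⟨v, hv, hmax⟩ := Finset.exists_max_image U
      (fun v => ∑ u ∈ U, (if R v u then 0 else ξ u)) hne
    set D : ℝ := ∑ u ∈ U, (if R v u then 0 else ξ u) with hD
    set A : Finset V := U.filter fun u => ¬ R v u with hA
    have hAU : A ⊆ U := Finset.filter_subset _ _
    have hAD : ∑ u ∈ A, ξ u = D := by
      rw [hA, hD, Finset.sum_filter]
      refine Finset.sum_congr rfl fun u _ => ?_
      by_cases h : R v u
      · rw [if_neg (not_not.2 h), if_pos h]
      · rw [if_pos h, if_neg h]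
    have hD0 : 0 ≤ D := by
      rw [← hAD]
      exact Finset.sum_nonneg fun u _ => hξ u
    have hIH := ih A (by
      intro S hS hind
      have hvS : v ∉ S := by
        intro h
        exact (Finset.mem_filter.1 (hS h)).2 (hrefl v)
      have h1 := hU (insert v S) (Finset.insert_subset_iff.2 ⟨hv, hS.trans hAU⟩) (by
        intro a ha b hb hab
        rw [Finset.mem_insert] at ha hb
        rcases ha with rfl | ha <;> rcases hb with rfl | hb
        · exact absurd rfl hab
        · exact (Finset.mem_filter.1 (hS hb)).2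
        · exact fun h => (Finset.mem_filter.1 (hS ha)).2 (hsymm _ _ h)
        · exact hind a ha b hb hab)
      rw [Finset.card_insert_of_notMem hvS] at h1
      omega)
    rw [hAD] at hIH
    -- the unrelated pairs
    have hg0 : ∀ u w, (0 : ℝ) ≤ (if R u w then 0 else ξ u * ξ w) := by
      intro u w
      split_ifs
      · exact le_rfl
      · exact mul_nonneg (hξ u) (hξ w)
    have hsq : ∀ W : Finset V, (∑ u ∈ W, ξ u) ^ 2 =
        ∑ u ∈ W, ∑ w ∈ W, (if R u w then ξ u * ξ w else 0) +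
          ∑ u ∈ W, ∑ w ∈ W, (if R u w then 0 else ξ u * ξ w) := by
      intro W
      rw [sq, Finset.sum_mul_sum, ← Finset.sum_add_distrib]
      refine Finset.sum_congr rfl fun u _ => ?_
      rw [← Finset.sum_add_distrib]
      refine Finset.sum_congr rfl fun w _ => ?_
      split_ifs <;> ring
    have hrow : ∀ w ∈ U, ∑ u ∈ U, (if R w u then 0 else ξ w * ξ u) ≤ ξ w * D := by
      intro w hw
      have h1 : ∑ u ∈ U, (if R w u then 0 else ξ w * ξ u) =
          ξ w * ∑ u ∈ U, (if R w u then 0 else ξ u) := by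
        rw [Finset.mul_sum]
        refine Finset.sum_congr rfl fun u _ => ?_
        split_ifs <;> ring
      rw [h1]
      exact mul_le_mul_of_nonneg_left (hmax w hw) (hξ w)
    have hB : ∑ u ∈ U \ A, ∑ w ∈ U, (if R u w then 0 else ξ u * ξ w) ≤
        D * (∑ u ∈ U, ξ u - D) := by
      calc ∑ u ∈ U \ A, ∑ w ∈ U, (if R u w then 0 else ξ u * ξ w)
          ≤ ∑ u ∈ U \ A, ξ u * D := Finset.sum_le_sum fun u hu =>
            hrow u (Finset.sdiff_subset hu)
        _ = D * ∑ u ∈ U \ A, ξ u := by rw [← Finset.sum_mul, mul_comm]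
        _ = D * (∑ u ∈ U, ξ u - D) := by
            rw [← hAD, ← Finset.sum_sdiff hAU]
            ring
    have hC : ∑ u ∈ A, ∑ w ∈ U \ A, (if R u w then 0 else ξ u * ξ w) ≤
        ∑ u ∈ U \ A, ∑ w ∈ U, (if R u w then 0 else ξ u * ξ w) := by
      rw [Finset.sum_comm]
      refine Finset.sum_le_sum fun w _ => ?_
      calc ∑ u ∈ A, (if R u w then 0 else ξ u * ξ w)
          = ∑ u ∈ A, (if R w u then 0 else ξ w * ξ u) := by
            refine Finset.sum_congr rfl fun u _ => ?_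
            have : R u w ↔ R w u := ⟨hsymm _ _, hsymm _ _⟩
            rw [mul_comm (ξ u)]
            by_cases h : R u w
            · rw [if_pos h, if_pos (this.1 h)]
            · rw [if_neg h, if_neg (fun h' => h (this.2 h'))]
        _ ≤ ∑ u ∈ U, (if R w u then 0 else ξ w * ξ u) :=
            Finset.sum_le_sum_of_subset_of_nonneg hAU fun u _ _ => hg0 w u
    have hN : ∑ u ∈ U, ∑ w ∈ U, (if R u w then 0 else ξ u * ξ w) ≤
        ∑ u ∈ A, ∑ w ∈ A, (if R u w then 0 else ξ u * ξ w) +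
          2 * (D * (∑ u ∈ U, ξ u - D)) := by
      have h1 : ∑ u ∈ U, ∑ w ∈ U, (if R u w then 0 else ξ u * ξ w) =
          ∑ u ∈ U \ A, ∑ w ∈ U, (if R u w then 0 else ξ u * ξ w) +
            ∑ u ∈ A, ∑ w ∈ U, (if R u w then 0 else ξ u * ξ w) :=
        (Finset.sum_sdiff hAU).symm
      have h2 : ∑ u ∈ A, ∑ w ∈ U, (if R u w then 0 else ξ u * ξ w) =
          ∑ u ∈ A, ∑ w ∈ U \ A, (if R u w then 0 else ξ u * ξ w) +
            ∑ u ∈ A, ∑ w ∈ A, (if R u w then 0 else ξ u * ξ w) := by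
        rw [← Finset.sum_add_distrib]
        refine Finset.sum_congr rfl fun u _ => ?_
        exact (Finset.sum_sdiff hAU).symm
      linarith
    have hsqU := hsq U
    have hsqA := hsq A
    rw [hAD] at hsqA
    have hE0 : 0 ≤ ∑ u ∈ A, ∑ w ∈ A, (if R u w then ξ u * ξ w else 0) := by
      refine Finset.sum_nonneg fun u _ => Finset.sum_nonneg fun w _ => ?_
      split_ifs
      · exact mul_nonneg (hξ u) (hξ w)
      · exact le_rfl
    set K : ℝ := ∑ u ∈ U, ξ u
    set EU : ℝ := ∑ u ∈ U, ∑ w ∈ U, (if R u w then ξ u * ξ w else 0)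
    set NU : ℝ := ∑ u ∈ U, ∑ w ∈ U, (if R u w then 0 else ξ u * ξ w)
    set EA : ℝ := ∑ u ∈ A, ∑ w ∈ A, (if R u w then ξ u * ξ w else 0)
    set NA : ℝ := ∑ u ∈ A, ∑ w ∈ A, (if R u w then 0 else ξ u * ξ w)
    push_cast
    rcases Nat.eq_zero_or_pos k with rfl | hk
    · have h1 : D ^ 2 ≤ 0 := by
        have := hIH
        push_cast at this
        linarith
      have h2 : D = 0 := by nlinarith
      rw [h2] at hN hsqA
      push_cast
      nlinarith
    · have hk' : (0 : ℝ) < k := by exact_mod_cast hk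
      have h1 : k * NU ≤ (k - 1) * D ^ 2 + 2 * k * (D * (K - D)) := by
        have h2 : k * NU ≤ k * (NA + 2 * (D * (K - D))) :=
          mul_le_mul_of_nonneg_left hN hk'.le
        have h3 : k * D ^ 2 = k * EA + k * NA := by rw [hsqA]; ring
        nlinarith
      have h4 : 0 ≤ (k * K - (k + 1) * D) ^ 2 := sq_nonneg _
      have h5 : (k * (k + 1)) * NU ≤ k * (k * K ^ 2) := by nlinarith
      have h6 : (k + 1) * NU ≤ k * K ^ 2 := by
        have h7 : (k : ℝ) * ((k + 1) * NU) ≤ k * (k * K ^ 2) := by linarith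
        exact le_of_mul_le_mul_left h7 hk'
      nlinarith

/-- A cover of least total weight. -/
private theorem Three_opt {V Y : Type} [Fintype V] [DecidableEq V] [Fintype Y] (I : Y → Finset V)
    {μ : Y → ℝ} (hμ : ∀ y, 0 ≤ μ y)
    (hcov : ∀ v, 1 ≤ ∑ y ∈ univ.filter (fun y => v ∈ I y), μ y) :
    ∃ ν : Y → ℝ, (∀ y, 0 ≤ ν y) ∧ (∀ v, 1 ≤ ∑ y ∈ univ.filter (fun y => v ∈ I y), ν y) ∧
      ∀ ρ : Y → ℝ, (∀ y, 0 ≤ ρ y) → (∀ v, 1 ≤ ∑ y ∈ univ.filter (fun y => v ∈ I y), ρ y) →
        ∑ y, ν y ≤ ∑ y, ρ y := by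
  have hclosed : IsClosed {ν : Y → ℝ | (∀ y, 0 ≤ ν y) ∧
      (∀ v, 1 ≤ ∑ y ∈ univ.filter (fun y => v ∈ I y), ν y) ∧ ∑ y, ν y ≤ ∑ y, μ y} := by
    refine IsClosed.inter ?_ (IsClosed.inter ?_ ?_)
    · have h1 : {ν : Y → ℝ | ∀ y, 0 ≤ ν y} = ⋂ y, {ν : Y → ℝ | 0 ≤ ν y} := by
        ext ν; simp
      have h2 : IsClosed (⋂ y, {ν : Y → ℝ | 0 ≤ ν y}) :=
        isClosed_iInter fun y => isClosed_le continuous_const (continuous_apply y)
      rw [← h1] at h2
      exact h2
    · have h1 : {ν : Y → ℝ | ∀ v, 1 ≤ ∑ y ∈ univ.filter (fun y => v ∈ I y), ν y} =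
          ⋂ v, {ν : Y → ℝ | 1 ≤ ∑ y ∈ univ.filter (fun y => v ∈ I y), ν y} := by
        ext ν; simp
      have h2 : IsClosed (⋂ v, {ν : Y → ℝ | 1 ≤ ∑ y ∈ univ.filter (fun y => v ∈ I y), ν y}) :=
        isClosed_iInter fun v => isClosed_le continuous_const
          (continuous_finsetSum _ fun y _ => continuous_apply y)
      rw [← h1] at h2
      exact h2
    · exact isClosed_le (continuous_finsetSum _ fun y _ => continuous_apply y) continuous_const
  have hcomp : IsCompact {ν : Y → ℝ | (∀ y, 0 ≤ ν y) ∧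
      (∀ v, 1 ≤ ∑ y ∈ univ.filter (fun y => v ∈ I y), ν y) ∧ ∑ y, ν y ≤ ∑ y, μ y} := by
    refine IsCompact.of_isClosed_subset
      (isCompact_univ_pi fun _ : Y => isCompact_Icc (a := (0 : ℝ)) (b := ∑ y, μ y)) hclosed ?_
    rintro ν ⟨h0, -, h1⟩ y -
    exact ⟨h0 y, (Finset.single_le_sum (fun y _ => h0 y) (Finset.mem_univ y)).trans h1⟩
  obtain ⟨ν, ⟨hν0, hν1, hν2⟩, hmin⟩ := hcomp.exists_isMinOn ⟨μ, hμ, hcov, le_rfl⟩
    (f := fun ν : Y → ℝ => ∑ y, ν y)
    (continuous_finsetSum _ fun y _ => continuous_apply y).continuousOn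
  refine ⟨ν, hν0, hν1, fun ρ hρ0 hρ1 => ?_⟩
  by_cases h : ∑ y, ρ y ≤ ∑ y, μ y
  · exact hmin ⟨hρ0, hρ1, h⟩
  · push Not at h
    linarith

/-- The packing inequality. -/
private theorem Three_pack {V Y : Type} [Fintype V] [DecidableEq V] [Fintype Y]
    (I : Y → Finset V) {ν : Y → ℝ} (h0 : ∀ y, 0 ≤ ν y)
    (h1 : ∀ v, 1 ≤ ∑ y ∈ univ.filter (fun y => v ∈ I y), ν y)
    (hmin : ∀ ρ : Y → ℝ, (∀ y, 0 ≤ ρ y) →
      (∀ v, 1 ≤ ∑ y ∈ univ.filter (fun y => v ∈ I y), ρ y) → ∑ y, ν y ≤ ∑ y, ρ y)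
    {u : Y → ℝ} (hsupp : ∀ y, ν y = 0 → u y = 0)
    (hload : ∀ v, ∑ y ∈ univ.filter (fun y => v ∈ I y), u y ≤ 1) : ∑ y, u y ≤ ∑ y, ν y := by
  have hev : ∀ᶠ ε : ℝ in nhdsWithin 0 (Set.Ioi 0), ∀ y, ε * u y ≤ ν y := by
    rw [Filter.eventually_all]
    intro y
    rcases (h0 y).eq_or_lt with h | h
    · refine Filter.Eventually.of_forall fun ε => ?_
      rw [hsupp y h.symm, mul_zero]
      exact h0 y
    · have hc : Continuous fun ε : ℝ => ε * u y := by fun_prop
      have h2 : ∀ᶠ ε : ℝ in nhds (0 : ℝ), ε * u y < ν y := by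
        refine hc.continuousAt.eventually_lt continuousAt_const ?_
        rw [zero_mul]
        exact h
      have h3 : ∀ᶠ ε : ℝ in nhdsWithin 0 (Set.Ioi 0), ε * u y < ν y :=
        h2.filter_mono nhdsWithin_le_nhds
      exact h3.mono fun ε hε => hε.le
  obtain ⟨ε, hε1, hε2⟩ := (hev.and self_mem_nhdsWithin).exists
  have hε0 : (0 : ℝ) < ε := hε2
  have h2 := hmin (fun y => (1 + ε) * ν y - ε * u y) (fun y => by
      have h3 := hε1 y
      have h4 : 0 ≤ ε * ν y := mul_nonneg hε0.le (h0 y)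
      linarith) (fun v => by
      rw [Finset.sum_sub_distrib, ← Finset.mul_sum, ← Finset.mul_sum]
      have h3 := h1 v
      have h4 := hload v
      nlinarith)
  rw [Finset.sum_sub_distrib, ← Finset.mul_sum, ← Finset.mul_sum] at h2
  by_contra hcon
  push Not at hcon
  nlinarith

open Classical in
/-- Pairs lying with `v` in an independent set. -/
private theorem Three_link {V Y : Type} [Fintype V] [DecidableEq V]
    {H : Finset (Finset V)} {ξ : V → ℝ} {I : Y → Finset V} (hξ : ∀ v, 0 ≤ ξ v)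
    (hI : ∀ y, ∀ e ∈ H, ¬ e ⊆ I y) (v : V) (hlink : ∑ w ∈ lnk H 2 v, ∏ i, ξ (w i) ≤ 1) :
    Three_w (fun x x' => ∃ y, v ∈ I y ∧ x ∈ I y ∧ x' ∈ I y) ξ univ ≤ 1 := by
  unfold Three_w
  refine le_trans ?_ hlink
  have h1 : ∑ w ∈ lnk H 2 v, ∏ i, ξ (w i) =
      ∑ x, ∑ x', (if ![x, x'] ∈ lnk H 2 v then ξ x * ξ x' else 0) := by
    rw [← Fintype.sum_prod_type'
      (f := fun x x' => (if ![x, x'] ∈ lnk H 2 v then ξ x * ξ x' else 0))]
    have h2 : ∑ w ∈ lnk H 2 v, ∏ i, ξ (w i) =
        ∑ w : Fin 2 → V, (if w ∈ lnk H 2 v then ∏ i, ξ (w i) else 0) := by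
      rw [Finset.sum_ite_mem, Finset.univ_inter]
    rw [h2, ← (finTwoArrowEquiv V).symm.sum_comp]
    refine Finset.sum_congr rfl fun p _ => ?_
    have h3 : (finTwoArrowEquiv V).symm p = ![p.1, p.2] := rfl
    rw [h3, Fin.prod_univ_two]
    rfl
  rw [h1]
  refine Finset.sum_le_sum fun x _ => Finset.sum_le_sum fun x' _ => ?_
  by_cases h : ∃ y, v ∈ I y ∧ x ∈ I y ∧ x' ∈ I y
  · obtain ⟨y, hv, hx, hx'⟩ := h
    rw [if_pos ⟨y, hv, hx, hx'⟩, if_pos]
    rw [lnk, Finset.mem_filter]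
    refine ⟨Finset.mem_univ _, fun hmem => hI y _ hmem ?_⟩
    intro a ha
    rw [Finset.mem_insert, Finset.mem_image] at ha
    rcases ha with rfl | ⟨i, -, rfl⟩
    · exact hv
    · fin_cases i
      · exact hx
      · exact hx'
  · rw [if_neg h]
    split_ifs
    · exact mul_nonneg (hξ x) (hξ x')
    · exact le_rfl

/-- The number of points of `T` in the sets of a cover. -/
private theorem Three_count {V Y : Type} [Fintype V] [DecidableEq V] [Fintype Y]
    (I : Y → Finset V) {ν : Y → ℝ} (h1 : ∀ v, 1 ≤ ∑ y ∈ univ.filter (fun y => v ∈ I y), ν y)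
    (T : Finset V) : (T.card : ℝ) ≤ ∑ y, ν y * ((T ∩ I y).card : ℝ) := by
  have h2 : ∑ v ∈ T, (1 : ℝ) ≤ ∑ v ∈ T, ∑ y ∈ univ.filter (fun y => v ∈ I y), ν y :=
    Finset.sum_le_sum fun v _ => h1 v
  rw [Finset.sum_const, nsmul_eq_mul, mul_one] at h2
  refine h2.trans (le_of_eq ?_)
  simp only [Finset.sum_filter]
  rw [Finset.sum_comm]
  refine Finset.sum_congr rfl fun y _ => ?_
  rw [← Finset.sum_filter, Finset.sum_const, nsmul_eq_mul, mul_comm, Finset.filter_mem_eq_inter]

/-- A set whose points are pairwise in no common member has at most one point in each. -/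
private theorem Three_one {V : Type} [DecidableEq V] {T J : Finset V}
    (h : ∀ u ∈ T, ∀ v ∈ T, u ≠ v → ¬ (u ∈ J ∧ v ∈ J)) : (T ∩ J).card ≤ 1 := by
  rw [Finset.card_le_one]
  intro a ha b hb
  rw [Finset.mem_inter] at ha hb
  by_contra hab
  exact h a ha.1 b hb.1 hab ⟨ha.2, hb.2⟩

open Classical in
/-- The pairs inside a member of an optimal cover weigh at most its total. -/
private theorem Three_pairs {V Y : Type} [Fintype V] [DecidableEq V] [Fintype Y]
    {H : Finset (Finset V)} {ξ : V → ℝ} {I : Y → Finset V} {ν : Y → ℝ} (hξ : ∀ v, 0 ≤ ξ v)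
    (hlink : ∀ v, ∑ w ∈ lnk H 2 v, ∏ i, ξ (w i) ≤ 1)
    (hI : ∀ y, ∀ e ∈ H, ¬ e ⊆ I y) (h0 : ∀ y, 0 ≤ ν y)
    (h1 : ∀ v, 1 ≤ ∑ y ∈ univ.filter (fun y => v ∈ I y), ν y)
    (hmin : ∀ ρ : Y → ℝ, (∀ y, 0 ≤ ρ y) →
      (∀ v, 1 ≤ ∑ y ∈ univ.filter (fun y => v ∈ I y), ρ y) → ∑ y, ν y ≤ ∑ y, ρ y) :
    Three_w (fun x x' => ∃ y, 0 < ν y ∧ x ∈ I y ∧ x' ∈ I y) ξ univ ≤ ∑ y, ν y := by
  unfold Three_w
  have hex : ∀ x x' : V, ∃ o : Option Y, (∀ y, o = some y → 0 < ν y ∧ x ∈ I y ∧ x' ∈ I y) ∧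
      ((∃ y, 0 < ν y ∧ x ∈ I y ∧ x' ∈ I y) → ∃ y, o = some y) := by
    intro x x'
    by_cases h : ∃ y, 0 < ν y ∧ x ∈ I y ∧ x' ∈ I y
    · obtain ⟨y, hy⟩ := h
      refine ⟨some y, fun y' hy' => ?_, fun _ => ⟨y, rfl⟩⟩
      rw [Option.some_inj] at hy'
      rw [← hy']
      exact hy
    · exact ⟨none, fun y hy => (by cases hy), fun h' => absurd h' h⟩
  choose o ho1 ho2 using hex
  have hp : ∀ x x', 0 ≤ ξ x * ξ x' := fun x x' => mul_nonneg (hξ x) (hξ x')
  have h2 := Three_pack I h0 h1 hmin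
    (u := fun y => ∑ x, ∑ x', (if o x x' = some y then ξ x * ξ x' else 0)) (by
      intro y hy
      refine Finset.sum_eq_zero fun x _ => Finset.sum_eq_zero fun x' _ => ?_
      rw [if_neg]
      intro h
      have := (ho1 x x' y h).1
      rw [hy] at this
      exact lt_irrefl _ this) (by
      intro v
      refine le_trans ?_ (Three_link hξ hI v (hlink v))
      unfold Three_w
      rw [Finset.sum_comm]
      refine Finset.sum_le_sum fun x _ => ?_
      rw [Finset.sum_comm]
      refine Finset.sum_le_sum fun x' _ => ?_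
      by_cases h : ∃ y ∈ univ.filter (fun y => v ∈ I y), o x x' = some y
      · obtain ⟨y, hy, hoy⟩ := h
        have h3 := ho1 x x' y hoy
        rw [if_pos ⟨y, (Finset.mem_filter.1 hy).2, h3.2.1, h3.2.2⟩]
        rw [Finset.sum_eq_single y]
        · rw [if_pos hoy]
        · intro y' _ hy'
          rw [if_neg]
          intro h4
          rw [hoy, Option.some_inj] at h4
          exact hy' h4.symm
        · intro h4
          exact absurd hy h4
      · push Not at h
        rw [Finset.sum_eq_zero (fun y hy => if_neg (h y hy))]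
        split_ifs
        · exact hp x x'
        · exact le_rfl)
  refine le_trans ?_ h2
  conv_rhs => rw [Finset.sum_comm]
  refine Finset.sum_le_sum fun x _ => ?_
  conv_rhs => rw [Finset.sum_comm]
  refine Finset.sum_le_sum fun x' _ => ?_
  by_cases h : ∃ y, 0 < ν y ∧ x ∈ I y ∧ x' ∈ I y
  · rw [if_pos h]
    obtain ⟨y, hy⟩ := ho2 x x' h
    have h3 := Finset.single_le_sum (f := fun y => (if o x x' = some y then ξ x * ξ x' else 0))
      (fun y _ => by
        show (0 : ℝ) ≤ if o x x' = some y then ξ x * ξ x' else 0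
        split_ifs
        · exact hp x x'
        · exact le_rfl) (Finset.mem_univ y)
    refine le_trans ?_ h3
    show ξ x * ξ x' ≤ if o x x' = some y then ξ x * ξ x' else 0
    rw [if_pos hy]
  · rw [if_neg h]
    refine Finset.sum_nonneg fun y _ => ?_
    split_ifs
    · exact hp x x'
    · exact le_rfl

open Classical in
/-- A union bound for `Three_w`. -/
private theorem Three_sub {V : Type} [Fintype V] {R : V → V → Prop} {ξ : V → ℝ}
    (hξ : ∀ v, 0 ≤ ξ v) (S : Finset V) (Q : V → V → V → Prop)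
    (h : ∀ x x', R x x' → ∃ c ∈ S, Q c x x') :
    Three_w R ξ univ ≤ ∑ c ∈ S, Three_w (Q c) ξ univ := by
  unfold Three_w
  conv_rhs => rw [Finset.sum_comm]
  refine Finset.sum_le_sum fun x _ => ?_
  conv_rhs => rw [Finset.sum_comm]
  refine Finset.sum_le_sum fun x' _ => ?_
  have hnn : ∀ c ∈ S, (0 : ℝ) ≤ (if Q c x x' then ξ x * ξ x' else 0) := by
    intro c _
    split_ifs
    · exact mul_nonneg (hξ x) (hξ x')
    · exact le_rfl
  by_cases hR : R x x'
  · rw [if_pos hR]
    obtain ⟨c, hc, hQ⟩ := h x x' hR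
    refine le_trans ?_ (Finset.single_le_sum hnn hc)
    rw [if_pos hQ]
  · rw [if_neg hR]
    exact Finset.sum_nonneg hnn

/-- No configuration with `n = 2` and excess `1 / (k + 1)`. -/
private theorem Three_no {V Y : Type} [Fintype V] [DecidableEq V] [Fintype Y] {k : ℕ}
    (hk : 1 ≤ k) {H : Finset (Finset V)} {ξ : V → ℝ} {μ : Y → ℝ} {I : Y → Finset V}
    (hξ : ∀ v, 0 ≤ ξ v) (hL : (k : ℝ) < ∑ v, ξ v)
    (hlink : ∀ v, ∑ w ∈ lnk H 2 v, ∏ i, ξ (w i) ≤ 1) (hμ : ∀ y, 0 ≤ μ y)
    (hI : ∀ y, ∀ e ∈ H, ¬ e ⊆ I y) (hz : ∑ y, μ y < (k : ℝ) + 1 / ((k : ℝ) + 1))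
    (hcov : ∀ v, 1 ≤ ∑ y ∈ univ.filter (fun y => v ∈ I y), μ y) : False := by
  classical
  obtain ⟨ν, h0, h1, hmin⟩ := Three_opt I hμ hcov
  have hz' : ∑ y, ν y < (k : ℝ) + 1 / ((k : ℝ) + 1) := lt_of_le_of_lt (hmin μ hμ hcov) hz
  have hk' : (1 : ℝ) ≤ k := by exact_mod_cast hk
  have hzk : (∑ y, ν y) * ((k : ℝ) + 1) < (k : ℝ) ^ 2 + k + 1 := by
    have h2 := mul_lt_mul_of_pos_right hz' (by linarith : (0 : ℝ) < (k : ℝ) + 1)
    have h3 : ((k : ℝ) + 1 / ((k : ℝ) + 1)) * ((k : ℝ) + 1) = (k : ℝ) ^ 2 + k + 1 := by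
      field_simp
    linarith
  -- `k` points, no two in a common member
  obtain ⟨S, hScard, hS⟩ : ∃ S : Finset V, S.card = k ∧
      ∀ y, 0 < ν y → (S ∩ I y).card ≤ 1 := by
    by_contra hcon
    push Not at hcon
    obtain ⟨m, rfl⟩ : ∃ m, k = m + 1 := ⟨k - 1, by omega⟩
    have h2 := Three_ms (fun x x' => ∃ y, 0 < ν y ∧ x ∈ I y ∧ x' ∈ I y) (fun v => by
        by_contra h3
        push Not at h3
        have h4 : ∑ y ∈ univ.filter (fun y => v ∈ I y), ν y ≤ 0 := by
          refine Finset.sum_nonpos fun y hy => ?_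
          by_contra h5
          push Not at h5
          have h6 := (Finset.mem_filter.1 hy).2
          exact h3 y h5 h6 h6
        have h5 := h1 v
        linarith) (fun u v ⟨y, h3, h4, h5⟩ => ⟨y, h3, h5, h4⟩) hξ m univ (by
        intro S _ hS
        by_contra h3
        push Not at h3
        obtain ⟨S', hS', hcard⟩ := Finset.exists_subset_card_eq (show m + 1 ≤ S.card from h3)
        obtain ⟨y, hy, h4⟩ := hcon S' hcard
        have h5 := Three_one (T := S') (J := I y) (fun u hu v hv huv h6 =>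
          hS u (hS' hu) v (hS' hv) huv ⟨y, hy, h6.1, h6.2⟩)
        omega)
    have h3 := Three_pairs hξ hlink hI h0 h1 hmin
    push_cast at hL hzk
    have h4 := mul_le_mul_of_nonneg_left h3 (Nat.cast_nonneg m)
    have hm : (0 : ℝ) ≤ m := Nat.cast_nonneg m
    set K : ℝ := ∑ v, ξ v
    set z : ℝ := ∑ y, ν y
    have h5 : ((m : ℝ) + 1) ^ 2 < K ^ 2 := by nlinarith
    have h6 : ((m : ℝ) + 1) ^ 2 < m * z := by linarith
    have h7 : ((m : ℝ) + 1) ^ 2 * (m + 1 + 1) < m * z * (m + 1 + 1) :=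
      mul_lt_mul_of_pos_right h6 (by linarith)
    have h8 : (m : ℝ) * (z * (m + 1 + 1)) ≤ m * ((m + 1) ^ 2 + (m + 1) + 1) :=
      mul_le_mul_of_nonneg_left hzk.le hm
    nlinarith
  -- the members missing `S` have small total
  have hζ : ∑ y ∈ univ.filter (fun y => ¬ (S ∩ I y).Nonempty), ν y ≤ ∑ y, ν y - k := by
    have h2 := Three_count I h1 S
    rw [hScard] at h2
    have h3 : ∑ y, ν y * ((S ∩ I y).card : ℝ) ≤
        ∑ y ∈ univ.filter (fun y => (S ∩ I y).Nonempty), ν y := by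
      rw [Finset.sum_filter]
      refine Finset.sum_le_sum fun y _ => ?_
      rcases (h0 y).eq_or_lt with h | h
      · rw [← h, zero_mul]
        split_ifs <;> exact le_rfl
      · have h4 := hS y h
        by_cases h5 : (S ∩ I y).Nonempty
        · rw [if_pos h5]
          have h6 : ((S ∩ I y).card : ℝ) ≤ 1 := by exact_mod_cast h4
          have h7 := mul_le_mul_of_nonneg_left h6 h.le
          rwa [mul_one] at h7
        · rw [if_neg h5, Finset.not_nonempty_iff_eq_empty.1 h5, Finset.card_empty]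
          simp
    have h4 := Finset.sum_filter_add_sum_filter_not univ (fun y => (S ∩ I y).Nonempty) ν
    linarith
  -- the relation defined by the members meeting `S`
  have h2 := Three_ms (fun x x' => ∃ y, 0 < ν y ∧ x ∈ I y ∧ x' ∈ I y ∧ (S ∩ I y).Nonempty)
    (fun v => by
      by_contra h3
      push Not at h3
      have h4 : ∑ y ∈ univ.filter (fun y => v ∈ I y), ν y ≤
          ∑ y ∈ univ.filter (fun y => ¬ (S ∩ I y).Nonempty), ν y := by
        rw [Finset.sum_filter, Finset.sum_filter]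
        refine Finset.sum_le_sum fun y _ => ?_
        by_cases h5 : v ∈ I y
        · rw [if_pos h5]
          rcases (h0 y).eq_or_lt with h | h
          · rw [← h]
            split_ifs <;> exact le_rfl
          · have h6 := h3 y h h5 h5
            rw [if_pos (by rw [h6]; simp)]
        · rw [if_neg h5]
          by_cases h6 : ¬ (S ∩ I y).Nonempty
          · rw [if_pos h6]
            exact h0 y
          · rw [if_neg h6]
      have h5 := h1 v
      nlinarith) (fun u v ⟨y, h3, h4, h5, h6⟩ => ⟨y, h3, h5, h4, h6⟩) hξ k univ (by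
      intro T _ hT
      by_contra h3
      push Not at h3
      obtain ⟨T', hT', hcard⟩ := Finset.exists_subset_card_eq (show k + 1 ≤ T.card from h3)
      have h4 := Three_count I h1 T'
      rw [hcard] at h4
      have h5 : ∑ y, ν y * ((T' ∩ I y).card : ℝ) ≤
          ∑ y, ν y + k * ∑ y ∈ univ.filter (fun y => ¬ (S ∩ I y).Nonempty), ν y := by
        rw [Finset.sum_filter, Finset.mul_sum, ← Finset.sum_add_distrib]
        refine Finset.sum_le_sum fun y _ => ?_
        rcases (h0 y).eq_or_lt with h | h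
        · rw [← h]
          simp
        · by_cases h6 : (S ∩ I y).Nonempty
          · rw [if_neg (not_not.2 h6), mul_zero, add_zero]
            have h7 := Three_one (T := T') (J := I y) (fun u hu v hv huv h8 =>
              hT u (hT' hu) v (hT' hv) huv ⟨y, h, h8.1, h8.2, h6⟩)
            have h8 : ((T' ∩ I y).card : ℝ) ≤ 1 := by exact_mod_cast h7
            have h9 := mul_le_mul_of_nonneg_left h8 h.le
            rwa [mul_one] at h9
          · rw [if_pos h6]
            have h7 : (T' ∩ I y).card ≤ k + 1 := by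
              rw [← hcard]
              exact Finset.card_le_card Finset.inter_subset_left
            have h8 : ((T' ∩ I y).card : ℝ) ≤ k + 1 := by exact_mod_cast h7
            have h9 := mul_le_mul_of_nonneg_left h8 h.le
            linarith
      push_cast at h4
      have h6 : (k : ℝ) * ∑ y ∈ univ.filter (fun y => ¬ (S ∩ I y).Nonempty), ν y ≤
          k * (∑ y, ν y - k) := mul_le_mul_of_nonneg_left hζ (by linarith)
      nlinarith)
  have h3 : Three_w (fun x x' => ∃ y, 0 < ν y ∧ x ∈ I y ∧ x' ∈ I y ∧ (S ∩ I y).Nonempty) ξ univ ≤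
      k := by
    refine (Three_sub hξ S (fun c x x' => ∃ y, c ∈ I y ∧ x ∈ I y ∧ x' ∈ I y) ?_).trans ?_
    · rintro x x' ⟨y, -, hx, hx', c, hc⟩
      rw [Finset.mem_inter] at hc
      exact ⟨c, hc.1, y, hc.2, hx, hx'⟩
    · calc ∑ c ∈ S, Three_w (fun x x' => ∃ y, c ∈ I y ∧ x ∈ I y ∧ x' ∈ I y) ξ univ
          ≤ ∑ c ∈ S, 1 := Finset.sum_le_sum fun c _ => Three_link hξ hI c (hlink c)
        _ = k := by rw [Finset.sum_const, hScard, nsmul_eq_mul, mul_one]
  have h4 := mul_le_mul_of_nonneg_left h3 (by linarith : (0 : ℝ) ≤ k)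
  nlinarith

private theorem Three_exists_L (k : ℕ) {D : ℝ} (h : (k : ℝ) ^ 2 * D < 1) :
    ∃ L : ℝ, (k : ℝ) < L ∧ L ^ 2 * D ≤ 1 := by
  have hc : Continuous fun L : ℝ => L ^ 2 * D := by fun_prop
  have h1 : ∀ᶠ L in nhds (k : ℝ), L ^ 2 * D < 1 :=
    hc.continuousAt.eventually_lt continuousAt_const h
  have h2 : ∀ᶠ L in nhdsWithin (k : ℝ) (Set.Ioi (k : ℝ)), L ^ 2 * D < 1 :=
    h1.filter_mono nhdsWithin_le_nhds
  obtain ⟨L, hL1, hL2⟩ := (h2.and self_mem_nhdsWithin).exists
  exact ⟨L, hL2, hL1.le⟩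

/-- A fractional cover by independent sets of weight less than `k + 1 / (k + 1)` bounds the
density of `3`-sets by `1 - 1 / k ^ 2`. -/
theorem frac_three {k : ℕ} (hk : 1 ≤ k) :
    FracD 2 (k + 1 / ((k : ℝ) + 1)) (1 - 1 / (k : ℝ) ^ 2) := by
  intro V Y _ _ _ H hH μ I hμ hI hz hcov
  classical
  intro x0 hx0
  by_contra hcon
  push Not at hcon
  have hne : Nonempty V := by
    by_contra hV
    rw [not_nonempty_iff] at hV
    have := hx0.2
    simp at this
  obtain ⟨x, hx, hmax, heq⟩ := exists_opt H 2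
  have hdx : 1 - 1 / (k : ℝ) ^ 2 < dens H 2 x := lt_of_lt_of_le hcon (hmax x0 hx0)
  have hk0 : (0 : ℝ) < (k : ℝ) ^ 2 := by
    have : (0 : ℝ) < k := by exact_mod_cast hk
    positivity
  have hD : (k : ℝ) ^ 2 * (1 - dens H 2 x) < 1 := by
    have h1 : 1 - dens H 2 x < 1 / (k : ℝ) ^ 2 := by linarith
    calc (k : ℝ) ^ 2 * (1 - dens H 2 x) < (k : ℝ) ^ 2 * (1 / (k : ℝ) ^ 2) :=
          mul_lt_mul_of_pos_left h1 hk0
      _ = 1 := by field_simp
  obtain ⟨L, hkL, hL⟩ := Three_exists_L k hD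
  have hL0 : 0 < L := lt_of_le_of_lt (Nat.cast_nonneg k) hkL
  have hx0' : ∀ v, 0 ≤ x v := hx.1
  -- the sum over the support
  have hsum : ∑ v : {v // 0 < x v}, L * x v = L := by
    have h1 : ∑ v : {v // 0 < x v}, x v = ∑ v, x v := by
      rw [← Finset.sum_subtype (univ.filter fun v => 0 < x v) (by simp) x]
      refine Finset.sum_filter_of_ne fun v _ hv => ?_
      exact lt_of_le_of_ne (hx0' v) (Ne.symm hv)
    rw [← Finset.mul_sum, h1, hx.2, mul_one]
  let φ : {v // 0 < x v} ↪ V := Function.Embedding.subtype _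
  refine Three_no (V := {v // 0 < x v}) (Y := Y) hk
    (H := univ.filter fun e => e.map φ ∈ H) (ξ := fun v => L * x v) (μ := μ)
    (I := fun y => (I y).subtype fun v => 0 < x v)
    (fun v => (mul_pos hL0 v.2).le) (by rw [hsum]; exact hkL) ?_ hμ ?_ hz ?_
  · intro v
    have h1 : ∑ w ∈ lnk H 2 (v : V), ∏ i, x (w i) = 1 - dens H 2 x := by
      have h2 := ldens_add H 2 (v : V) x
      rw [hx.2, one_pow, heq v v.2] at h2
      linarith
    have h3 : ∑ w ∈ lnk H 2 (v : V), ∏ i, (L * x (w i)) ≤ 1 := by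
      have : ∑ w ∈ lnk H 2 (v : V), ∏ i, (L * x (w i)) =
          L ^ 2 * ∑ w ∈ lnk H 2 (v : V), ∏ i, x (w i) := by
        rw [Finset.mul_sum]
        refine sum_congr rfl fun w _ => ?_
        rw [Finset.prod_mul_distrib]
        simp
      rw [this, h1]
      exact hL
    refine le_trans ?_ h3
    have himg : ((lnk (univ.filter fun e : Finset {v // 0 < x v} => e.map φ ∈ H) 2 v).image
        (fun w : Fin 2 → {v // 0 < x v} => fun i => (w i : V))) ⊆ lnk H 2 (v : V) := by
      intro w' hw'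
      obtain ⟨w, hw, rfl⟩ := mem_image.mp hw'
      simp only [lnk, mem_filter, mem_univ, true_and] at hw ⊢
      intro hmem
      apply hw
      have : (insert v (univ.image w)).map φ = insert (v : V) (univ.image fun i => (w i : V)) := by
        rw [map_insert, map_eq_image, image_image]
        rfl
      rw [this]
      exact hmem
    have hinj : Set.InjOn (fun w : Fin 2 → {v // 0 < x v} => fun i => (w i : V))
        (lnk (univ.filter fun e : Finset {v // 0 < x v} => e.map φ ∈ H) 2 v) := by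
      intro w _ w' _ h
      funext i
      exact Subtype.ext (congrFun h i)
    calc ∑ w ∈ lnk (univ.filter fun e : Finset {v // 0 < x v} => e.map φ ∈ H) 2 v,
          ∏ i, (L * x (w i))
        = ∑ w ∈ ((lnk (univ.filter fun e : Finset {v // 0 < x v} => e.map φ ∈ H) 2 v).image
          (fun w : Fin 2 → {v // 0 < x v} => fun i => (w i : V))), ∏ i, (L * x (w i)) := by
          rw [sum_image hinj]
      _ ≤ _ := by
          refine sum_le_sum_of_subset_of_nonneg himg fun w _ _ => ?_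
          exact prod_nonneg fun i _ => mul_nonneg hL0.le (hx0' _)
  · intro y e he hsub
    refine hI y _ (mem_filter.mp he).2 ?_
    intro u hu
    obtain ⟨u', hu', rfl⟩ := mem_map.mp hu
    have := hsub hu'
    rw [mem_subtype] at this
    exact this
  · intro v
    have := hcov (v : V)
    simpa only [mem_subtype] using this

end Pool.Agent.Lib.MP_455133_co.BT
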