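import Mathlib
import Pool.Agent.Lib.MP_455133_co.BO.Opt
import Pool.Agent.Lib.MP_455133_co.BT.FracD

/-!
The fractional theorem for `3`-sets and any number of blocks, with the sharp excess `1 / 2`.
-/

namespace Pool.Agent.Lib.MP_455133_co.BT

open Finset
open Pool.Agent.Lib.MP_455133_co.BO (lnk dens ldens_add exists_opt)

open Classical in
/-- The characteristic function of a proposition. -/
private noncomputable def TA_i (p : Prop) : ℝ := if p then 1 else 0

private theorem TA_i_true {p : Prop} (h : p) : TA_i p = 1 := if_pos h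

private theorem TA_i_false {p : Prop} (h : ¬ p) : TA_i p = 0 := if_neg h

private theorem TA_i_nonneg (p : Prop) : 0 ≤ TA_i p := by
  unfold TA_i
  split_ifs <;> norm_num

private theorem TA_i_le (p : Prop) : TA_i p ≤ 1 := by
  unfold TA_i
  split_ifs <;> norm_num

private theorem TA_i_mono {p q : Prop} (h : p → q) : TA_i p ≤ TA_i q := by
  by_cases hp : p
  · rw [TA_i_true hp, TA_i_true (h hp)]
  · rw [TA_i_false hp]
    exact TA_i_nonneg q

private theorem TA_i_congr {p q : Prop} (h : p ↔ q) : TA_i p = TA_i q := by rw [propext h]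

section core

variable {V : Type} [Fintype V] [DecidableEq V] {k : ℕ}

/-- Pairwise orthogonal points. -/
private def TA_cl (near : V → V → Prop) (Q : Fin k → V) : Prop :=
  ∀ i j, i ≠ j → ¬ near (Q i) (Q j)

/-- The weight of a point. -/
private noncomputable def TA_h (ρ : (Fin k → V) → ℝ) (v : V) : ℝ :=
  ∑ Q, ρ Q * ∑ i, (if Q i = v then 1 else 0)

private theorem TA_h_nonneg {ρ : (Fin k → V) → ℝ} (hρ : ∀ Q, 0 ≤ ρ Q) (v : V) :
    0 ≤ TA_h ρ v := by
  unfold TA_h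
  refine Finset.sum_nonneg fun Q _ => mul_nonneg (hρ Q) (Finset.sum_nonneg fun i _ => ?_)
  split_ifs <;> norm_num

private theorem TA_marg (ρ : (Fin k → V) → ℝ) (g : V → ℝ) :
    ∑ v, TA_h ρ v * g v = ∑ Q, ρ Q * ∑ i, g (Q i) := by
  have h1 : ∀ v, TA_h ρ v * g v = ∑ Q, ρ Q * ∑ i, (if Q i = v then g v else 0) := by
    intro v
    unfold TA_h
    rw [Finset.sum_mul]
    refine Finset.sum_congr rfl fun Q _ => ?_
    rw [mul_assoc, Finset.sum_mul]
    congr 1
    refine Finset.sum_congr rfl fun i _ => ?_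
    rw [ite_mul, one_mul, zero_mul]
  simp_rw [h1]
  rw [Finset.sum_comm]
  refine Finset.sum_congr rfl fun Q _ => ?_
  rw [← Finset.mul_sum, Finset.sum_comm]
  congr 1
  refine Finset.sum_congr rfl fun i _ => ?_
  rw [Finset.sum_ite_eq, if_pos (Finset.mem_univ _)]

omit [Fintype V] [DecidableEq V] in
private theorem TA_pt {near : V → V → Prop} (hs : ∀ a b, near a b → near b a) {t : V → ℝ}
    (ht0 : ∀ v, 0 ≤ t v) (ht1 : ∀ v, t v ≤ 1)
    (hcov : ∀ Q : Fin k → V, TA_cl near Q → 1 ≤ ∑ i, t (Q i)) {Q : Fin k → V}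
    (hQ : TA_cl near Q) (hQ1 : ∑ i, t (Q i) = 1) (a : V) (ha : ∃ i, near (Q i) a) :
    ∑ i, t (Q i) * TA_i (near (Q i) a) ≤
      (1 - t a) * (∑ i, TA_i (near (Q i) a) - 1) + t a := by
  obtain ⟨i, hi⟩ := ha
  by_cases h : ∃ j, j ≠ i ∧ near (Q j) a
  · obtain ⟨j, hji, hj⟩ := h
    have h1 : ∑ i, t (Q i) * TA_i (near (Q i) a) ≤ 1 := by
      rw [← hQ1]
      refine Finset.sum_le_sum fun l _ => ?_
      exact mul_le_of_le_one_right (ht0 _) (TA_i_le _)
    have h2 : 2 ≤ ∑ l, TA_i (near (Q l) a) := by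
      have h3 : ∑ l ∈ ({i, j} : Finset (Fin k)), TA_i (near (Q l) a) ≤
          ∑ l, TA_i (near (Q l) a) :=
        Finset.sum_le_sum_of_subset_of_nonneg (Finset.subset_univ _) fun l _ _ => TA_i_nonneg _
      rw [Finset.sum_pair hji.symm, TA_i_true hi, TA_i_true hj] at h3
      linarith
    nlinarith [ht1 a]
  · push Not at h
    have h1 : ∀ j, j ≠ i → TA_i (near (Q j) a) = 0 := fun j hj => TA_i_false (h j hj)
    have h2 : ∑ l, TA_i (near (Q l) a) = 1 := by
      rw [Finset.sum_eq_single i (fun j _ hj => h1 j hj)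
        (fun hh => absurd (Finset.mem_univ _) hh), TA_i_true hi]
    have h3 : ∑ l, t (Q l) * TA_i (near (Q l) a) = t (Q i) := by
      rw [Finset.sum_eq_single i (fun j _ hj => by rw [h1 j hj, mul_zero])
        (fun hh => absurd (Finset.mem_univ _) hh), TA_i_true hi, mul_one]
    have h4 : TA_cl near (Function.update Q i a) := by
      intro j l hjl
      by_cases hj : j = i
      · subst hj
        rw [Function.update_self, Function.update_of_ne hjl.symm]
        exact fun hh => h l hjl.symm (hs _ _ hh)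
      · by_cases hl : l = i
        · subst hl
          rw [Function.update_self, Function.update_of_ne hjl]
          exact h j hjl
        · rw [Function.update_of_ne hj, Function.update_of_ne hl]
          exact hQ j l hjl
    have h5 := hcov _ h4
    have h6 : ∑ j, t (Function.update Q i a j) = t a + ∑ j ∈ univ.erase i, t (Q j) := by
      rw [← Finset.add_sum_erase univ (fun j => t (Function.update Q i a j)) (Finset.mem_univ i),
        Function.update_self]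
      congr 1
      refine Finset.sum_congr rfl fun j hj => ?_
      rw [Function.update_of_ne (Finset.ne_of_mem_erase hj)]
    have h7 : ∑ j, t (Q j) = t (Q i) + ∑ j ∈ univ.erase i, t (Q j) :=
      (Finset.add_sum_erase univ (fun j => t (Q j)) (Finset.mem_univ i)).symm
    rw [h3, h2]
    linarith

omit [DecidableEq V] in
/-- Exchange of the order of summation. -/
private theorem TA_swap {n : V → V → ℝ} (hn : ∀ a b, n a b = n b a) (x y : V → ℝ) :
    ∑ a, x a * ∑ c, y c * n c a = ∑ c, y c * ∑ a, x a * n a c := by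
  simp_rw [Finset.mul_sum]
  rw [Finset.sum_comm]
  refine Finset.sum_congr rfl fun c _ => Finset.sum_congr rfl fun a _ => ?_
  rw [hn c a]
  ring

/-- The final arithmetic. -/
private theorem TA_arith {k r S1 So Ro s : ℝ} (hk : 1 ≤ k) (hr : 0 ≤ r) (hs0 : 0 ≤ s)
    (hRo : 0 ≤ Ro) (h1 : 2 * r ≤ S1 - k * r ^ 2 + 2 * r ^ 2 + 2 * So - 2 * r * s)
    (h2 : r * s ≤ So) (h3 : k * (1 - r) ≤ s) (h4 : s ^ 2 ≤ (k - 1) * Ro) :
    2 * k + 1 ≤ 2 * (S1 + 2 * So + Ro) + ((k + 1) * r ^ 2 - S1) := by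
  have h5 : 2 * r + (2 * k - 1) * r ^ 2 + 4 * r * s + 2 * Ro ≤
      2 * (S1 + 2 * So + Ro) + ((k + 1) * r ^ 2 - S1) := by nlinarith
  refine le_trans ?_ h5
  by_cases h : 1 ≤ r
  · have h6 : 1 ≤ r ^ 2 := one_le_pow₀ h
    have h7 : 0 ≤ r * s := mul_nonneg hr hs0
    nlinarith
  · push Not at h
    have h6 : 0 < 1 - r := by linarith
    have h7 : 0 < k * (1 - r) := mul_pos (by linarith) h6
    have h8 : (k * (1 - r)) ^ 2 ≤ s ^ 2 := pow_le_pow_left₀ h7.le h3 2
    have h9 : 0 < (k * (1 - r)) ^ 2 := by positivity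
    have h10 : 0 < (k - 1) * Ro := by linarith
    have h11 : 0 < k - 1 := by
      by_contra hc
      push Not at hc
      have : (k - 1) * Ro ≤ 0 := mul_nonpos_of_nonpos_of_nonneg hc hRo
      linarith
    have h12 : (k + 1) * (1 - r) ^ 2 ≤ Ro := by
      have h13 : (k - 1) * ((k + 1) * (1 - r) ^ 2) ≤ (k - 1) * Ro := by nlinarith [sq_nonneg (1 - r)]
      exact le_of_mul_le_mul_left h13 h11
    have h14 : r * (k * (1 - r)) ≤ r * s := mul_le_mul_of_nonneg_left h3 hr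
    nlinarith [sq_nonneg (1 - r)]

/-- The lower bound. -/
private theorem TA_two {near : V → V → Prop} (hs : ∀ a b, near a b → near b a)
    {ρ : (Fin k → V) → ℝ} {t ζ : V → ℝ} (hk : 1 ≤ k) (hρ0 : ∀ Q, 0 ≤ ρ Q)
    (hρK : ∀ Q, ρ Q ≠ 0 → TA_cl near Q) (ht0 : ∀ v, 0 ≤ t v) (ht1 : ∀ v, t v ≤ 1)
    (hcov : ∀ Q : Fin k → V, TA_cl near Q → 1 ≤ ∑ i, t (Q i))
    (htight : ∀ Q, ρ Q ≠ 0 → ∑ i, t (Q i) = 1)
    (hle : ∀ v, TA_h ρ v ≤ ζ v) (hts : ∀ v, t v ≠ 0 → TA_h ρ v = ζ v)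
    (hnear : ∀ Q : Fin k → V, TA_cl near Q → ∀ a, ∃ i, near (Q i) a)
    (hX : ∀ c, 1 ≤ ∑ a, ζ a * TA_i (near a c)) (hM : (k : ℝ) ≤ ∑ v, ζ v)
    (hMS : (∑ v, (ζ v - TA_h ρ v)) ^ 2 ≤ ((k : ℝ) - 1) *
      ∑ a, (ζ a - TA_h ρ a) * ∑ b, (ζ b - TA_h ρ b) * TA_i (near b a)) :
    2 * (k : ℝ) + 1 ≤ 2 * (∑ a, ζ a * ∑ b, ζ b * TA_i (near b a)) +
      (((k : ℝ) + 1) * (∑ Q, ρ Q) ^ 2 - ∑ a, TA_h ρ a * ∑ b, TA_h ρ b * TA_i (near b a)) := by
  set r : ℝ := ∑ Q, ρ Q with hr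
  set h : V → ℝ := TA_h ρ with hh
  set o : V → ℝ := fun v => ζ v - h v with ho
  set n : V → V → ℝ := fun a b => TA_i (near a b) with hn
  have hns : ∀ a b, n a b = n b a := fun a b => TA_i_congr ⟨hs a b, hs b a⟩
  have hn0 : ∀ a b, 0 ≤ n a b := fun a b => TA_i_nonneg _
  have hh0 : ∀ v, 0 ≤ h v := fun v => TA_h_nonneg hρ0 v
  have ho0 : ∀ v, 0 ≤ o v := fun v => sub_nonneg.2 (hle v)
  set A : V → ℝ := fun a => ∑ c, h c * n c a with hA
  set O : V → ℝ := fun a => ∑ c, o c * n c a with hO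
  set P : V → ℝ := fun a => ∑ c, (h c * t c) * n c a with hP
  have hr0 : 0 ≤ r := Finset.sum_nonneg fun Q _ => hρ0 Q
  have hA' : ∀ a, A a = ∑ Q, ρ Q * ∑ i, n (Q i) a := fun a => TA_marg ρ fun c => n c a
  have hP' : ∀ a, P a = ∑ Q, ρ Q * ∑ i, t (Q i) * n (Q i) a := by
    intro a
    rw [← TA_marg ρ fun c => t c * n c a]
    exact Finset.sum_congr rfl fun c _ => mul_assoc _ _ _
  have hsumh : ∑ v, h v = k * r := by
    have h1 := TA_marg ρ fun _ => (1 : ℝ)
    simp only [mul_one, Finset.sum_const, Finset.card_univ, Fintype.card_fin, nsmul_eq_mul] at h1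
    rw [h1, ← Finset.sum_mul, mul_comm]
  have hsumt : ∑ v, h v * t v = r := by
    rw [TA_marg ρ t]
    refine Finset.sum_congr rfl fun Q _ => ?_
    by_cases hQ : ρ Q = 0
    · rw [hQ, zero_mul]
    · rw [htight Q hQ, mul_one]
  -- the number of related members
  have hAr : ∀ a, r ≤ A a := by
    intro a
    rw [hA']
    refine Finset.sum_le_sum fun Q _ => ?_
    by_cases hQ : ρ Q = 0
    · rw [hQ, zero_mul]
    · obtain ⟨i, hi⟩ := hnear Q (hρK Q hQ) a
      have h1 : n (Q i) a ≤ ∑ i, n (Q i) a :=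
        Finset.single_le_sum (f := fun i => n (Q i) a) (fun i _ => hn0 _ _) (Finset.mem_univ i)
      have h2 : n (Q i) a = 1 := TA_i_true hi
      rw [h2] at h1
      exact le_mul_of_one_le_right (hρ0 Q) h1
  -- the weighted inequality
  have hPb : ∀ a, P a ≤ (1 - t a) * (A a - r) + t a * r := by
    intro a
    have h1 : (1 - t a) * (A a - r) + t a * r =
        ∑ Q, ρ Q * ((1 - t a) * (∑ i, n (Q i) a - 1) + t a) := by
      rw [hA', hr, ← Finset.sum_sub_distrib, Finset.mul_sum, Finset.mul_sum,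
        ← Finset.sum_add_distrib]
      refine Finset.sum_congr rfl fun Q _ => ?_
      ring
    rw [h1, hP']
    refine Finset.sum_le_sum fun Q _ => ?_
    by_cases hQ : ρ Q = 0
    · rw [hQ, zero_mul, zero_mul]
    · exact mul_le_mul_of_nonneg_left (TA_pt hs ht0 ht1 hcov (hρK Q hQ) (htight Q hQ) a
        (hnear Q (hρK Q hQ) a)) (hρ0 Q)
  set S1 : ℝ := ∑ a, h a * A a with hS1
  set So : ℝ := ∑ a, o a * A a with hSo
  set Ro : ℝ := ∑ a, o a * O a with hRo
  set TA : ℝ := ∑ a, (h a * t a) * A a with hTA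
  set TO : ℝ := ∑ a, (h a * t a) * O a with hTO
  set s : ℝ := ∑ v, o v with hsdef
  have h1 : ∑ a, h a * P a = TA := TA_swap hns h fun c => h c * t c
  have h2 : ∑ a, o a * P a = TO := TA_swap hns o fun c => h c * t c
  have h3 : TA ≤ S1 - TA - r * (k * r) + 2 * (r * r) := by
    rw [← h1]
    have h4 : ∑ a, h a * P a ≤ ∑ a, h a * ((1 - t a) * (A a - r) + t a * r) :=
      Finset.sum_le_sum fun a _ => mul_le_mul_of_nonneg_left (hPb a) (hh0 a)
    have h5 : ∑ a, h a * ((1 - t a) * (A a - r) + t a * r) =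
        S1 - TA - r * (∑ v, h v) + 2 * (r * ∑ v, h v * t v) := by
      rw [hS1, hTA, Finset.mul_sum, Finset.mul_sum, Finset.mul_sum, ← Finset.sum_sub_distrib,
        ← Finset.sum_sub_distrib, ← Finset.sum_add_distrib]
      refine Finset.sum_congr rfl fun a _ => ?_
      ring
    rw [hsumh, hsumt] at h5
    rw [h1]
    rw [h1] at h4
    linarith
  have h6 : TO ≤ So - r * s := by
    rw [← h2]
    have h4 : ∑ a, o a * P a ≤ ∑ a, o a * ((1 - t a) * (A a - r) + t a * r) :=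
      Finset.sum_le_sum fun a _ => mul_le_mul_of_nonneg_left (hPb a) (ho0 a)
    refine le_trans h4 (le_of_eq ?_)
    rw [hSo, hsdef, Finset.mul_sum, ← Finset.sum_sub_distrib]
    refine Finset.sum_congr rfl fun a _ => ?_
    by_cases hta : t a = 0
    · rw [hta]
      ring
    · have h5 : o a = 0 := sub_eq_zero.2 (hts a hta).symm
      rw [h5]
      ring
  have h7 : r ≤ TA + TO := by
    rw [← hsumt, hTA, hTO, ← Finset.sum_add_distrib]
    refine Finset.sum_le_sum fun c _ => ?_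
    have h8 : A c + O c = ∑ a, ζ a * n a c := by
      rw [hA, hO]
      simp only
      rw [← Finset.sum_add_distrib]
      refine Finset.sum_congr rfl fun a _ => ?_
      simp only [ho]
      ring
    have h9 : 1 ≤ A c + O c := by
      rw [h8]
      exact hX c
    rw [← mul_add]
    exact le_mul_of_one_le_right (mul_nonneg (hh0 c) (ht0 c)) h9
  have h8 : r * s ≤ So := by
    rw [hSo, hsdef, Finset.mul_sum]
    refine Finset.sum_le_sum fun a _ => ?_
    rw [mul_comm]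
    exact mul_le_mul_of_nonneg_left (hAr a) (ho0 a)
  have h9 : (k : ℝ) * (1 - r) ≤ s := by
    rw [hsdef, ho, Finset.sum_sub_distrib, hsumh]
    linarith
  have hs0 : 0 ≤ s := Finset.sum_nonneg fun v _ => ho0 v
  have hO0 : ∀ a, 0 ≤ O a := fun a => Finset.sum_nonneg fun c _ => mul_nonneg (ho0 c) (hn0 _ _)
  have hRo0 : 0 ≤ Ro := Finset.sum_nonneg fun a _ => mul_nonneg (ho0 a) (hO0 a)
  have hR : ∑ a, ζ a * ∑ b, ζ b * n b a = S1 + 2 * So + Ro := by
    have h10 : ∑ a, h a * O a = So := TA_swap hns h o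
    have h11 : ∀ a, ∑ b, ζ b * n b a = A a + O a := by
      intro a
      simp only [hA, hO]
      rw [← Finset.sum_add_distrib]
      refine Finset.sum_congr rfl fun b _ => ?_
      simp only [ho]
      ring
    have h12 : ∑ a, ζ a * ∑ b, ζ b * n b a =
        ∑ a, h a * A a + ∑ a, h a * O a + ∑ a, o a * A a + ∑ a, o a * O a := by
      rw [← Finset.sum_add_distrib, ← Finset.sum_add_distrib, ← Finset.sum_add_distrib]
      refine Finset.sum_congr rfl fun a _ => ?_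
      rw [h11]
      simp only [ho]
      ring
    rw [h12, h10]
    ring
  have h13 := TA_arith (k := (k : ℝ)) (r := r) (S1 := S1) (So := So) (Ro := Ro) (s := s)
    (by exact_mod_cast hk) hr0 hs0 hRo0 (by nlinarith) h8 h9 hMS
  rw [hR]
  exact h13

end core

section upper

variable {V : Type} [Fintype V] [DecidableEq V] {k : ℕ}

private theorem TA_cnt (Q : Fin k → V) (g : V → ℝ) :
    ∑ a, (∑ i, (if Q i = a then (1 : ℝ) else 0)) * g a = ∑ i, g (Q i) := by
  have h1 : ∀ a, (∑ i, (if Q i = a then (1 : ℝ) else 0)) * g a =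
      ∑ i, (if Q i = a then g a else 0) := by
    intro a
    rw [Finset.sum_mul]
    refine Finset.sum_congr rfl fun i _ => ?_
    rw [ite_mul, one_mul, zero_mul]
  simp_rw [h1]
  rw [Finset.sum_comm]
  refine Finset.sum_congr rfl fun i _ => ?_
  rw [Finset.sum_ite_eq, if_pos (Finset.mem_univ _)]

/-- The weight of a pair. -/
private noncomputable def TA_c (ψ : (Fin k → V) → (Fin k → V) → ℝ) (a b : V) : ℝ :=
  ∑ Q, ∑ Q', ψ Q Q' * ((∑ i, (if Q i = a then 1 else 0)) * ∑ j, (if Q' j = b then 1 else 0))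

private theorem TA_marg2 (ψ : (Fin k → V) → (Fin k → V) → ℝ) (g : V → V → ℝ) :
    ∑ p : V × V, TA_c ψ p.1 p.2 * g p.1 p.2 =
      ∑ Q, ∑ Q', ψ Q Q' * ∑ i, ∑ j, g (Q i) (Q' j) := by
  have h1 : ∀ p : V × V, TA_c ψ p.1 p.2 * g p.1 p.2 = ∑ Q, ∑ Q', ψ Q Q' *
      ((∑ i, (if Q i = p.1 then (1 : ℝ) else 0)) *
        ((∑ j, (if Q' j = p.2 then (1 : ℝ) else 0)) * g p.1 p.2)) := by
    intro p
    unfold TA_c
    rw [Finset.sum_mul]
    refine Finset.sum_congr rfl fun Q _ => ?_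
    rw [Finset.sum_mul]
    refine Finset.sum_congr rfl fun Q' _ => ?_
    ring
  simp_rw [h1]
  rw [Finset.sum_comm]
  refine Finset.sum_congr rfl fun Q _ => ?_
  rw [Finset.sum_comm]
  refine Finset.sum_congr rfl fun Q' _ => ?_
  rw [← Finset.mul_sum, Fintype.sum_prod_type]
  congr 1
  have h2 : ∀ a, ∑ b, (∑ i, (if Q i = a then (1 : ℝ) else 0)) *
      ((∑ j, (if Q' j = b then (1 : ℝ) else 0)) * g a b) =
      (∑ i, (if Q i = a then (1 : ℝ) else 0)) * ∑ j, g a (Q' j) := by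
    intro a
    rw [← Finset.mul_sum, TA_cnt Q' fun b => g a b]
  simp_rw [h2]
  exact TA_cnt Q fun a => ∑ j, g a (Q' j)

open Classical in
/-- The number of related pairs. -/
private noncomputable def TA_N (near : V → V → Prop) (Q Q' : Fin k → V) : ℕ :=
  (univ.filter fun p : Fin k × Fin k => near (Q' p.2) (Q p.1)).card

omit [Fintype V] [DecidableEq V] in
private theorem TA_N_eq (near : V → V → Prop) (Q Q' : Fin k → V) :
    (TA_N near Q Q' : ℝ) = ∑ i, ∑ j, TA_i (near (Q' j) (Q i)) := by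
  classical
  unfold TA_N TA_i
  rw [← Fintype.sum_prod_type' (f := fun i j => if near (Q' j) (Q i) then (1 : ℝ) else 0),
    Finset.sum_boole]

private theorem TA_N_ge {near : V → V → Prop}
    (hnear : ∀ Q : Fin k → V, TA_cl near Q → ∀ a, ∃ i, near (Q i) a) (Q : Fin k → V)
    {Q' : Fin k → V} (hQ' : TA_cl near Q') : k ≤ TA_N near Q Q' := by
  have h1 : (k : ℝ) ≤ (TA_N near Q Q' : ℝ) := by
    rw [TA_N_eq]
    have h2 : (k : ℝ) = ∑ _i : Fin k, (1 : ℝ) := by simp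
    rw [h2]
    refine Finset.sum_le_sum fun i _ => ?_
    obtain ⟨j, hj⟩ := hnear Q' hQ' (Q i)
    rw [← TA_i_true hj]
    exact Finset.single_le_sum (f := fun j => TA_i (near (Q' j) (Q i)))
      (fun j _ => TA_i_nonneg _) (Finset.mem_univ j)
  exact_mod_cast h1

/-- The upper bound. -/
private theorem TA_up {near : V → V → Prop} {R : V → V → V → Prop}
    (hs : ∀ a b, near a b → near b a) {ρ : (Fin k → V) → ℝ} {ζ : V → ℝ} {w z : ℝ}
    (hρ0 : ∀ Q, 0 ≤ ρ Q) (hρK : ∀ Q, ρ Q ≠ 0 → TA_cl near Q)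
    (hle : ∀ v, TA_h ρ v ≤ ζ v)
    (hnear : ∀ Q : Fin k → V, TA_cl near Q → ∀ a, ∃ i, near (Q i) a)
    (hT : ∀ Q Q' : Fin k → V, TA_cl near Q → TA_cl near Q' → ∀ v, ∃ i j, R v (Q i) (Q' j))
    (hW : ∀ v, ∑ p : V × V, ζ p.1 * ζ p.2 * TA_i (R v p.1 p.2) ≤ w)
    (hz : z ≤ k + 1 / 2)
    (hP : ∀ (f : V × V → ℝ) (L : ℝ), (∀ p, 0 ≤ f p) → 0 ≤ L →
      (∀ v, ∑ p : V × V, f p * TA_i (R v p.1 p.2) ≤ L) →
        ∑ p : V × V, f p * TA_i (near p.1 p.2) ≤ L * z) (v₀ : V) :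
    2 * (∑ a, ζ a * ∑ b, ζ b * TA_i (near b a)) +
      (((k : ℝ) + 1) * (∑ Q, ρ Q) ^ 2 - ∑ a, TA_h ρ a * ∑ b, TA_h ρ b * TA_i (near b a)) ≤
      (2 * k + 1) * w := by
  set r : ℝ := ∑ Q, ρ Q with hr
  set φ : (Fin k → V) → (Fin k → V) → ℝ := fun Q Q' => TA_i (TA_N near Q Q' ≤ k) with hφ
  set ψ : (Fin k → V) → (Fin k → V) → ℝ := fun Q Q' => ρ Q * ρ Q' * φ Q Q' with hψ
  have hψ0 : ∀ Q Q', 0 ≤ ψ Q Q' := fun Q Q' =>
    mul_nonneg (mul_nonneg (hρ0 Q) (hρ0 Q')) (TA_i_nonneg _)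
  set Λ : ℝ := ∑ Q, ∑ Q', ψ Q Q' with hΛ
  have hψz : ∀ Q Q', ¬ (TA_cl near Q ∧ TA_cl near Q') → ρ Q * ρ Q' = 0 := by
    intro Q Q' h
    by_contra hc
    exact h ⟨hρK Q fun h0 => hc (by rw [h0, zero_mul]), hρK Q' fun h0 => hc (by rw [h0, mul_zero])⟩
  have hn : ∀ a b, TA_i (near a b) = TA_i (near b a) := fun a b => TA_i_congr ⟨hs a b, hs b a⟩
  -- the number of pairs
  have hS1 : ∑ a, TA_h ρ a * ∑ b, TA_h ρ b * TA_i (near b a) =
      ∑ Q, ∑ Q', ρ Q * ρ Q' * (TA_N near Q Q' : ℝ) := by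
    rw [TA_marg ρ fun a => ∑ b, TA_h ρ b * TA_i (near b a)]
    refine Finset.sum_congr rfl fun Q _ => ?_
    simp_rw [TA_N_eq]
    have h1 : ∀ i : Fin k, ∑ b, TA_h ρ b * TA_i (near b (Q i)) =
        ∑ Q', ρ Q' * ∑ j, TA_i (near (Q' j) (Q i)) := fun i =>
      TA_marg ρ fun b => TA_i (near b (Q i))
    simp_rw [h1]
    rw [Finset.sum_comm, Finset.mul_sum]
    refine Finset.sum_congr rfl fun Q' _ => ?_
    rw [← Finset.mul_sum, mul_assoc]
  have hr2 : r ^ 2 = ∑ Q, ∑ Q', ρ Q * ρ Q' := by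
    rw [hr, sq, Finset.sum_mul_sum]
  have h1 : ((k : ℝ) + 1) * r ^ 2 - ∑ a, TA_h ρ a * ∑ b, TA_h ρ b * TA_i (near b a) ≤ Λ := by
    rw [hS1, hr2, Finset.mul_sum, ← Finset.sum_sub_distrib, hΛ]
    refine Finset.sum_le_sum fun Q _ => ?_
    rw [Finset.mul_sum, ← Finset.sum_sub_distrib]
    refine Finset.sum_le_sum fun Q' _ => ?_
    by_cases h : TA_cl near Q ∧ TA_cl near Q'
    · have h2 : ((k : ℝ) + 1) - (TA_N near Q Q' : ℝ) ≤ φ Q Q' := by
        by_cases h3 : TA_N near Q Q' ≤ k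
        · have h4 : (k : ℝ) ≤ (TA_N near Q Q' : ℝ) := by exact_mod_cast TA_N_ge hnear Q h.2
          simp only [hφ]
          rw [TA_i_true h3]
          linarith
        · have h4 : ((k : ℝ) + 1) ≤ (TA_N near Q Q' : ℝ) := by
            have : k + 1 ≤ TA_N near Q Q' := by omega
            exact_mod_cast this
          have h5 : 0 ≤ φ Q Q' := TA_i_nonneg _
          linarith
      have h3 := mul_le_mul_of_nonneg_left h2 (mul_nonneg (hρ0 Q) (hρ0 Q'))
      simp only [hψ]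
      linarith
    · simp only [hψ]
      rw [hψz Q Q' h]
      simp
  -- the function for the packing inequality
  have hc : ∀ a b, TA_c ψ a b ≤ TA_h ρ a * TA_h ρ b := by
    intro a b
    unfold TA_c TA_h
    rw [Finset.sum_mul_sum]
    refine Finset.sum_le_sum fun Q _ => Finset.sum_le_sum fun Q' _ => ?_
    have h2 : (0 : ℝ) ≤ ∑ i, (if Q i = a then 1 else 0) :=
      Finset.sum_nonneg fun i _ => by split_ifs <;> norm_num
    have h3 : (0 : ℝ) ≤ ∑ i, (if Q' i = b then 1 else 0) :=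
      Finset.sum_nonneg fun i _ => by split_ifs <;> norm_num
    have h4 : ψ Q Q' ≤ ρ Q * ρ Q' :=
      mul_le_of_le_one_right (mul_nonneg (hρ0 Q) (hρ0 Q')) (TA_i_le _)
    have h5 := mul_le_mul_of_nonneg_right h4 (mul_nonneg h2 h3)
    refine h5.trans (le_of_eq ?_)
    ring
  have hh0 : ∀ v, 0 ≤ TA_h ρ v := TA_h_nonneg hρ0
  have hf0 : ∀ p : V × V, 0 ≤ ζ p.1 * ζ p.2 - TA_c ψ p.1 p.2 := by
    intro p
    have h2 := mul_le_mul (hle p.1) (hle p.2) (hh0 _) ((hh0 _).trans (hle p.1))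
    linarith [hc p.1 p.2]
  have hload : ∀ v, ∑ p : V × V, (ζ p.1 * ζ p.2 - TA_c ψ p.1 p.2) * TA_i (R v p.1 p.2) ≤
      w - Λ := by
    intro v
    have h2 : ∑ p : V × V, (ζ p.1 * ζ p.2 - TA_c ψ p.1 p.2) * TA_i (R v p.1 p.2) =
        ∑ p : V × V, ζ p.1 * ζ p.2 * TA_i (R v p.1 p.2) -
          ∑ p : V × V, TA_c ψ p.1 p.2 * TA_i (R v p.1 p.2) := by
      rw [← Finset.sum_sub_distrib]
      exact Finset.sum_congr rfl fun p _ => by ring
    have h3 : Λ ≤ ∑ p : V × V, TA_c ψ p.1 p.2 * TA_i (R v p.1 p.2) := by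
      rw [TA_marg2 ψ fun a b => TA_i (R v a b), hΛ]
      refine Finset.sum_le_sum fun Q _ => Finset.sum_le_sum fun Q' _ => ?_
      by_cases h : TA_cl near Q ∧ TA_cl near Q'
      · obtain ⟨i, j, hij⟩ := hT Q Q' h.1 h.2 v
        refine le_mul_of_one_le_right (hψ0 Q Q') ?_
        rw [← TA_i_true hij]
        exact (Finset.single_le_sum (f := fun j => TA_i (R v (Q i) (Q' j)))
          (fun j _ => TA_i_nonneg _) (Finset.mem_univ j)).trans
          (Finset.single_le_sum (f := fun i => ∑ j, TA_i (R v (Q i) (Q' j)))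
            (fun i _ => Finset.sum_nonneg fun j _ => TA_i_nonneg _) (Finset.mem_univ i))
      · simp only [hψ]
        rw [hψz Q Q' h]
        simp
    rw [h2]
    linarith [hW v]
  have hL0 : 0 ≤ w - Λ :=
    (Finset.sum_nonneg fun p _ => mul_nonneg (hf0 p) (TA_i_nonneg _)).trans (hload v₀)
  have h2 := hP (fun p => ζ p.1 * ζ p.2 - TA_c ψ p.1 p.2) (w - Λ) hf0 hL0 hload
  have h3 : ∑ p : V × V, (ζ p.1 * ζ p.2 - TA_c ψ p.1 p.2) * TA_i (near p.1 p.2) =
      ∑ a, ζ a * ∑ b, ζ b * TA_i (near b a) -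
        ∑ p : V × V, TA_c ψ p.1 p.2 * TA_i (near p.1 p.2) := by
    have h4 : ∑ a, ζ a * ∑ b, ζ b * TA_i (near b a) =
        ∑ p : V × V, ζ p.1 * ζ p.2 * TA_i (near p.1 p.2) := by
      rw [Fintype.sum_prod_type]
      refine Finset.sum_congr rfl fun a _ => ?_
      rw [Finset.mul_sum]
      refine Finset.sum_congr rfl fun b _ => ?_
      rw [hn b a]
      ring
    rw [h4, ← Finset.sum_sub_distrib]
    exact Finset.sum_congr rfl fun p _ => by ring
  have h4 : ∑ p : V × V, TA_c ψ p.1 p.2 * TA_i (near p.1 p.2) ≤ k * Λ := by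
    rw [TA_marg2 ψ fun a b => TA_i (near a b), hΛ, Finset.mul_sum]
    refine Finset.sum_le_sum fun Q _ => ?_
    rw [Finset.mul_sum]
    refine Finset.sum_le_sum fun Q' _ => ?_
    have h5 : ∑ i, ∑ j, TA_i (near (Q i) (Q' j)) = (TA_N near Q Q' : ℝ) := by
      rw [TA_N_eq]
      exact Finset.sum_congr rfl fun i _ => Finset.sum_congr rfl fun j _ => hn _ _
    rw [h5]
    by_cases h6 : TA_N near Q Q' ≤ k
    · have h7 : (TA_N near Q Q' : ℝ) ≤ k := by exact_mod_cast h6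
      rw [mul_comm]
      exact mul_le_mul_of_nonneg_right h7 (hψ0 Q Q')
    · have h7 : ψ Q Q' = 0 := by
        simp only [hψ, hφ]
        rw [TA_i_false h6, mul_zero]
      rw [h7, zero_mul, mul_zero]
  rw [h3] at h2
  have h5 : (w - Λ) * z ≤ (w - Λ) * (k + 1 / 2) := mul_le_mul_of_nonneg_left hz hL0
  linarith

end upper

section ms

variable {V : Type} [Fintype V]

private theorem TA_ms_arith {n U N R R' : ℝ} (hn : n = 0 ∨ 1 ≤ n) (h1 : N ^ 2 ≤ n * R')
    (h2 : U ^ 2 + R' ≤ R) (h3 : 0 ≤ R') : (U + N) ^ 2 ≤ (n + 1) * R := by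
  rcases hn with hn | hn
  · rw [hn, zero_mul] at h1
    have h4 : N = 0 := by nlinarith [sq_nonneg N]
    rw [hn, h4]
    linarith
  · have hn0 : 0 < n := by linarith
    have h4 : n * (U + N) ^ 2 ≤ n * ((n + 1) * (U ^ 2 + R')) := by
      nlinarith [sq_nonneg (n * U - N)]
    have h5 : (U + N) ^ 2 ≤ (n + 1) * (U ^ 2 + R') := le_of_mul_le_mul_left h4 hn0
    refine h5.trans ?_
    exact mul_le_mul_of_nonneg_left h2 (by linarith)

/-- The inequality of Motzkin and Straus. -/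
private theorem TA_ms {near : V → V → Prop} (hs : ∀ a b, near a b → near b a) (n : ℕ) :
    ∀ o : V → ℝ, (∀ v, 0 ≤ o v) →
      (∀ Q : Fin (n + 1) → V, (∀ i, 0 < o (Q i)) → ¬ TA_cl near Q) →
      (∑ v, o v) ^ 2 ≤ (n : ℝ) * ∑ a, o a * ∑ b, o b * TA_i (near b a) := by
  induction n with
  | zero =>
    intro o ho h
    have h1 : ∀ v, o v = 0 := by
      intro v
      by_contra hv
      refine h (fun _ => v) (fun _ => lt_of_le_of_ne (ho v) (Ne.symm hv)) ?_
      intro i j hij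
      exact absurd (Fin.ext (by have := i.2; have := j.2; omega)) hij
    simp [h1]
  | succ n ih =>
    intro o ho h
    by_cases hne : ∃ v, 0 < o v
    swap
    · push Not at hne
      have h1 : ∀ v, o v = 0 := fun v => le_antisymm (hne v) (ho v)
      simp [h1]
    set U : V → ℝ := fun a => ∑ b, o b * TA_i (near b a) with hU
    obtain ⟨a, ha, hmin⟩ := Finset.exists_min_image (univ.filter fun v => 0 < o v) U (by
      obtain ⟨v, hv⟩ := hne
      exact ⟨v, Finset.mem_filter.2 ⟨Finset.mem_univ _, hv⟩⟩)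
    have ha0 : 0 < o a := (Finset.mem_filter.1 ha).2
    set o' : V → ℝ := fun v => o v * (1 - TA_i (near v a)) with ho'
    have ho'0 : ∀ v, 0 ≤ o' v := fun v => mul_nonneg (ho v) (sub_nonneg.2 (TA_i_le _))
    have ho'1 : ∀ v, o' v ≤ o v := fun v =>
      mul_le_of_le_one_right (ho v) (by linarith [TA_i_nonneg (near v a)])
    have hih := ih o' ho'0 (by
      intro Q hQ hcl
      have hQ1 : ∀ i, ¬ near (Q i) a := by
        intro i hi
        have := hQ i
        simp only [ho'] at this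
        rw [TA_i_true hi, sub_self, mul_zero] at this
        exact lt_irrefl _ this
      refine h (Fin.cons a Q : Fin (n + 1 + 1) → V) ?_ ?_
      · intro i
        induction i using Fin.cases with
        | zero => exact ha0
        | succ i => exact (hQ i).trans_le (ho'1 _)
      · intro i j hij
        induction i using Fin.cases with
        | zero =>
          induction j using Fin.cases with
          | zero => exact absurd rfl hij
          | succ j =>
            rw [Fin.cons_zero, Fin.cons_succ]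
            exact fun hh => hQ1 j (hs _ _ hh)
        | succ i =>
          induction j using Fin.cases with
          | zero =>
            rw [Fin.cons_zero, Fin.cons_succ]
            exact hQ1 i
          | succ j =>
            rw [Fin.cons_succ, Fin.cons_succ]
            exact hcl i j fun e => hij (by rw [e]))
    have h1 : (U a) ^ 2 + ∑ b, o' b * ∑ c, o' c * TA_i (near c b) ≤ ∑ b, o b * U b := by
      have h2 : (U a) ^ 2 = ∑ b, o b * TA_i (near b a) * U a := by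
        rw [← Finset.sum_mul, sq]
      rw [h2, ← Finset.sum_add_distrib]
      refine Finset.sum_le_sum fun b _ => ?_
      have h3 : o b * TA_i (near b a) * U a ≤ o b * TA_i (near b a) * U b := by
        by_cases hb : 0 < o b
        · exact mul_le_mul_of_nonneg_left (hmin b (Finset.mem_filter.2 ⟨Finset.mem_univ _, hb⟩))
            (mul_nonneg (ho b) (TA_i_nonneg _))
        · have : o b = 0 := le_antisymm (not_lt.1 hb) (ho b)
          rw [this]
          simp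
      have h4 : o' b * ∑ c, o' c * TA_i (near c b) ≤ o' b * U b := by
        refine mul_le_mul_of_nonneg_left ?_ (ho'0 b)
        exact Finset.sum_le_sum fun c _ => mul_le_mul_of_nonneg_right (ho'1 c) (TA_i_nonneg _)
      have h5 : o b * TA_i (near b a) * U b + o' b * U b = o b * U b := by
        simp only [ho']
        ring
      linarith
    have h2 : ∑ v, o v = U a + ∑ v, o' v := by
      rw [hU]
      simp only
      rw [← Finset.sum_add_distrib]
      refine Finset.sum_congr rfl fun v _ => ?_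
      simp only [ho']
      ring
    have h3 : 0 ≤ ∑ b, o' b * ∑ c, o' c * TA_i (near c b) :=
      Finset.sum_nonneg fun b _ => mul_nonneg (ho'0 b) (Finset.sum_nonneg fun c _ =>
        mul_nonneg (ho'0 c) (TA_i_nonneg _))
    rw [h2]
    push_cast
    refine TA_ms_arith ?_ hih h1 h3
    rcases Nat.eq_zero_or_pos n with hn | hn
    · left
      exact_mod_cast hn
    · right
      exact_mod_cast hn

end ms

section dual

variable {V : Type} [Fintype V] [DecidableEq V] {k : ℕ}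

private theorem TA_small {d c s0 : ℝ} (hs0 : 0 < s0)
    (h : ∀ s, 0 < s → s ≤ s0 → s * d ≤ s ^ 2 * c) : d ≤ 0 := by
  by_contra hd
  push Not at hd
  have hc : 0 < |c| + 1 := by positivity
  set s : ℝ := min s0 (d / (2 * (|c| + 1))) with hs
  have h1 : 0 < s := lt_min hs0 (by positivity)
  have h2 := h s h1 (min_le_left _ _)
  have h3 : s ≤ d / (2 * (|c| + 1)) := min_le_right _ _
  have h4 : s * (2 * (|c| + 1)) ≤ d := by rwa [le_div_iff₀ (by positivity)] at h3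
  have h5 : d ≤ s * c := by
    have h6 : s * d ≤ s * (s * c) := by
      calc s * d ≤ s ^ 2 * c := h2
        _ = s * (s * c) := by ring
    exact le_of_mul_le_mul_left h6 h1
  have h6 : s * c ≤ s * |c| := mul_le_mul_of_nonneg_left (le_abs_self c) h1.le
  have h7 : 0 ≤ s * |c| := mul_nonneg h1.le (abs_nonneg c)
  nlinarith

private theorem TA_max_sq (x y : ℝ) :
    max (x + y) 0 ^ 2 ≤ max x 0 ^ 2 + 2 * y * max x 0 + y ^ 2 := by
  rcases le_total (x + y) 0 with h | h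
  · rw [max_eq_right h]
    rcases le_total x 0 with h' | h'
    · rw [max_eq_right h']
      nlinarith [sq_nonneg y]
    · rw [max_eq_left h']
      nlinarith [sq_nonneg (x + y)]
  · rw [max_eq_left h]
    rcases le_total x 0 with h' | h'
    · rw [max_eq_right h']
      nlinarith
    · rw [max_eq_left h']
      nlinarith

/-- An almost optimal packing together with its dual. -/
private theorem TA_dual (near : V → V → Prop) (hk : 1 ≤ k) {ξ : V → ℝ} (hξ : ∀ v, 0 ≤ ξ v)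
    {ε : ℝ} (hε : 0 < ε) :
    ∃ (ρ : (Fin k → V) → ℝ) (t : V → ℝ), (∀ Q, 0 ≤ ρ Q) ∧ (∀ Q, ρ Q ≠ 0 → TA_cl near Q) ∧
      (∀ v, 0 ≤ t v) ∧ (∀ v, t v ≤ 1) ∧ (∀ Q : Fin k → V, TA_cl near Q → 1 ≤ ∑ i, t (Q i)) ∧
      (∀ Q, ρ Q ≠ 0 → ∑ i, t (Q i) = 1) ∧ (∀ v, TA_h ρ v ≤ ξ v + ε * t v) ∧
      (∀ v, t v ≠ 0 → TA_h ρ v = ξ v + ε * t v) := by
  classical
  set B : ℝ := ∑ v, ξ v + ε with hB
  have hBv : ∀ v, ξ v + ε ≤ B := by
    intro v
    have := Finset.single_le_sum (f := ξ) (fun v _ => hξ v) (Finset.mem_univ v)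
    linarith
  have hB0 : 0 < B := by
    have := Finset.sum_nonneg (s := univ) fun v _ => hξ v
    linarith
  set u : (Fin k → V) → ℝ := fun Q => if TA_cl near Q then B else 0 with hu
  have hu0 : ∀ Q, 0 ≤ u Q := by
    intro Q
    simp only [hu]
    split_ifs
    · exact hB0.le
    · exact le_rfl
  set F : ((Fin k → V) → ℝ) → ℝ := fun ρ =>
    ∑ Q, ρ Q - (1 / (2 * ε)) * ∑ v, max (TA_h ρ v - ξ v) 0 ^ 2 with hF
  have hcont : Continuous F := by
    have h1 : ∀ v, Continuous fun ρ : (Fin k → V) → ℝ => TA_h ρ v := by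
      intro v
      unfold TA_h
      fun_prop
    have h2 : ∀ v, Continuous fun ρ : (Fin k → V) → ℝ => max (TA_h ρ v - ξ v) 0 ^ 2 :=
      fun v => (((h1 v).sub continuous_const).max continuous_const).pow 2
    rw [hF]
    refine Continuous.sub (by fun_prop) (Continuous.mul continuous_const ?_)
    exact continuous_finsetSum _ fun v _ => h2 v
  obtain ⟨ρ, ⟨hρ0, hρu⟩, hmax⟩ := (isCompact_Icc (a := (0 : (Fin k → V) → ℝ)) (b := u)).exists_isMaxOn
    ⟨0, le_rfl, hu0⟩ hcont.continuousOn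
  have hρ0' : ∀ Q, 0 ≤ ρ Q := fun Q => hρ0 Q
  have hρK : ∀ Q, ρ Q ≠ 0 → TA_cl near Q := by
    intro Q hQ
    by_contra hc
    have h1 := hρu Q
    simp only [hu] at h1
    rw [if_neg hc] at h1
    exact hQ (le_antisymm h1 (hρ0 Q))
  set m : V → ℝ := fun v => max (TA_h ρ v - ξ v) 0 with hm
  have hm0 : ∀ v, 0 ≤ m v := fun v => le_max_right _ _
  set t : V → ℝ := fun v => m v / ε with ht
  have ht0 : ∀ v, 0 ≤ t v := fun v => div_nonneg (hm0 v) hε.le
  have hεt : ∀ v, ε * t v = m v := fun v => mul_div_cancel₀ _ hε.ne'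
  -- perturbation
  have hpert : ∀ Q : Fin k → V, TA_cl near Q → ∀ s : ℝ, 0 ≤ ρ Q + s → ρ Q + s ≤ B →
      s * (1 - ∑ i, t (Q i)) ≤
        s ^ 2 * ((1 / (2 * ε)) * ∑ v, (∑ i, (if Q i = v then (1 : ℝ) else 0)) ^ 2) := by
    intro Q hQ s hs1 hs2
    set ρ' : (Fin k → V) → ℝ := fun Q' => ρ Q' + (if Q' = Q then s else 0) with hρ'
    have h1 : ρ' ∈ Set.Icc (0 : (Fin k → V) → ℝ) u := by
      refine ⟨fun Q' => ?_, fun Q' => ?_⟩
      · by_cases h : Q' = Q
        · simp only [hρ', Pi.zero_apply]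
          rw [if_pos h, h]
          exact hs1
        · simp only [hρ', Pi.zero_apply]
          rw [if_neg h, add_zero]
          exact hρ0 Q'
      · by_cases h : Q' = Q
        · simp only [hρ', hu]
          rw [if_pos h, h, if_pos hQ]
          exact hs2
        · simp only [hρ']
          rw [if_neg h, add_zero]
          exact hρu Q'
    have h2 : F ρ' ≤ F ρ := hmax h1
    have h3 : ∀ v, TA_h ρ' v = TA_h ρ v + s * ∑ i, (if Q i = v then (1 : ℝ) else 0) := by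
      intro v
      unfold TA_h
      simp only [hρ']
      simp_rw [add_mul]
      rw [Finset.sum_add_distrib]
      congr 1
      rw [Finset.sum_eq_single Q]
      · rw [if_pos rfl]
      · intro Q' _ hQ'
        rw [if_neg hQ', zero_mul]
      · intro hh
        exact absurd (Finset.mem_univ _) hh
    have h4 : ∑ Q', ρ' Q' = ∑ Q', ρ Q' + s := by
      simp only [hρ']
      rw [Finset.sum_add_distrib, Finset.sum_ite_eq', if_pos (Finset.mem_univ _)]
    have h5 : ∑ v, max (TA_h ρ' v - ξ v) 0 ^ 2 ≤ ∑ v, m v ^ 2 + 2 * s * (ε * ∑ i, t (Q i)) +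
        s ^ 2 * ∑ v, (∑ i, (if Q i = v then (1 : ℝ) else 0)) ^ 2 := by
      have h6 : ε * ∑ i, t (Q i) = ∑ v, (∑ i, (if Q i = v then (1 : ℝ) else 0)) * m v := by
        rw [TA_cnt Q m, Finset.mul_sum]
        exact Finset.sum_congr rfl fun i _ => hεt _
      rw [h6, Finset.mul_sum, Finset.mul_sum, ← Finset.sum_add_distrib, ← Finset.sum_add_distrib]
      refine Finset.sum_le_sum fun v _ => ?_
      have h7 := TA_max_sq (TA_h ρ v - ξ v) (s * ∑ i, (if Q i = v then (1 : ℝ) else 0))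
      have h8 : TA_h ρ' v - ξ v =
          TA_h ρ v - ξ v + s * ∑ i, (if Q i = v then (1 : ℝ) else 0) := by
        rw [h3]
        ring
      rw [h8]
      refine h7.trans (le_of_eq ?_)
      simp only [hm]
      ring
    have h6 : F ρ' ≥ F ρ + s * (1 - ∑ i, t (Q i)) -
        s ^ 2 * ((1 / (2 * ε)) * ∑ v, (∑ i, (if Q i = v then (1 : ℝ) else 0)) ^ 2) := by
      simp only [hF]
      rw [h4]
      have h7 := mul_le_mul_of_nonneg_left h5 (by positivity : 0 ≤ 1 / (2 * ε))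
      have h8 : 1 / (2 * ε) * (∑ v, m v ^ 2 + 2 * s * (ε * ∑ i, t (Q i)) +
          s ^ 2 * ∑ v, (∑ i, (if Q i = v then (1 : ℝ) else 0)) ^ 2) =
          1 / (2 * ε) * ∑ v, m v ^ 2 + s * ∑ i, t (Q i) +
          s ^ 2 * (1 / (2 * ε) * ∑ v, (∑ i, (if Q i = v then (1 : ℝ) else 0)) ^ 2) := by
        field_simp
      rw [h8] at h7
      simp only [hm] at h7
      linarith
    linarith
  have hcov : ∀ Q : Fin k → V, TA_cl near Q → 1 ≤ ∑ i, t (Q i) := by
    intro Q hQ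
    by_contra hc
    push Not at hc
    by_cases hlt : ρ Q < B
    · have h1 := TA_small (d := 1 - ∑ i, t (Q i)) (s0 := B - ρ Q) (by linarith) fun s hs1 hs2 =>
        hpert Q hQ s (by linarith [hρ0' Q]) (by linarith)
      linarith
    · push Not at hlt
      have hpos : 0 < k := hk
      have h1 : ρ Q ≤ TA_h ρ (Q ⟨0, hpos⟩) := by
        unfold TA_h
        have h2 : ρ Q ≤ ρ Q * ∑ i, (if Q i = Q ⟨0, hpos⟩ then (1 : ℝ) else 0) := by
          refine le_mul_of_one_le_right (hρ0' Q) ?_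
          have h3 := Finset.single_le_sum
            (f := fun i => (if Q i = Q ⟨0, hpos⟩ then (1 : ℝ) else 0))
            (fun i _ => by split_ifs <;> norm_num) (Finset.mem_univ (⟨0, hpos⟩ : Fin k))
          simpa using h3
        refine h2.trans (Finset.single_le_sum
          (f := fun Q' => ρ Q' * ∑ i, (if Q' i = Q ⟨0, hpos⟩ then (1 : ℝ) else 0))
          (fun Q' _ => mul_nonneg (hρ0' Q') (Finset.sum_nonneg fun i _ => by
            split_ifs <;> norm_num)) (Finset.mem_univ Q))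
      have h2 : ε ≤ m (Q ⟨0, hpos⟩) := by
        have h3 : TA_h ρ (Q ⟨0, hpos⟩) - ξ (Q ⟨0, hpos⟩) ≤ m (Q ⟨0, hpos⟩) := le_max_left _ _
        linarith [hBv (Q ⟨0, hpos⟩)]
      have h3 : 1 ≤ t (Q ⟨0, hpos⟩) := by
        simp only [ht]
        rwa [le_div_iff₀ hε, one_mul]
      have h4 := Finset.single_le_sum (f := fun i => t (Q i)) (fun i _ => ht0 _)
        (Finset.mem_univ (⟨0, hpos⟩ : Fin k))
      linarith
  have htight : ∀ Q, ρ Q ≠ 0 → ∑ i, t (Q i) = 1 := by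
    intro Q hQ
    have hQ0 : 0 < ρ Q := lt_of_le_of_ne (hρ0' Q) (Ne.symm hQ)
    have hQB : ρ Q ≤ B := by
      have h1 := hρu Q
      simp only [hu] at h1
      rwa [if_pos (hρK Q hQ)] at h1
    refine le_antisymm ?_ (hcov Q (hρK Q hQ))
    have h1 := TA_small (d := ∑ i, t (Q i) - 1) (s0 := ρ Q)
      (c := (1 / (2 * ε)) * ∑ v, (∑ i, (if Q i = v then (1 : ℝ) else 0)) ^ 2) hQ0
      fun s hs1 hs2 => by
      have h2 := hpert Q (hρK Q hQ) (-s) (by linarith) (by linarith)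
      have h3 : (-s) ^ 2 = s ^ 2 := by ring
      rw [h3] at h2
      linarith
    linarith
  have hts : ∀ v, t v ≠ 0 → TA_h ρ v = ξ v + ε * t v := by
    intro v hv
    rw [hεt]
    have h1 : m v ≠ 0 := by
      intro h
      apply hv
      simp only [ht]
      rw [h, zero_div]
    have h2 : 0 < TA_h ρ v - ξ v := by
      by_contra hc
      push Not at hc
      exact h1 (max_eq_right hc)
    simp only [hm]
    rw [max_eq_left h2.le]
    ring
  refine ⟨ρ, t, hρ0', hρK, ht0, ?_, hcov, htight, ?_, hts⟩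
  · intro v
    by_cases hv : t v = 0
    · rw [hv]
      exact zero_le_one
    · have h1 := hts v hv
      have h2 : 0 < t v := lt_of_le_of_ne (ht0 v) (Ne.symm hv)
      have h3 : 0 < TA_h ρ v := by
        rw [h1]
        have := mul_pos hε h2
        linarith [hξ v]
      unfold TA_h at h3
      obtain ⟨Q, -, hQ⟩ := Finset.exists_ne_zero_of_sum_ne_zero h3.ne'
      have h4 : ρ Q ≠ 0 := fun h => hQ (by rw [h, zero_mul])
      have h5 : ∑ i, (if Q i = v then (1 : ℝ) else 0) ≠ 0 := fun h => hQ (by rw [h, mul_zero])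
      obtain ⟨i, -, hi⟩ := Finset.exists_ne_zero_of_sum_ne_zero h5
      have h6 : Q i = v := by
        by_contra hc
        exact hi (if_neg hc)
      rw [← htight Q h4, ← h6]
      exact Finset.single_le_sum (f := fun i => t (Q i)) (fun i _ => ht0 _) (Finset.mem_univ i)
  · intro v
    rw [hεt]
    have h1 : TA_h ρ v - ξ v ≤ m v := le_max_left _ _
    linarith

end dual

/-- A cover of least total weight. -/
private theorem TA_opt {V Y : Type} [Fintype V] [DecidableEq V] [Fintype Y] (I : Y → Finset V)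
    {μ : Y → ℝ} (hμ : ∀ y, 0 ≤ μ y)
    (hcov : ∀ v, 1 ≤ ∑ y ∈ univ.filter (fun y => v ∈ I y), μ y) :
    ∃ ν : Y → ℝ, (∀ y, 0 ≤ ν y) ∧ (∀ v, 1 ≤ ∑ y ∈ univ.filter (fun y => v ∈ I y), ν y) ∧
      ∀ ρ : Y → ℝ, (∀ y, 0 ≤ ρ y) → (∀ v, 1 ≤ ∑ y ∈ univ.filter (fun y => v ∈ I y), ρ y) →
        ∑ y, ν y ≤ ∑ y, ρ y := by
  have hclosed : IsClosed {ν : Y → ℝ | (∀ y, 0 ≤ ν y) ∧
      (∀ v, 1 ≤ ∑ y ∈ univ.filter (fun y => v ∈ I y), ν y) ∧ ∑ y, ν y ≤ ∑ y, μ y} := by
    refine IsClosed.inter ?_ (IsClosed.inter ?_ ?_)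
    · have h1 : {ν : Y → ℝ | ∀ y, 0 ≤ ν y} = ⋂ y, {ν : Y → ℝ | 0 ≤ ν y} := by
        ext ν; simp
      have h2 : IsClosed (⋂ y, {ν : Y → ℝ | 0 ≤ ν y}) :=
        isClosed_iInter fun y => isClosed_le continuous_const (continuous_apply y)
      rw [← h1] at h2
      exact h2
    · have h1 : {ν : Y → ℝ | ∀ v, 1 ≤ ∑ y ∈ univ.filter (fun y => v ∈ I y), ν y} =
          ⋂ v, {ν : Y → ℝ | 1 ≤ ∑ y ∈ univ.filter (fun y => v ∈ I y), ν y} := by
        ext ν; simp
      have h2 : IsClosed (⋂ v, {ν : Y → ℝ | 1 ≤ ∑ y ∈ univ.filter (fun y => v ∈ I y), ν y}) :=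
        isClosed_iInter fun v => isClosed_le continuous_const
          (continuous_finsetSum _ fun y _ => continuous_apply y)
      rw [← h1] at h2
      exact h2
    · exact isClosed_le (continuous_finsetSum _ fun y _ => continuous_apply y) continuous_const
  have hcomp : IsCompact {ν : Y → ℝ | (∀ y, 0 ≤ ν y) ∧
      (∀ v, 1 ≤ ∑ y ∈ univ.filter (fun y => v ∈ I y), ν y) ∧ ∑ y, ν y ≤ ∑ y, μ y} := by
    refine IsCompact.of_isClosed_subset
      (isCompact_univ_pi fun _ : Y => isCompact_Icc (a := (0 : ℝ)) (b := ∑ y, μ y)) hclosed ?_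
    rintro ν ⟨h0, -, h1⟩ y -
    exact ⟨h0 y, (Finset.single_le_sum (fun y _ => h0 y) (Finset.mem_univ y)).trans h1⟩
  obtain ⟨ν, ⟨hν0, hν1, hν2⟩, hmin⟩ := hcomp.exists_isMinOn ⟨μ, hμ, hcov, le_rfl⟩
    (f := fun ν : Y → ℝ => ∑ y, ν y)
    (continuous_finsetSum _ fun y _ => continuous_apply y).continuousOn
  refine ⟨ν, hν0, hν1, fun ρ hρ0 hρ1 => ?_⟩
  by_cases h : ∑ y, ρ y ≤ ∑ y, μ y
  · exact hmin ⟨hρ0, hρ1, h⟩
  · push Not at h
    linarith

/-- The packing inequality. -/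
private theorem TA_pack {V Y : Type} [Fintype V] [DecidableEq V] [Fintype Y]
    (I : Y → Finset V) {ν : Y → ℝ} (h0 : ∀ y, 0 ≤ ν y)
    (h1 : ∀ v, 1 ≤ ∑ y ∈ univ.filter (fun y => v ∈ I y), ν y)
    (hmin : ∀ ρ : Y → ℝ, (∀ y, 0 ≤ ρ y) →
      (∀ v, 1 ≤ ∑ y ∈ univ.filter (fun y => v ∈ I y), ρ y) → ∑ y, ν y ≤ ∑ y, ρ y)
    {u : Y → ℝ} {L : ℝ} (hL : 0 ≤ L) (hsupp : ∀ y, ν y = 0 → u y = 0)
    (hload : ∀ v, ∑ y ∈ univ.filter (fun y => v ∈ I y), u y ≤ L) : ∑ y, u y ≤ L * ∑ y, ν y := by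
  have hev : ∀ᶠ ε : ℝ in nhdsWithin 0 (Set.Ioi 0), ∀ y, ε * u y ≤ ν y := by
    rw [Filter.eventually_all]
    intro y
    rcases (h0 y).eq_or_lt with h | h
    · refine Filter.Eventually.of_forall fun ε => ?_
      rw [hsupp y h.symm, mul_zero]
      exact h0 y
    · have hc : Continuous fun ε : ℝ => ε * u y := by fun_prop
      have h2 : ∀ᶠ ε : ℝ in nhds (0 : ℝ), ε * u y < ν y := by
        refine hc.continuousAt.eventually_lt continuousAt_const ?_
        rw [zero_mul]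
        exact h
      have h3 : ∀ᶠ ε : ℝ in nhdsWithin 0 (Set.Ioi 0), ε * u y < ν y :=
        h2.filter_mono nhdsWithin_le_nhds
      exact h3.mono fun ε hε => hε.le
  obtain ⟨ε, hε1, hε2⟩ := (hev.and self_mem_nhdsWithin).exists
  have hε0 : (0 : ℝ) < ε := hε2
  have hεL : 0 ≤ ε * L := mul_nonneg hε0.le hL
  have h2 := hmin (fun y => (1 + ε * L) * ν y - ε * u y) (fun y => by
      have h3 := hε1 y
      have h4 : 0 ≤ ε * L * ν y := mul_nonneg hεL (h0 y)
      linarith) (fun v => by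
      rw [Finset.sum_sub_distrib, ← Finset.mul_sum, ← Finset.mul_sum]
      have h3 := h1 v
      have h4 := mul_le_mul_of_nonneg_left (hload v) hε0.le
      have h5 := mul_le_mul_of_nonneg_left h3 (by linarith : (0 : ℝ) ≤ 1 + ε * L)
      linarith)
  rw [Finset.sum_sub_distrib, ← Finset.mul_sum, ← Finset.mul_sum] at h2
  by_contra hcon
  push Not at hcon
  have h3 := mul_lt_mul_of_pos_left hcon hε0
  linarith

/-- The weight of the pairs in a common member with `v`. -/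
private theorem TA_link {V Y : Type} [Fintype V] [DecidableEq V]
    {H : Finset (Finset V)} {ξ : V → ℝ} {I : Y → Finset V} (hξ : ∀ v, 0 ≤ ξ v)
    (hI : ∀ y, ∀ e ∈ H, ¬ e ⊆ I y) (v : V) (hlink : ∑ w ∈ lnk H 2 v, ∏ i, ξ (w i) ≤ 1) :
    ∑ p : V × V, ξ p.1 * ξ p.2 * TA_i (∃ y, v ∈ I y ∧ p.1 ∈ I y ∧ p.2 ∈ I y) ≤ 1 := by
  classical
  refine le_trans ?_ hlink
  have h1 : ∑ w ∈ lnk H 2 v, ∏ i, ξ (w i) =
      ∑ p : V × V, (if ![p.1, p.2] ∈ lnk H 2 v then ξ p.1 * ξ p.2 else 0) := by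
    have h2 : ∑ w ∈ lnk H 2 v, ∏ i, ξ (w i) =
        ∑ w : Fin 2 → V, (if w ∈ lnk H 2 v then ∏ i, ξ (w i) else 0) := by
      rw [Finset.sum_ite_mem, Finset.univ_inter]
    rw [h2, ← (finTwoArrowEquiv V).symm.sum_comp]
    refine Finset.sum_congr rfl fun p _ => ?_
    have h3 : (finTwoArrowEquiv V).symm p = ![p.1, p.2] := rfl
    rw [h3, Fin.prod_univ_two]
    rfl
  rw [h1]
  refine Finset.sum_le_sum fun p _ => ?_
  by_cases h : ∃ y, v ∈ I y ∧ p.1 ∈ I y ∧ p.2 ∈ I y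
  · rw [TA_i_true h, mul_one, if_pos]
    obtain ⟨y, hv, hx, hx'⟩ := h
    rw [lnk, Finset.mem_filter]
    refine ⟨Finset.mem_univ _, fun hmem => hI y _ hmem ?_⟩
    intro a ha
    rw [Finset.mem_insert, Finset.mem_image] at ha
    rcases ha with rfl | ⟨i, -, rfl⟩
    · exact hv
    · fin_cases i
      · exact hx
      · exact hx'
  · rw [TA_i_false h, mul_zero]
    split_ifs
    · exact mul_nonneg (hξ _) (hξ _)
    · exact le_rfl

/-- The packing inequality for pairs. -/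
private theorem TA_pairs {V Y : Type} [Fintype V] [DecidableEq V] [Fintype Y]
    {I : Y → Finset V} {ν : Y → ℝ} (h0 : ∀ y, 0 ≤ ν y)
    (h1 : ∀ v, 1 ≤ ∑ y ∈ univ.filter (fun y => v ∈ I y), ν y)
    (hmin : ∀ ρ : Y → ℝ, (∀ y, 0 ≤ ρ y) →
      (∀ v, 1 ≤ ∑ y ∈ univ.filter (fun y => v ∈ I y), ρ y) → ∑ y, ν y ≤ ∑ y, ρ y)
    (f : V × V → ℝ) (L : ℝ) (hf : ∀ p, 0 ≤ f p) (hL : 0 ≤ L)
    (hload : ∀ v, ∑ p : V × V, f p *
      TA_i (∃ y, 0 < ν y ∧ v ∈ I y ∧ p.1 ∈ I y ∧ p.2 ∈ I y) ≤ L) :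
    ∑ p : V × V, f p * TA_i (∃ y, 0 < ν y ∧ p.1 ∈ I y ∧ p.2 ∈ I y) ≤ L * ∑ y, ν y := by
  classical
  have hex : ∀ p : V × V, ∃ o : Option Y, (∀ y, o = some y → 0 < ν y ∧ p.1 ∈ I y ∧ p.2 ∈ I y) ∧
      ((∃ y, 0 < ν y ∧ p.1 ∈ I y ∧ p.2 ∈ I y) → ∃ y, o = some y) := by
    intro p
    by_cases h : ∃ y, 0 < ν y ∧ p.1 ∈ I y ∧ p.2 ∈ I y
    · obtain ⟨y, hy⟩ := h
      refine ⟨some y, fun y' hy' => ?_, fun _ => ⟨y, rfl⟩⟩
      rw [Option.some_inj] at hy'
      rw [← hy']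
      exact hy
    · exact ⟨none, fun y hy => (by cases hy), fun h' => absurd h' h⟩
  choose o ho1 ho2 using hex
  have h2 := TA_pack I h0 h1 hmin (u := fun y => ∑ p, (if o p = some y then f p else 0)) hL (by
      intro y hy
      refine Finset.sum_eq_zero fun p _ => ?_
      rw [if_neg]
      intro h
      have := (ho1 p y h).1
      rw [hy] at this
      exact lt_irrefl _ this) (by
      intro v
      refine le_trans ?_ (hload v)
      rw [Finset.sum_comm]
      refine Finset.sum_le_sum fun p _ => ?_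
      by_cases h : ∃ y ∈ univ.filter (fun y => v ∈ I y), o p = some y
      · obtain ⟨y, hy, hoy⟩ := h
        have h3 := ho1 p y hoy
        rw [TA_i_true ⟨y, h3.1, (Finset.mem_filter.1 hy).2, h3.2.1, h3.2.2⟩, mul_one]
        rw [Finset.sum_eq_single y]
        · rw [if_pos hoy]
        · intro y' _ hy'
          rw [if_neg]
          intro h4
          rw [hoy, Option.some_inj] at h4
          exact hy' h4.symm
        · intro h4
          exact absurd hy h4
      · push Not at h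
        rw [Finset.sum_eq_zero (fun y hy => if_neg (h y hy))]
        exact mul_nonneg (hf p) (TA_i_nonneg _))
  refine le_trans ?_ h2
  rw [Finset.sum_comm]
  refine Finset.sum_le_sum fun p _ => ?_
  by_cases h : ∃ y, 0 < ν y ∧ p.1 ∈ I y ∧ p.2 ∈ I y
  · obtain ⟨y, hy⟩ := ho2 p h
    have h3 := Finset.single_le_sum (f := fun y => (if o p = some y then f p else 0))
      (fun y _ => by
        show (0 : ℝ) ≤ if o p = some y then f p else 0
        split_ifs
        · exact hf p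
        · exact le_rfl) (Finset.mem_univ y)
    have h4 : (if o p = some y then f p else 0) = f p := if_pos hy
    have h5 : f p ≤ ∑ y, (if o p = some y then f p else 0) := le_of_eq_of_le h4.symm h3
    rw [TA_i_true h, mul_one]
    exact h5
  · rw [TA_i_false h, mul_zero]
    refine Finset.sum_nonneg fun y _ => ?_
    split_ifs
    · exact hf p
    · exact le_rfl

/-- At most one of the points of a clique lies in a member. -/
private theorem TA_one {k : ℕ} {p : Fin k → Prop} (h : ∀ i j, i ≠ j → ¬ (p i ∧ p j)) :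
    ∑ i, TA_i (p i) ≤ 1 := by
  by_cases hp : ∃ i, p i
  · obtain ⟨i, hi⟩ := hp
    rw [Finset.sum_eq_single i]
    · exact TA_i_le _
    · intro j _ hj
      exact TA_i_false fun hpj => h j i hj ⟨hpj, hi⟩
    · intro hh
      exact absurd (Finset.mem_univ _) hh
  · push Not at hp
    rw [Finset.sum_eq_zero fun i _ => TA_i_false (hp i)]
    exact zero_le_one

/-- Two cliques and a point. -/
private theorem TA_T {V Y : Type} [Fintype V] [DecidableEq V] [Fintype Y] {k : ℕ}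
    (I : Y → Finset V) {ν : Y → ℝ} (h0 : ∀ y, 0 ≤ ν y)
    (h1 : ∀ v, 1 ≤ ∑ y ∈ univ.filter (fun y => v ∈ I y), ν y) (hz : ∑ y, ν y < k + 1 / 2)
    (Q Q' : Fin k → V) (hQ : TA_cl (fun a b => ∃ y, 0 < ν y ∧ a ∈ I y ∧ b ∈ I y) Q)
    (hQ' : TA_cl (fun a b => ∃ y, 0 < ν y ∧ a ∈ I y ∧ b ∈ I y) Q') (v : V) :
    ∃ i j, ∃ y, 0 < ν y ∧ v ∈ I y ∧ Q i ∈ I y ∧ Q' j ∈ I y := by
  by_contra hcon
  push Not at hcon
  have hmem : ∀ y, 0 < ν y → ∑ i, TA_i (Q i ∈ I y) + ∑ j, TA_i (Q' j ∈ I y) +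
      TA_i (v ∈ I y) ≤ 2 := by
    intro y hy
    have h2 : ∑ i, TA_i (Q i ∈ I y) ≤ 1 :=
      TA_one fun i j hij h => hQ i j hij ⟨y, hy, h.1, h.2⟩
    have h3 : ∑ i, TA_i (Q' i ∈ I y) ≤ 1 :=
      TA_one fun i j hij h => hQ' i j hij ⟨y, hy, h.1, h.2⟩
    by_cases hv : v ∈ I y
    · have h4 : TA_i (v ∈ I y) ≤ 1 := TA_i_le _
      by_cases h5 : ∃ i, Q i ∈ I y
      · obtain ⟨i, hi⟩ := h5
        rw [Finset.sum_eq_zero (s := univ) (f := fun j => TA_i (Q' j ∈ I y))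
          fun j _ => TA_i_false (hcon i j y hy hv hi)]
        linarith
      · push Not at h5
        rw [Finset.sum_eq_zero (s := univ) (f := fun i => TA_i (Q i ∈ I y))
          fun i _ => TA_i_false (h5 i)]
        linarith
    · rw [TA_i_false hv]
      linarith
  have hc : ∀ x, ∑ y ∈ univ.filter (fun y => x ∈ I y), ν y = ∑ y, ν y * TA_i (x ∈ I y) := by
    intro x
    rw [Finset.sum_filter]
    refine Finset.sum_congr rfl fun y _ => ?_
    by_cases h : x ∈ I y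
    · rw [if_pos h, TA_i_true h, mul_one]
    · rw [if_neg h, TA_i_false h, mul_zero]
  have hk : ∀ Q : Fin k → V, (k : ℝ) ≤ ∑ y, ν y * ∑ i, TA_i (Q i ∈ I y) := by
    intro Q
    have h2 : (k : ℝ) = ∑ _i : Fin k, (1 : ℝ) := by simp
    rw [h2]
    simp_rw [Finset.mul_sum]
    rw [Finset.sum_comm]
    refine Finset.sum_le_sum fun i _ => ?_
    rw [← hc]
    exact h1 _
  have hv := h1 v
  rw [hc] at hv
  have h2 : ∑ y, ν y * (∑ i, TA_i (Q i ∈ I y) + ∑ j, TA_i (Q' j ∈ I y) + TA_i (v ∈ I y)) ≤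
      ∑ y, ν y * 2 := by
    refine Finset.sum_le_sum fun y _ => ?_
    rcases (h0 y).eq_or_lt with h | h
    · rw [← h, zero_mul, zero_mul]
    · exact mul_le_mul_of_nonneg_left (hmem y h) h.le
  have h3 : ∑ y, ν y * (∑ i, TA_i (Q i ∈ I y) + ∑ j, TA_i (Q' j ∈ I y) + TA_i (v ∈ I y)) =
      ∑ y, ν y * ∑ i, TA_i (Q i ∈ I y) + ∑ y, ν y * ∑ j, TA_i (Q' j ∈ I y) +
        ∑ y, ν y * TA_i (v ∈ I y) := by
    rw [← Finset.sum_add_distrib, ← Finset.sum_add_distrib]
    exact Finset.sum_congr rfl fun y _ => by ring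
  rw [h3, ← Finset.sum_mul] at h2
  linarith [hk Q, hk Q']

/-- The claim for `k`. -/
private def TA_Claim (k : ℕ) : Prop :=
  ∀ (V Y : Type) [Fintype V] [DecidableEq V] [Fintype Y] (I : Y → Finset V) (μ : Y → ℝ)
    (ξ : V → ℝ), (∀ y, 0 ≤ μ y) → (∀ v, 0 ≤ ξ v) →
    (∀ v, 0 < ξ v → 1 ≤ ∑ y ∈ univ.filter (fun y => v ∈ I y), μ y) →
    ∑ y, μ y < k + 1 / 2 →
    (∀ v, 0 < ξ v →
      ∑ p : V × V, ξ p.1 * ξ p.2 * TA_i (∃ y, v ∈ I y ∧ p.1 ∈ I y ∧ p.2 ∈ I y) ≤ 1) →
    ∑ v, ξ v ≤ k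

/-- The points orthogonal to a point. -/
private theorem TA_X {k : ℕ} (ih : TA_Claim k) {V Y : Type} [Fintype V] [DecidableEq V]
    [Fintype Y] (I : Y → Finset V) {ν : Y → ℝ} {ζ : V → ℝ} (h0 : ∀ y, 0 ≤ ν y)
    (hζ : ∀ v, 0 ≤ ζ v) (h1 : ∀ v, 1 ≤ ∑ y ∈ univ.filter (fun y => v ∈ I y), ν y)
    (hz : ∑ y, ν y < k + 1 + 1 / 2)
    (hW : ∀ v, ∑ p : V × V, ζ p.1 * ζ p.2 *
      TA_i (∃ y, 0 < ν y ∧ v ∈ I y ∧ p.1 ∈ I y ∧ p.2 ∈ I y) ≤ 1)
    (hM : (k : ℝ) + 1 ≤ ∑ v, ζ v) (c : V) :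
    1 ≤ ∑ a, ζ a * TA_i (∃ y, 0 < ν y ∧ a ∈ I y ∧ c ∈ I y) := by
  classical
  have h2 := ih V Y (fun y => if 0 < ν y ∧ c ∉ I y then I y else ∅)
    (fun y => if c ∈ I y then 0 else ν y)
    (fun a => ζ a * (1 - TA_i (∃ y, 0 < ν y ∧ a ∈ I y ∧ c ∈ I y)))
    (fun y => by
      split_ifs
      · exact le_rfl
      · exact h0 y)
    (fun v => mul_nonneg (hζ v) (sub_nonneg.2 (TA_i_le _)))
    (fun v hv => by
      have hn : ¬ ∃ y, 0 < ν y ∧ v ∈ I y ∧ c ∈ I y := by
        intro h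
        rw [TA_i_true h, sub_self, mul_zero] at hv
        exact lt_irrefl _ hv
      refine (h1 v).trans ?_
      rw [Finset.sum_filter, Finset.sum_filter]
      refine Finset.sum_le_sum fun y _ => ?_
      by_cases hy : v ∈ I y
      · rw [if_pos hy]
        rcases (h0 y).eq_or_lt with h | h
        · rw [← h]
          split_ifs <;> exact le_rfl
        · have hc : c ∉ I y := fun hc => hn ⟨y, h, hy, hc⟩
          have hin : v ∈ (if 0 < ν y ∧ c ∉ I y then I y else ∅) := by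
            rw [if_pos ⟨h, hc⟩]
            exact hy
          rw [if_pos hin, if_neg hc]
      · rw [if_neg hy]
        split_ifs <;> first | exact le_rfl | exact h0 y)
    (by
      have h3 := h1 c
      rw [Finset.sum_filter] at h3
      have h4 : ∑ y, (if c ∈ I y then 0 else ν y) + ∑ y, (if c ∈ I y then ν y else 0) =
          ∑ y, ν y := by
        rw [← Finset.sum_add_distrib]
        refine Finset.sum_congr rfl fun y _ => ?_
        split_ifs
        · exact zero_add _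
        · exact add_zero _
      linarith)
    (fun v hv => by
      refine le_trans (Finset.sum_le_sum fun p _ => ?_) (hW v)
      have h3 : ∀ a, ζ a * (1 - TA_i (∃ y, 0 < ν y ∧ a ∈ I y ∧ c ∈ I y)) ≤ ζ a := fun a =>
        mul_le_of_le_one_right (hζ a)
          (by linarith [TA_i_nonneg (∃ y, 0 < ν y ∧ a ∈ I y ∧ c ∈ I y)])
      have h4 : ∀ a, 0 ≤ ζ a * (1 - TA_i (∃ y, 0 < ν y ∧ a ∈ I y ∧ c ∈ I y)) := fun a =>
        mul_nonneg (hζ a) (sub_nonneg.2 (TA_i_le _))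
      have h5 := mul_le_mul (h3 p.1) (h3 p.2) (h4 _) (hζ _)
      refine mul_le_mul h5 (TA_i_mono ?_) (TA_i_nonneg _) (mul_nonneg (hζ _) (hζ _))
      rintro ⟨y, h6, h7, h8⟩
      by_cases hy : 0 < ν y ∧ c ∉ I y
      · rw [if_pos hy] at h6 h7 h8
        exact ⟨y, hy.1, h6, h7, h8⟩
      · rw [if_neg hy] at h6
        simp at h6)
  have h3 : ∑ a, ζ a * (1 - TA_i (∃ y, 0 < ν y ∧ a ∈ I y ∧ c ∈ I y)) =
      ∑ a, ζ a - ∑ a, ζ a * TA_i (∃ y, 0 < ν y ∧ a ∈ I y ∧ c ∈ I y) := by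
    rw [← Finset.sum_sub_distrib]
    exact Finset.sum_congr rfl fun a _ => by ring
  rw [h3] at h2
  linarith

/-- The step. -/
private theorem TA_step {k : ℕ} (ih : TA_Claim k) {V Y : Type} [Fintype V] [DecidableEq V]
    [Fintype Y] (I : Y → Finset V) {μ : Y → ℝ} {ξ : V → ℝ} (hμ : ∀ y, 0 ≤ μ y)
    (hξ : ∀ v, 0 ≤ ξ v) (hcov : ∀ v, 1 ≤ ∑ y ∈ univ.filter (fun y => v ∈ I y), μ y)
    (hz : ∑ y, μ y < k + 1 + 1 / 2)
    (hW : ∀ v, ∑ p : V × V, ξ p.1 * ξ p.2 * TA_i (∃ y, v ∈ I y ∧ p.1 ∈ I y ∧ p.2 ∈ I y) ≤ 1) :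
    ∑ v, ξ v ≤ k + 1 := by
  classical
  by_contra hcon
  push Not at hcon
  set M : ℝ := ∑ v, ξ v with hM
  have hk0 : (0 : ℝ) < (k : ℝ) + 1 := by positivity
  have hM0 : 0 < M := hk0.trans hcon
  obtain ⟨ν, h0, h1, hmin⟩ := TA_opt I hμ hcov
  have hz' : ∑ y, ν y < k + 1 + 1 / 2 := lt_of_le_of_lt (hmin μ hμ hcov) hz
  obtain ⟨v₀⟩ : Nonempty V := by
    by_contra hV
    rw [not_nonempty_iff] at hV
    simp [hM] at hM0
  set l : ℝ := (k + 1) / M with hl
  have hl0 : 0 < l := div_pos hk0 hM0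
  have hl1 : l < 1 := (div_lt_one hM0).2 hcon
  have hl2 : l * M = k + 1 := div_mul_cancel₀ _ hM0.ne'
  have hl3 : l ^ 2 < 1 := by nlinarith
  set w : ℝ := (1 + l ^ 2) / 2 with hw
  have hw1 : w < 1 := by rw [hw]; linarith
  have hw2 : l ^ 2 < w := by rw [hw]; linarith
  -- the choice of the error
  have hev : ∀ᶠ ε : ℝ in nhdsWithin 0 (Set.Ioi 0), ∀ v, ∑ p : V × V,
      (l * ξ p.1 + ε) * (l * ξ p.2 + ε) *
        TA_i (∃ y, 0 < ν y ∧ v ∈ I y ∧ p.1 ∈ I y ∧ p.2 ∈ I y) < w := by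
    rw [Filter.eventually_all]
    intro v
    have hc : Continuous fun ε : ℝ => ∑ p : V × V, (l * ξ p.1 + ε) * (l * ξ p.2 + ε) *
        TA_i (∃ y, 0 < ν y ∧ v ∈ I y ∧ p.1 ∈ I y ∧ p.2 ∈ I y) := by
      fun_prop
    have h2 : ∑ p : V × V, (l * ξ p.1 + 0) * (l * ξ p.2 + 0) *
        TA_i (∃ y, 0 < ν y ∧ v ∈ I y ∧ p.1 ∈ I y ∧ p.2 ∈ I y) < w := by
      refine lt_of_le_of_lt ?_ hw2
      have h3 : ∑ p : V × V, (l * ξ p.1 + 0) * (l * ξ p.2 + 0) *
          TA_i (∃ y, 0 < ν y ∧ v ∈ I y ∧ p.1 ∈ I y ∧ p.2 ∈ I y) ≤ l ^ 2 *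
          ∑ p : V × V, ξ p.1 * ξ p.2 * TA_i (∃ y, v ∈ I y ∧ p.1 ∈ I y ∧ p.2 ∈ I y) := by
        rw [Finset.mul_sum]
        refine Finset.sum_le_sum fun p _ => ?_
        have h4 : TA_i (∃ y, 0 < ν y ∧ v ∈ I y ∧ p.1 ∈ I y ∧ p.2 ∈ I y) ≤
            TA_i (∃ y, v ∈ I y ∧ p.1 ∈ I y ∧ p.2 ∈ I y) :=
          TA_i_mono fun ⟨y, _, h⟩ => ⟨y, h⟩
        have h5 := mul_le_mul_of_nonneg_left h4
          (mul_nonneg (sq_nonneg l) (mul_nonneg (hξ p.1) (hξ p.2)))
        calc (l * ξ p.1 + 0) * (l * ξ p.2 + 0) *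
              TA_i (∃ y, 0 < ν y ∧ v ∈ I y ∧ p.1 ∈ I y ∧ p.2 ∈ I y) =
              l ^ 2 * (ξ p.1 * ξ p.2) *
                TA_i (∃ y, 0 < ν y ∧ v ∈ I y ∧ p.1 ∈ I y ∧ p.2 ∈ I y) := by ring
          _ ≤ l ^ 2 * (ξ p.1 * ξ p.2) *
                TA_i (∃ y, v ∈ I y ∧ p.1 ∈ I y ∧ p.2 ∈ I y) := h5
          _ = _ := by ring
      refine h3.trans ?_
      have h6 := mul_le_mul_of_nonneg_left (hW v) (sq_nonneg l)
      rwa [mul_one] at h6
    have h3 := hc.continuousAt.eventually_lt (continuousAt_const (y := w)) h2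
    exact h3.filter_mono nhdsWithin_le_nhds
  obtain ⟨ε, hε1, hε2⟩ := (hev.and self_mem_nhdsWithin).exists
  have hε0 : (0 : ℝ) < ε := hε2
  set near : V → V → Prop := fun a b => ∃ y, 0 < ν y ∧ a ∈ I y ∧ b ∈ I y with hnear
  have hs : ∀ a b, near a b → near b a := fun a b ⟨y, h, ha, hb⟩ => ⟨y, h, hb, ha⟩
  have hlξ : ∀ v, 0 ≤ l * ξ v := fun v => mul_nonneg hl0.le (hξ v)
  obtain ⟨ρ, t, hρ0, hρK, ht0, ht1, htc, htt, hle, hts⟩ :=
    TA_dual (k := k + 1) near (by omega) hlξ hε0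
  set ζ : V → ℝ := fun v => l * ξ v + ε * t v with hζ
  have hζ0 : ∀ v, 0 ≤ ζ v := fun v => add_nonneg (hlξ v) (mul_nonneg hε0.le (ht0 v))
  have hζ1 : ∀ v, ζ v ≤ l * ξ v + ε := by
    intro v
    have := mul_le_of_le_one_right hε0.le (ht1 v)
    simp only [hζ]
    linarith
  have hζM : (k : ℝ) + 1 ≤ ∑ v, ζ v := by
    have h2 : ∑ v, l * ξ v ≤ ∑ v, ζ v := Finset.sum_le_sum fun v _ => by
      have := mul_nonneg hε0.le (ht0 v)
      simp only [hζ]
      linarith
    rw [← Finset.mul_sum, ← hM, hl2] at h2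
    exact h2
  have hζW : ∀ v, ∑ p : V × V, ζ p.1 * ζ p.2 *
      TA_i (∃ y, 0 < ν y ∧ v ∈ I y ∧ p.1 ∈ I y ∧ p.2 ∈ I y) ≤ w := by
    intro v
    refine le_trans (Finset.sum_le_sum fun p _ => ?_) (hε1 v).le
    refine mul_le_mul_of_nonneg_right ?_ (TA_i_nonneg _)
    exact mul_le_mul (hζ1 _) (hζ1 _) (hζ0 _) ((hζ0 _).trans (hζ1 _))
  have hX := TA_X ih I h0 hζ0 h1 hz' (fun v => (hζW v).trans hw1.le) hζM
  have hz2 : ∑ y, ν y < ((k + 1 : ℕ) : ℝ) + 1 / 2 := by
    push_cast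
    exact hz'
  have hT : ∀ Q Q' : Fin (k + 1) → V, TA_cl near Q → TA_cl near Q' → ∀ v, ∃ i j,
      ∃ y, 0 < ν y ∧ v ∈ I y ∧ Q i ∈ I y ∧ Q' j ∈ I y :=
    fun Q Q' hQ hQ' v => TA_T I h0 h1 hz2 Q Q' hQ hQ' v
  have hnr : ∀ Q : Fin (k + 1) → V, TA_cl near Q → ∀ a, ∃ i, near (Q i) a := by
    intro Q hQ a
    obtain ⟨i, j, y, hy, ha, hi, hj⟩ := hT Q Q hQ hQ a
    exact ⟨i, y, hy, hi, ha⟩
  have hMS := TA_ms hs k (fun v => ζ v - TA_h ρ v) (fun v => sub_nonneg.2 (hle v)) (by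
    intro Q hQ hcl
    have h2 : ∑ i, t (Q i) = 0 := by
      refine Finset.sum_eq_zero fun i _ => ?_
      by_contra hti
      have h3 := hQ i
      rw [hts _ hti] at h3
      simp [hζ] at h3
    have h3 := htc Q hcl
    rw [h2] at h3
    linarith)
  have h2 := TA_two (k := k + 1) hs (by omega) hρ0 hρK ht0 ht1 htc htt hle hts hnr hX
    (by push_cast; exact hζM) (by
      have : ((k + 1 : ℕ) : ℝ) - 1 = k := by push_cast; ring
      rw [this]
      exact hMS)
  have h3 := TA_up (k := k + 1) (near := near)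
    (R := fun v a b => ∃ y, 0 < ν y ∧ v ∈ I y ∧ a ∈ I y ∧ b ∈ I y) hs hρ0 hρK hle hnr hT hζW
    hz2.le (fun f L hf hL hload => TA_pairs h0 h1 hmin f L hf hL hload) v₀
  have h4 := h2.trans h3
  have h5 : (2 * ((k + 1 : ℕ) : ℝ) + 1) * w < 2 * ((k + 1 : ℕ) : ℝ) + 1 := by
    have h6 : (0 : ℝ) < 2 * ((k + 1 : ℕ) : ℝ) + 1 := by positivity
    nlinarith
  linarith

private theorem TA_sub {V : Type} [Fintype V] {ξ : V → ℝ} (hξ : ∀ v, 0 ≤ ξ v) {g : V → ℝ}
    (hg : ∀ v, ξ v = 0 → g v = 0) : ∑ v : {v // 0 < ξ v}, g v = ∑ v, g v := by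
  classical
  rw [← Finset.sum_subtype (univ.filter fun v => 0 < ξ v) (by simp) g]
  refine Finset.sum_filter_of_ne fun v _ hv => ?_
  exact lt_of_le_of_ne (hξ v) fun h => hv (hg v h.symm)

/-- The claim. -/
private theorem TA_claim (k : ℕ) : TA_Claim k := by
  classical
  induction k with
  | zero =>
    intro V Y _ _ _ I μ ξ hμ hξ hcov hz hW
    have h1 : ∀ v, ξ v = 0 := by
      intro v
      by_contra hv
      have h2 := hcov v (lt_of_le_of_ne (hξ v) (Ne.symm hv))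
      have h3 : ∑ y ∈ univ.filter (fun y => v ∈ I y), μ y ≤ ∑ y, μ y :=
        Finset.sum_le_sum_of_subset_of_nonneg (Finset.filter_subset _ _) fun y _ _ => hμ y
      norm_num at hz
      linarith
    simp [h1]
  | succ k ih =>
    intro V Y _ _ _ I μ ξ hμ hξ hcov hz hW
    have h1 : ∑ v : {v // 0 < ξ v}, ξ v = ∑ v, ξ v := TA_sub hξ fun v h => h
    have hz' : ∑ y, μ y < (k : ℝ) + 1 + 1 / 2 := by
      push_cast at hz
      exact hz
    have h2 := TA_step ih (V := {v // 0 < ξ v}) (fun y => (I y).subtype fun v => 0 < ξ v) hμ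
      (ξ := fun v => ξ v) (fun v => hξ v) (fun v => by
        have := hcov v v.2
        simpa only [mem_subtype] using this) hz' (fun v => by
        have h3 := hW v v.2
        have h4 : ∀ g : V → V → ℝ, ∑ p : {v // 0 < ξ v} × {v // 0 < ξ v},
            ξ p.1 * ξ p.2 * g p.1 p.2 = ∑ p : V × V, ξ p.1 * ξ p.2 * g p.1 p.2 := by
          intro g
          rw [Fintype.sum_prod_type, Fintype.sum_prod_type]
          have h5 : ∀ a : V, ∑ b : {v // 0 < ξ v}, ξ a * ξ b * g a b =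
              ∑ b, ξ a * ξ b * g a b := fun a =>
            TA_sub (g := fun b => ξ a * ξ b * g a b) hξ fun b hb => by
              rw [hb, mul_zero, zero_mul]
          simp_rw [h5]
          exact TA_sub (g := fun a => ∑ b, ξ a * ξ b * g a b) hξ fun a ha => by
            rw [ha]
            simp
        refine le_trans (le_of_eq ?_) h3
        rw [← h4 fun a b => TA_i (∃ y, (v : V) ∈ I y ∧ a ∈ I y ∧ b ∈ I y)]
        refine Finset.sum_congr rfl fun p _ => ?_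
        congr 1
        refine TA_i_congr ?_
        simp only [mem_subtype])
    rw [← h1]
    push_cast
    exact h2

/-- **Sharp excess for `3`-sets.** A fractional cover by independent sets of weight less than
`k + 1 / 2` bounds the density of `3`-sets by `1 - 1 / k ^ 2`. -/
theorem frac_three (k : ℕ) (hk : 1 ≤ k) : FracD 2 ((k : ℝ) + 1 / 2) (1 - 1 / (k : ℝ) ^ 2) := by
  intro V Y _ _ _ H hH μ I hμ hI hz hcov
  classical
  intro x0 hx0
  by_contra hcon
  push Not at hcon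
  have hne : Nonempty V := by
    by_contra hV
    rw [not_nonempty_iff] at hV
    have := hx0.2
    simp at this
  have hk0 : (0 : ℝ) < k := by exact_mod_cast hk
  obtain ⟨x, hx, hmax, heq⟩ := exists_opt H 2
  have hdx : 1 - 1 / (k : ℝ) ^ 2 < dens H 2 x := lt_of_lt_of_le hcon (hmax x0 hx0)
  have hD : (k : ℝ) ^ 2 * (1 - dens H 2 x) < 1 := by
    have h1 : 1 - dens H 2 x < 1 / (k : ℝ) ^ 2 := by linarith
    have h2 := mul_lt_mul_of_pos_left h1 (by positivity : (0 : ℝ) < (k : ℝ) ^ 2)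
    rwa [mul_one_div_cancel (by positivity)] at h2
  obtain ⟨L, hkL, hL⟩ : ∃ L : ℝ, (k : ℝ) < L ∧ L ^ 2 * (1 - dens H 2 x) ≤ 1 := by
    have hc : Continuous fun L : ℝ => L ^ 2 * (1 - dens H 2 x) := by fun_prop
    have h1 : ∀ᶠ L in nhds (k : ℝ), L ^ 2 * (1 - dens H 2 x) < 1 :=
      hc.continuousAt.eventually_lt continuousAt_const hD
    have h2 : ∀ᶠ L in nhdsWithin (k : ℝ) (Set.Ioi (k : ℝ)), L ^ 2 * (1 - dens H 2 x) < 1 :=
      h1.filter_mono nhdsWithin_le_nhds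
    obtain ⟨L, hL1, hL2⟩ := (h2.and self_mem_nhdsWithin).exists
    exact ⟨L, hL2, hL1.le⟩
  have hL0 : 0 < L := hk0.trans hkL
  have hx0' : ∀ v, 0 ≤ x v := hx.1
  have h1 := TA_claim k V Y I μ (fun v => L * x v) hμ (fun v => mul_nonneg hL0.le (hx0' v))
    (fun v _ => hcov v) hz (fun v hv => by
      have hxv : 0 < x v := by
        by_contra hc
        have : x v = 0 := le_antisymm (not_lt.1 hc) (hx0' v)
        rw [this, mul_zero] at hv
        exact lt_irrefl _ hv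
      refine TA_link (fun v => mul_nonneg hL0.le (hx0' v)) hI v ?_
      have h1 : ∑ w ∈ lnk H 2 v, ∏ i, x (w i) = 1 - dens H 2 x := by
        have h2 := ldens_add H 2 v x
        rw [hx.2, one_pow, heq v hxv] at h2
        linarith
      have h3 : ∑ w ∈ lnk H 2 v, ∏ i, (L * x (w i)) =
          L ^ 2 * ∑ w ∈ lnk H 2 v, ∏ i, x (w i) := by
        rw [Finset.mul_sum]
        refine sum_congr rfl fun w _ => ?_
        rw [Finset.prod_mul_distrib]
        simp
      rw [h3, h1]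
      exact hL)
  rw [← Finset.mul_sum, hx.2, mul_one] at h1
  linarith

end Pool.Agent.Lib.MP_455133_co.BT
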